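import Pool.Agent.Y601.SSE.Defs
import Pool.Agent.TH163.AC3.Col

set_option autoImplicit false
set_option linter.unusedSectionVars false

/-!
Reductions of small depth from parity to small-set expansion.
-/

namespace Pool.Agent.Y601.SSE

open Finset DomAC0 H568R2 Pool.Agent.TH163.AC3

section graphs

open scoped Classical

variable {V : Type} [Fintype V]

/-- the number of pairs which are adjacent in `G` and not in `H` -/
noncomputable def lost (G H : SimpleGraph V) : ℕ :=
  (univ.filter fun p : V × V => G.Adj p.1 p.2 ∧ ¬ H.Adj p.1 p.2).card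

/-- the number of adjacent pairs inside `S` -/
noncomputable def inn (G : SimpleGraph V) (S : Finset V) : ℕ :=
  (univ.filter fun p : V × V => p.1 ∈ S ∧ p.2 ∈ S ∧ G.Adj p.1 p.2).card

theorem inn_add_cut {G : SimpleGraph V} {d : ℕ}
    (hG : ∀ v, (univ.filter fun w => G.Adj v w).card = d) (S : Finset V) :
    inn G S + cut G S = d * S.card := by
  have h1 : inn G S + cut G S = (univ.filter fun p : V × V => p.1 ∈ S ∧ G.Adj p.1 p.2).card := by
    unfold inn cut
    rw [← card_union_of_disjoint]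
    · congr 1
      ext p
      simp only [mem_union, mem_filter, mem_univ, true_and]
      tauto
    · rw [disjoint_left]
      intro p hp hq
      simp only [mem_filter, mem_univ, true_and] at hp hq
      exact hq.2.1 hp.2.1
  rw [h1, card_filter, ← Finset.univ_product_univ, sum_product,
    ← Finset.sum_subset (Finset.subset_univ S)]
  · rw [Finset.sum_congr rfl (g := fun _ => d)]
    · rw [sum_const, smul_eq_mul, mul_comm]
    · intro u hu
      rw [← hG u, card_filter]
      exact sum_congr rfl fun v _ => by simp [hu]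
  · intro u _ hu
    exact sum_eq_zero fun v _ => by simp [hu]

theorem edges_eq {G : SimpleGraph V} {d : ℕ}
    (hG : ∀ v, (univ.filter fun w => G.Adj v w).card = d) :
    (univ.filter fun p : V × V => G.Adj p.1 p.2).card = d * Fintype.card V := by
  rw [card_filter, ← Finset.univ_product_univ, sum_product,
    Finset.sum_congr rfl (g := fun _ => d)]
  · rw [sum_const, smul_eq_mul, mul_comm, card_univ]
  · intro u _
    rw [← hG u, card_filter]

theorem inn_le (G H : SimpleGraph V) (S : Finset V) : inn G S ≤ inn H S + lost G H := by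
  unfold inn lost
  refine le_trans (card_le_card ?_) (card_union_le _ _)
  intro p hp
  simp only [mem_filter, mem_univ, true_and, mem_union] at hp ⊢
  by_cases h : H.Adj p.1 p.2
  · exact Or.inl ⟨hp.1, hp.2.1, h⟩
  · exact Or.inr ⟨hp.2.2, h⟩

theorem lost_sub (G H : SimpleGraph V) :
    (univ.filter fun p : V × V => G.Adj p.1 p.2).card + lost H G =
      (univ.filter fun p : V × V => H.Adj p.1 p.2).card + lost G H := by
  have h : ∀ A B : SimpleGraph V, (univ.filter fun p : V × V => A.Adj p.1 p.2).card + lost B A =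
      (univ.filter fun p : V × V => A.Adj p.1 p.2 ∨ B.Adj p.1 p.2).card := by
    intro A B
    unfold lost
    rw [← card_union_of_disjoint]
    · congr 1
      ext p
      simp only [mem_union, mem_filter, mem_univ, true_and]
      tauto
    · rw [disjoint_left]
      intro p hp hq
      simp only [mem_filter, mem_univ, true_and] at hp hq
      exact hq.2 hp
  rw [h G H, h H G]
  congr 1
  ext p
  simp only [mem_filter, mem_univ, true_and]
  tauto

/-- a yes instance and a no instance differ in many pairs -/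
theorem differ {G H : SimpleGraph V} {d d' k : ℕ}
    (hG : ∀ v, (univ.filter fun w => G.Adj v w).card = d)
    (hH : ∀ v, (univ.filter fun w => H.Adj v w).card = d') (hkV : k ≤ Fintype.card V)
    (ε η : ℝ) (hε : 0 ≤ ε) (hη : 0 ≤ η) (hεη : ε + η < 1)
    (hyes : ∃ S : Finset V, S.card = k ∧ (cut G S : ℝ) ≤ ε * (d * k))
    (hno : ∀ S : Finset V, S.card = k → (1 - η) * (d' * k) ≤ cut H S) :
    (1 - ε - η) * k * ((d : ℝ) + d') / 2 ≤ (lost G H : ℝ) + lost H G := by
  obtain ⟨S, hS, hc⟩ := hyes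
  have hc' := hno S hS
  have e1 : (inn G S : ℝ) + cut G S = d * k := by
    have := inn_add_cut hG S
    rw [hS] at this
    exact_mod_cast this
  have e2 : (inn H S : ℝ) + cut H S = d' * k := by
    have := inn_add_cut hH S
    rw [hS] at this
    exact_mod_cast this
  have e3 : (inn G S : ℝ) ≤ inn H S + lost G H := by exact_mod_cast inn_le G H S
  have e4 : (d : ℝ) * Fintype.card V + lost H G = d' * Fintype.card V + lost G H := by
    have := lost_sub G H
    rw [edges_eq hG, edges_eq hH] at this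
    exact_mod_cast this
  have e5 : (1 - ε) * (d * k) - η * (d' * k) ≤ lost G H := by nlinarith
  have hk : (0 : ℝ) ≤ k := Nat.cast_nonneg _
  have hd : (0 : ℝ) ≤ d := Nat.cast_nonneg _
  have hd' : (0 : ℝ) ≤ d' := Nat.cast_nonneg _
  have hl : (0 : ℝ) ≤ lost G H := Nat.cast_nonneg _
  have hl' : (0 : ℝ) ≤ lost H G := Nat.cast_nonneg _
  have hkV' : (k : ℝ) ≤ Fintype.card V := by exact_mod_cast hkV
  have hg : 0 ≤ 1 - ε - η := by linarith
  rcases le_total (d' : ℝ) d with h | h
  · have h1 : (1 - ε - η) * k * d ≤ lost G H := by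
      have : 0 ≤ η * ((d - d') * k) := mul_nonneg hη (mul_nonneg (by linarith) hk)
      nlinarith
    have h2 : (1 - ε - η) * k * ((d : ℝ) + d') ≤ (1 - ε - η) * k * (d + d) :=
      mul_le_mul_of_nonneg_left (by linarith) (mul_nonneg hg hk)
    linarith
  · have h1 : ((d' : ℝ) - d) * k ≤ lost H G := by
      have : ((d' : ℝ) - d) * k ≤ (d' - d) * Fintype.card V :=
        mul_le_mul_of_nonneg_left hkV' (by linarith)
      linarith
    have h3 : (1 - ε - η) * k * d' ≤ lost G H + lost H G := by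
      have : 0 ≤ ε * ((d' - d) * k) := mul_nonneg hε (mul_nonneg (by linarith) hk)
      nlinarith
    have h2 : (1 - ε - η) * k * ((d : ℝ) + d') ≤ (1 - ε - η) * k * (d' + d') :=
      mul_le_mul_of_nonneg_left (by linarith) (mul_nonneg hg hk)
    linarith

end graphs

section flips

variable {I : Type} [Fintype I] [DecidableEq I]

/-- flip one coordinate -/
def flip (i : I) (x : I → Bool) : I → Bool := Function.update x i (!(x i))

theorem flip_flip (i : I) (x : I → Bool) : flip i (flip i x) = x := by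
  unfold flip
  funext j
  by_cases h : j = i
  · subst h; simp
  · simp [h]

theorem odd_flip (i : I) (x : I → Bool) :
    Odd (univ.filter fun j => flip i x j = true).card ↔
      ¬ Odd (univ.filter fun j => x j = true).card := by
  have h1 : ∀ y : I → Bool, (univ.filter fun j => y j = true).card =
      (if y i = true then 1 else 0) + ∑ j ∈ univ.erase i, if y j = true then 1 else 0 := by
    intro y
    rw [card_filter, Finset.add_sum_erase univ (fun j => if y j = true then 1 else 0) (mem_univ i)]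
  have h2 : ∑ j ∈ univ.erase i, (if flip i x j = true then 1 else 0) =
      ∑ j ∈ univ.erase i, if x j = true then 1 else 0 := by
    refine sum_congr rfl fun j hj => ?_
    rw [mem_erase] at hj
    unfold flip
    rw [Function.update_of_ne hj.1]
  rw [h1 (flip i x), h1 x, h2]
  have h3 : flip i x i = !(x i) := by unfold flip; simp
  rw [h3]
  obtain ⟨t, ht⟩ : ∃ t : ℕ, t = ∑ j ∈ univ.erase i, if x j = true then 1 else 0 := ⟨_, rfl⟩
  rw [← ht]
  cases x i
  · show Odd (1 + t) ↔ ¬ Odd (0 + t)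
    rw [zero_add, add_comm, Nat.odd_add_one]
  · show Odd (0 + t) ↔ ¬ Odd (1 + t)
    rw [zero_add, add_comm, Nat.odd_add_one, not_not]

theorem ov_flip (ρ : Restr I) (i : I) (hi : ρ i = none) (x : I → Bool) :
    ov ρ (flip i x) = flip i (ov ρ x) := by
  unfold ov flip
  funext j
  by_cases h : j = i
  · subst h
    simp [hi]
  · simp [h]

theorem sens_le {s : ℕ} {f : (I → Bool) → Bool} (hf : HasDT s f) (J : Finset I) (x : I → Bool) :
    (J.filter fun i => f (flip i x) ≠ f x).card ≤ s := by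
  obtain ⟨t, ht, he⟩ := hf
  refine le_trans (card_le_card ?_) ((t.card_reads x).trans ht)
  intro i hi
  rw [mem_filter] at hi
  by_contra hni
  apply hi.2
  rw [← he, ← he]
  refine (t.congr x (flip i x) fun j hj => ?_).1
  have : j ≠ i := fun h => hni (h ▸ hj)
  unfold flip
  rw [Function.update_of_ne this]

end flips

section core

open scoped Classical

variable {I : Type} [Fintype I] [DecidableEq I] {V : Type} [Fintype V]

/-- the double counting -/
theorem count {s k : ℕ} (G : (I → Bool) → SimpleGraph V) (d : (I → Bool) → ℕ) (J : Finset I)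
    (hG : ∀ x v, (univ.filter fun w => (G x).Adj v w).card = d x) (hd : ∀ x, 1 ≤ d x)
    (hk : 1 ≤ k) (hkV : k ≤ Fintype.card V) (ε η : ℝ) (hε : 0 ≤ ε) (hη : 0 ≤ η)
    (hεη : ε + η < 1)
    (hdt : ∀ u v, HasDT s (fun x => decide ((G x).Adj u v)))
    (hpair : ∀ i ∈ J, ∀ x, (1 - ε - η) * k * ((d x : ℝ) + d (flip i x)) / 2 ≤
      (lost (G x) (G (flip i x)) : ℝ) + lost (G (flip i x)) (G x)) :
    (1 - ε - η) * k * J.card ≤ 2 * s * Fintype.card V := by
  have hlost : ∀ x, ∑ i ∈ J, lost (G x) (G (flip i x)) ≤ s * (d x * Fintype.card V) := by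
    intro x
    unfold lost
    simp_rw [card_filter]
    rw [sum_comm]
    have h1 : ∀ p : V × V, ∑ i ∈ J, (if (G x).Adj p.1 p.2 ∧ ¬ (G (flip i x)).Adj p.1 p.2 then 1
        else 0) ≤ s * if (G x).Adj p.1 p.2 then 1 else 0 := by
      intro p
      by_cases hp : (G x).Adj p.1 p.2
      · simp only [hp, true_and, if_true, mul_one]
        rw [← card_filter]
        refine le_trans (card_le_card ?_) (sens_le (hdt p.1 p.2) J x)
        intro i hi
        rw [mem_filter] at hi ⊢
        exact ⟨hi.1, by simp [hi.2, hp]⟩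
      · simp [hp]
    refine (sum_le_sum fun p _ => h1 p).trans ?_
    rw [← mul_sum, ← card_filter, edges_eq (hG x)]
  have hsum1 : ∑ x, ∑ i ∈ J, (lost (G x) (G (flip i x)) : ℝ) ≤
      s * Fintype.card V * ∑ x, (d x : ℝ) := by
    rw [mul_sum]
    refine sum_le_sum fun x _ => ?_
    have := hlost x
    have h2 : ((∑ i ∈ J, lost (G x) (G (flip i x)) : ℕ) : ℝ) ≤
        ((s * (d x * Fintype.card V) : ℕ) : ℝ) := by exact_mod_cast this
    push_cast at h2
    linarith
  have hinv : ∀ (i : I) (f : (I → Bool) → ℝ), ∑ x, f (flip i x) = ∑ x, f x := by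
    intro i f
    exact Fintype.sum_equiv ⟨flip i, flip i, flip_flip i, flip_flip i⟩ _ _ fun x => rfl
  have hsum2 : ∀ i ∈ J, (1 - ε - η) * k * ∑ x, (d x : ℝ) ≤
      2 * ∑ x, (lost (G x) (G (flip i x)) : ℝ) := by
    intro i hi
    have h1 := sum_le_sum fun x (_ : x ∈ (univ : Finset (I → Bool))) => hpair i hi x
    rw [sum_add_distrib] at h1
    have h2 : ∑ x, (lost (G (flip i x)) (G x) : ℝ) = ∑ x, (lost (G x) (G (flip i x)) : ℝ) := by
      rw [← hinv i fun x => (lost (G x) (G (flip i x)) : ℝ)]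
      exact sum_congr rfl fun x _ => by rw [flip_flip]
    have h3 : ∑ x, (1 - ε - η) * k * ((d x : ℝ) + d (flip i x)) / 2 =
        (1 - ε - η) * k * ∑ x, (d x : ℝ) := by
      rw [← sum_div, ← mul_sum, sum_add_distrib, hinv i fun x => (d x : ℝ)]
      ring
    rw [h2, h3] at h1
    linarith
  have hsum3 := sum_le_sum hsum2
  rw [sum_const, nsmul_eq_mul, ← mul_sum, sum_comm] at hsum3
  have hdpos : 0 < ∑ x, (d x : ℝ) := by
    apply sum_pos
    · intro x _
      have := hd x
      have h2 : 0 < d x := by omega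
      exact_mod_cast h2
    · exact univ_nonempty
  have h4 : ((1 - ε - η) * k * J.card) * ∑ x, (d x : ℝ) ≤
      (2 * s * Fintype.card V) * ∑ x, (d x : ℝ) := by
    calc ((1 - ε - η) * k * J.card) * ∑ x, (d x : ℝ)
        = J.card * ((1 - ε - η) * k * ∑ x, (d x : ℝ)) := by ring
      _ ≤ 2 * ∑ x, ∑ i ∈ J, (lost (G x) (G (flip i x)) : ℝ) := hsum3
      _ ≤ 2 * (s * Fintype.card V * ∑ x, (d x : ℝ)) := by linarith
      _ = _ := by ring
  exact le_of_mul_le_mul_right h4 hdpos

end core

section restr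

open scoped Classical

variable {I : Type} [Fintype I] [DecidableEq I]

theorem ex_star {p : ℝ} (i : I) :
    Ex (wq p) (fun ρ : Restr I => if ρ i = none then (1 : ℝ) else 0) = p := by
  rw [Ex_resample (wq_sum p) _ i]
  have h1 : (fun ω : Restr I => ∑ a, wq p a *
      (if Function.update ω i a i = none then (1 : ℝ) else 0)) = fun _ => p := by
    funext ω
    rw [Fintype.sum_option, Fintype.sum_bool]
    simp [wq]
  rw [h1, Ex_const (wq_sum p)]

/-- a restriction with many stars under which all gates are shallow -/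
theorem exists_restr (C : Circuit I) (hI : 0 < Fintype.card I) {s : ℕ} (hs : 1 ≤ s) (h : ℕ)
    (hcond : h * C.size * (24 * s) ^ h ≤ 2 ^ s) :
    ∃ ρ : Restr I, Shallow C s h ρ ∧
      (Fintype.card I : ℝ) ≤ 4 * (24 * s) ^ h * (univ.filter fun i => ρ i = none).card := by
  obtain ⟨q, hq⟩ : ∃ q : ℝ, q = 1 / (24 * s) := ⟨_, rfl⟩
  have hs0 : (1 : ℝ) ≤ s := by exact_mod_cast hs
  have hq0 : 0 < q := by rw [hq]; positivity
  have hq1 : q ≤ 1 / 3 := by
    rw [hq, div_le_div_iff₀ (by positivity) (by norm_num)]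
    linarith
  have hbad := collapse' C hq0.le hq1 hs h
  have hN : (0 : ℝ) < Fintype.card I := by exact_mod_cast hI
  have h1 : (12 * s * q : ℝ) = 1 / 2 := by rw [hq]; field_simp; norm_num
  rw [h1] at hbad
  have hqh : 0 < q ^ h := by positivity
  have h2 : (h : ℝ) * C.size * (1 / 2) ^ (s + 1) ≤ q ^ h / 2 := by
    have h3 : ((h * C.size * (24 * s) ^ h : ℕ) : ℝ) ≤ ((2 ^ s : ℕ) : ℝ) := by exact_mod_cast hcond
    push_cast at h3
    have h4 : q ^ h * (24 * s) ^ h = 1 := by
      rw [← mul_pow, hq]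
      have : (1 : ℝ) / (24 * s) * (24 * s) = 1 := by field_simp
      rw [this, one_pow]
    have h5 : ((1 : ℝ) / 2) ^ (s + 1) * 2 ^ s = 1 / 2 := by
      rw [pow_succ, mul_right_comm, ← mul_pow]
      norm_num
    have h6 : (0 : ℝ) < (24 * s) ^ h := by positivity
    have h7 : (h : ℝ) * C.size * (1 / 2) ^ (s + 1) * (24 * s) ^ h ≤ 1 / 2 := by
      calc (h : ℝ) * C.size * (1 / 2) ^ (s + 1) * (24 * s) ^ h
          = (1 / 2) ^ (s + 1) * (h * C.size * (24 * s) ^ h) := by ring
        _ ≤ (1 / 2) ^ (s + 1) * 2 ^ s := mul_le_mul_of_nonneg_left h3 (by positivity)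
        _ = 1 / 2 := h5
    calc (h : ℝ) * C.size * (1 / 2) ^ (s + 1)
        = (h : ℝ) * C.size * (1 / 2) ^ (s + 1) * (24 * s) ^ h * q ^ h := by
          rw [mul_assoc _ ((24 * s : ℝ) ^ h), mul_comm ((24 * s : ℝ) ^ h), h4, mul_one]
      _ ≤ 1 / 2 * q ^ h := mul_le_mul_of_nonneg_right h7 hqh.le
      _ = q ^ h / 2 := by ring
  have hbad2 := hbad.trans h2
  -- the expectation of the number of stars
  have hstars : Ex (wq (q ^ h)) (fun ρ : Restr I =>
      ((univ.filter fun i => ρ i = none).card : ℝ)) = Fintype.card I * q ^ h := by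
    have e1 : (fun ρ : Restr I => ((univ.filter fun i => ρ i = none).card : ℝ)) =
        fun ρ : Restr I => ∑ i, if ρ i = none then (1 : ℝ) else 0 := by
      funext ρ
      rw [card_filter]
      push_cast
      rfl
    rw [e1, Ex_sum univ (wq (q ^ h)) fun i (ρ : Restr I) => if ρ i = none then (1 : ℝ) else 0]
    rw [sum_congr rfl fun i _ => ex_star (p := q ^ h) i, sum_const, nsmul_eq_mul, card_univ]
  by_contra hcon
  push Not at hcon
  have hw : ∀ a, 0 ≤ wq (q ^ h) a :=
    wq_nonneg hqh.le (pow_le_one₀ hq0.le (by linarith))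
  have hpt : ∀ ρ : Restr I, ((univ.filter fun i => ρ i = none).card : ℝ) ≤
      (Fintype.card I : ℝ) * (if ¬ Shallow C s h ρ then (1 : ℝ) else 0) +
        (univ.filter fun i => ρ i = none).card * (if Shallow C s h ρ then (1 : ℝ) else 0) := by
    intro ρ
    by_cases hS : Shallow C s h ρ
    · simp [hS]
    · simp only [hS, not_false_iff, if_true, if_false, mul_one, mul_zero, add_zero]
      exact_mod_cast card_le_univ _
  have hpt2 : ∀ ρ : Restr I,
      ((univ.filter fun i => ρ i = none).card : ℝ) ≤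
      (Fintype.card I : ℝ) * (if ¬ Shallow C s h ρ then (1 : ℝ) else 0) +
        (Fintype.card I : ℝ) * (q ^ h / 4) := by
    intro ρ
    refine (hpt ρ).trans (add_le_add le_rfl ?_)
    by_cases hS : Shallow C s h ρ
    · have h3 := hcon ρ hS
      rw [if_pos hS, mul_one]
      have h4 : q ^ h * (24 * s) ^ h = 1 := by
        rw [← mul_pow, hq]
        have : (1 : ℝ) / (24 * s) * (24 * s) = 1 := by field_simp
        rw [this, one_pow]
      have h5 := mul_lt_mul_of_pos_right h3 hqh
      have h6 : 4 * (24 * (s : ℝ)) ^ h * (univ.filter fun i => ρ i = none).card * q ^ h =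
          4 * (univ.filter fun i => ρ i = none).card := by
        calc _ = 4 * (univ.filter fun i => ρ i = none).card * (q ^ h * (24 * (s : ℝ)) ^ h) := by
              ring
          _ = _ := by rw [h4, mul_one]
      rw [h6] at h5
      linarith
    · rw [if_neg hS, mul_zero]
      positivity
  have h8 := Ex_mono hw hpt2
  rw [hstars, Ex_add (wq (q ^ h)) (fun ρ : Restr I => (Fintype.card I : ℝ) *
      (if ¬ Shallow C s h ρ then (1 : ℝ) else 0)) fun _ => (Fintype.card I : ℝ) * (q ^ h / 4),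
    Ex_smul, Ex_const (wq_sum _)] at h8
  have h9 := mul_le_mul_of_nonneg_left hbad2 hN.le
  have h10 : 0 < (Fintype.card I : ℝ) * q ^ h := mul_pos hN hqh
  nlinarith

end restr

section main

open scoped Classical

/-- reductions of small depth from parity: the parameters -/
theorem ac0_core {N : ℕ} (C : Circuit (Fin N)) {V : Type} [Fintype V]
    (out : V → V → Fin N ⊕ Fin C.size) (h : ℕ) (hh : ∀ u v, C.nodeDepth (out u v) ≤ h)
    (G : (Fin N → Bool) → SimpleGraph V) (d : (Fin N → Bool) → ℕ)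
    (hadj : ∀ x u v, (G x).Adj u v ↔ C.nodeVal x (out u v) = true)
    (hG : ∀ x v, (univ.filter fun w => (G x).Adj v w).card = d x) (hd : ∀ x, 1 ≤ d x)
    {k : ℕ} (hk : 1 ≤ k) (hkV : k ≤ Fintype.card V) (ε η : ℝ) (hε : 0 ≤ ε) (hη : 0 ≤ η)
    (hεη : ε + η < 1)
    (hyes : ∀ x, ¬ Odd (univ.filter fun i => x i = true).card →
      ∃ S : Finset V, S.card = k ∧ (cut (G x) S : ℝ) ≤ ε * (d x * k))
    (hno : ∀ x, Odd (univ.filter fun i => x i = true).card →
      ∀ S : Finset V, S.card = k → (1 - η) * (d x * k) ≤ cut (G x) S)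
    {s : ℕ} (hs : 1 ≤ s) (hcond : h * C.size * (24 * s) ^ h ≤ 2 ^ s) :
    (1 - ε - η) * (k / Fintype.card V) * N ≤ (24 * s) ^ (h + 1) := by
  have hV0 : (0 : ℝ) < Fintype.card V := by
    have : 0 < Fintype.card V := by omega
    exact_mod_cast this
  have hs0 : (1 : ℝ) ≤ s := by exact_mod_cast hs
  rcases Nat.eq_zero_or_pos N with hN | hN
  · subst hN
    simp only [Nat.cast_zero, mul_zero]
    positivity
  obtain ⟨ρ, hρ, hst⟩ := exists_restr C (by simpa using hN) hs h hcond
  rw [Fintype.card_fin] at hst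
  obtain ⟨J, hJ⟩ : ∃ J : Finset (Fin N), J = univ.filter fun i => ρ i = none := ⟨_, rfl⟩
  rw [← hJ] at hst
  have hcount := count (s := s) (k := k) (fun x => G (ov ρ x)) (fun x => d (ov ρ x)) J
    (fun x => hG _) (fun x => hd _) hk hkV ε η hε hη hεη (fun u v => by
      have h1 := node_dt C hs hρ (out u v) (hh u v)
      have h2 : (fun x => decide ((G (ov ρ x)).Adj u v)) =
          rs (fun x => C.nodeVal x (out u v)) ρ := by
        funext x
        show decide ((G (ov ρ x)).Adj u v) = C.nodeVal (ov ρ x) (out u v)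
        have h3 := hadj (ov ρ x) u v
        by_cases h4 : C.nodeVal (ov ρ x) (out u v) = true
        · rw [h4, decide_eq_true (h3.2 h4)]
        · rw [Bool.not_eq_true] at h4
          rw [h4, decide_eq_false (fun h5 => by rw [h3, h4] at h5; exact absurd h5 (by simp))]
      rw [h2]
      exact h1) ?_
  · have hdiv : (1 - ε - η) * (k / Fintype.card V) * J.card ≤ 2 * s := by
      have h5 : (1 - ε - η) * k * J.card / Fintype.card V ≤ 2 * s := by
        rw [div_le_iff₀ hV0]
        exact hcount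
      calc (1 - ε - η) * (k / Fintype.card V) * J.card
          = (1 - ε - η) * k * J.card / Fintype.card V := by ring
        _ ≤ 2 * s := h5
    have hg : 0 ≤ (1 - ε - η) * (k / Fintype.card V) :=
      mul_nonneg (by linarith) (by positivity)
    calc (1 - ε - η) * (k / Fintype.card V) * N
        ≤ (1 - ε - η) * (k / Fintype.card V) * (4 * (24 * s) ^ h * J.card) :=
          mul_le_mul_of_nonneg_left hst hg
      _ = 4 * (24 * s) ^ h * ((1 - ε - η) * (k / Fintype.card V) * J.card) := by ring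
      _ ≤ 4 * (24 * s) ^ h * (2 * s) := mul_le_mul_of_nonneg_left hdiv (by positivity)
      _ ≤ (24 * s) ^ (h + 1) := by
        rw [pow_succ]
        have : (0 : ℝ) ≤ (24 * s) ^ h := by positivity
        nlinarith
  · intro i hi x
    rw [hJ, mem_filter] at hi
    show (1 - ε - η) * k * ((d (ov ρ x) : ℝ) + d (ov ρ (flip i x))) / 2 ≤
      (lost (G (ov ρ x)) (G (ov ρ (flip i x))) : ℝ) +
        lost (G (ov ρ (flip i x))) (G (ov ρ x))
    rw [ov_flip ρ i hi.2]
    have hpar := odd_flip i (ov ρ x)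
    by_cases hodd : Odd (univ.filter fun j => ov ρ x j = true).card
    · have hev : ¬ Odd (univ.filter fun j => flip i (ov ρ x) j = true).card := by
        rw [hpar]; exact not_not.2 hodd
      have h1 := differ (hG (flip i (ov ρ x))) (hG (ov ρ x)) hkV ε η hε hη hεη (hyes _ hev)
        (hno _ hodd)
      linarith
    · have hod : Odd (univ.filter fun j => flip i (ov ρ x) j = true).card := hpar.2 hodd
      exact differ (hG (ov ρ x)) (hG (flip i (ov ρ x))) hkV ε η hε hη hεη (hyes _ hodd)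
        (hno _ hod)

theorem exists_large (h : ℕ) : ∃ Y0 : ℝ, 48 ≤ Y0 ∧ ∀ Y : ℝ, Y0 ≤ Y →
    h * Y ^ h * (2 : ℝ) ^ (Y / 100) ≤ 2 ^ (Y / 24 - 1) := by
  obtain ⟨b, hb⟩ : ∃ b : ℝ, b = Real.log 2 * (1 / 24 - 1 / 100) := ⟨_, rfl⟩
  have hl : 0 < Real.log 2 := Real.log_pos (by norm_num)
  have hb0 : 0 < b := by rw [hb]; exact mul_pos hl (by norm_num)
  have h1 : Filter.Tendsto (fun Y : ℝ => h * ((b * Y) ^ h * Real.exp (-(b * Y))) / b ^ h)
      Filter.atTop (nhds (h * 0 / b ^ h)) := by
    have h2 := (Real.tendsto_pow_mul_exp_neg_atTop_nhds_zero h).comp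
      (Filter.tendsto_id.const_mul_atTop hb0)
    exact (h2.const_mul (h : ℝ)).div_const _
  rw [mul_zero, zero_div] at h1
  have h3 := h1.eventually (gt_mem_nhds (show (0 : ℝ) < 1 / 2 by norm_num))
  obtain ⟨Y1, hY1⟩ := Filter.eventually_atTop.1 h3
  refine ⟨max Y1 48, le_max_right _ _, fun Y hY => ?_⟩
  have h4 := (hY1 Y ((le_max_left _ _).trans hY)).le
  have hbh : 0 < b ^ h := by positivity
  have h5 : h * ((b * Y) ^ h * Real.exp (-(b * Y))) / b ^ h = h * Y ^ h * Real.exp (-(b * Y)) := by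
    rw [mul_pow]
    field_simp
  rw [h5] at h4
  have h6 : (2 : ℝ) ^ (Y / 100) = Real.exp (-(b * Y)) * 2 ^ (Y / 24) := by
    rw [Real.rpow_def_of_pos (by norm_num), Real.rpow_def_of_pos (by norm_num), ← Real.exp_add, hb]
    congr 1
    ring
  have h7 : (2 : ℝ) ^ (Y / 24 - 1) = 1 / 2 * 2 ^ (Y / 24) := by
    rw [Real.rpow_sub (by norm_num), Real.rpow_one]
    ring
  rw [h6, h7, ← mul_assoc]
  exact mul_le_mul_of_nonneg_right h4 (by positivity)

/-- reductions of small depth from parity must be large -/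
theorem ac0_main (h : ℕ) : ∃ X0 : ℝ, ∀ {N : ℕ} (C : Circuit (Fin N)) {V : Type} [Fintype V]
    (out : V → V → Fin N ⊕ Fin C.size)
    (G : (Fin N → Bool) → SimpleGraph V) (d : (Fin N → Bool) → ℕ) {k : ℕ} (ε η : ℝ),
    (∀ u v, C.nodeDepth (out u v) ≤ h) →
    (∀ x u v, (G x).Adj u v ↔ C.nodeVal x (out u v) = true) →
    (∀ x v, (univ.filter fun w => (G x).Adj v w).card = d x) → (∀ x, 1 ≤ d x) →
    1 ≤ k → k ≤ Fintype.card V → 0 ≤ ε → 0 ≤ η → ε + η < 1 →
    (∀ x, ¬ Odd (univ.filter fun i => x i = true).card →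
      ∃ S : Finset V, S.card = k ∧ (cut (G x) S : ℝ) ≤ ε * (d x * k)) →
    (∀ x, Odd (univ.filter fun i => x i = true).card →
      ∀ S : Finset V, S.card = k → (1 - η) * (d x * k) ≤ cut (G x) S) →
    X0 ≤ (1 - ε - η) * (k / Fintype.card V) * N →
    (2 : ℝ) ^ (((1 - ε - η) * (k / Fintype.card V) * N) ^ (1 / (h + 1 : ℝ)) / 100) ≤ C.size := by
  obtain ⟨Y0, hY48, hY0⟩ := exists_large h
  refine ⟨Y0 ^ (h + 1), ?_⟩
  intro N C V _ out G d k ε η hh hadj hG hd hk hkV hε hη hεη hyes hno hX
  obtain ⟨X, hXd⟩ : ∃ X : ℝ, X = (1 - ε - η) * (k / Fintype.card V) * N := ⟨_, rfl⟩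
  rw [← hXd] at hX ⊢
  obtain ⟨Y, hYd⟩ : ∃ Y : ℝ, Y = X ^ (1 / (h + 1 : ℝ)) := ⟨_, rfl⟩
  rw [← hYd]
  have hY00 : (0 : ℝ) ≤ Y0 := by linarith
  have hXpos : 0 ≤ X := le_trans (by positivity) hX
  have hYX : Y ^ (h + 1) = X := by
    rw [hYd, ← Real.rpow_natCast, ← Real.rpow_mul hXpos]
    push_cast
    rw [one_div, inv_mul_cancel₀ (by positivity), Real.rpow_one]
  have hYn : 0 ≤ Y := by rw [hYd]; exact Real.rpow_nonneg hXpos _
  have hYY : Y0 ≤ Y := by
    by_contra hcon
    push Not at hcon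
    have := pow_lt_pow_left₀ hcon hYn (Nat.succ_ne_zero h)
    rw [Nat.succ_eq_add_one, hYX] at this
    linarith
  have hY := hY0 Y hYY
  by_contra hcon
  push Not at hcon
  -- the depth of the decision trees
  obtain ⟨s, hs⟩ : ∃ s : ℕ, s = ⌈Y / 24⌉₊ - 1 := ⟨_, rfl⟩
  have hc1 : Y / 24 ≤ ⌈Y / 24⌉₊ := Nat.le_ceil _
  have hc2 : (⌈Y / 24⌉₊ : ℝ) < Y / 24 + 1 := Nat.ceil_lt_add_one (by positivity)
  have hc3 : 2 ≤ ⌈Y / 24⌉₊ := by
    have : (2 : ℝ) ≤ ⌈Y / 24⌉₊ := le_trans (by linarith) hc1
    exact_mod_cast this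
  have hs1 : 1 ≤ s := by omega
  have hsr : (s : ℝ) = ⌈Y / 24⌉₊ - 1 := by
    rw [hs, Nat.cast_sub (by omega), Nat.cast_one]
  have hs2 : 24 * (s : ℝ) < Y := by rw [hsr]; linarith
  have hs3 : Y / 24 - 1 ≤ s := by rw [hsr]; linarith
  have hlt : (24 * (s : ℝ)) ^ (h + 1) < X := by
    rw [← hYX]
    exact pow_lt_pow_left₀ hs2 (by positivity) (Nat.succ_ne_zero h)
  have hcond : h * C.size * (24 * s) ^ h ≤ 2 ^ s := by
    have h1 : ((h * C.size * (24 * s) ^ h : ℕ) : ℝ) ≤ ((2 ^ s : ℕ) : ℝ) := by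
      push_cast
      calc (h : ℝ) * C.size * (24 * s) ^ h ≤ h * 2 ^ (Y / 100) * Y ^ h := by
            apply mul_le_mul _ (pow_le_pow_left₀ (by positivity) hs2.le h) (by positivity)
              (by positivity)
            exact mul_le_mul_of_nonneg_left hcon.le (Nat.cast_nonneg _)
        _ = h * Y ^ h * 2 ^ (Y / 100) := by ring
        _ ≤ 2 ^ (Y / 24 - 1) := hY
        _ ≤ (2 : ℝ) ^ (s : ℝ) := Real.rpow_le_rpow_of_exponent_le (by norm_num) hs3
        _ = 2 ^ s := Real.rpow_natCast _ _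
    exact_mod_cast h1
  have hcore := ac0_core C out h hh G d hadj hG hd hk hkV ε η hε hη hεη hyes hno hs1 hcond
  rw [← hXd] at hcore
  linarith

end main

end Pool.Agent.Y601.SSE
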