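import Pool.Agent.Y601.SSE.Ac0

set_option autoImplicit false
set_option linter.unusedSectionVars false

/-!
Reductions of small depth from parity to constraint satisfaction problems with a gap.
-/

namespace Pool.Agent.Y601.SSE

open Finset DomAC0 H568R2 Pool.Agent.TH163.AC3
open scoped Classical

section

variable {I Λ : Type} [Fintype I] [DecidableEq I] {m b : ℕ}

/-- the slots which are present and satisfied -/
noncomputable def good (pres : Fin m → (Fin b → Bool) → Prop)
    (sat : Fin m → (Fin b → Bool) → Λ → Prop) (w : Fin m → Fin b → Bool) (l : Λ) : ℕ :=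
  (univ.filter fun e => pres e (w e) ∧ sat e (w e) l).card

/-- the slots which are present -/
noncomputable def tot (pres : Fin m → (Fin b → Bool) → Prop) (w : Fin m → Fin b → Bool) : ℕ :=
  (univ.filter fun e => pres e (w e)).card

/-- the slots which are present and changed -/
noncomputable def chg (pres : Fin m → (Fin b → Bool) → Prop) (w w' : Fin m → Fin b → Bool) : ℕ :=
  (univ.filter fun e => pres e (w e) ∧ w e ≠ w' e).card

variable {pres : Fin m → (Fin b → Bool) → Prop} {sat : Fin m → (Fin b → Bool) → Λ → Prop}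

theorem good_le (w w' : Fin m → Fin b → Bool) (l : Λ) :
    good pres sat w l ≤ good pres sat w' l + chg pres w w' := by
  unfold good chg
  refine le_trans (card_le_card ?_) (card_union_le _ _)
  intro e he
  simp only [mem_filter, mem_univ, true_and, mem_union] at he ⊢
  by_cases h : w e = w' e
  · left; rw [← h]; exact he
  · right; exact ⟨he.1, h⟩

theorem tot_le (w w' : Fin m → Fin b → Bool) : tot pres w ≤ tot pres w' + chg pres w w' := by
  unfold tot chg
  refine le_trans (card_le_card ?_) (card_union_le _ _)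
  intro e he
  simp only [mem_filter, mem_univ, true_and, mem_union] at he ⊢
  by_cases h : w e = w' e
  · left; rw [← h]; exact he
  · right; exact ⟨he, h⟩

theorem csp_differ {w w' : Fin m → Fin b → Bool} (c t : ℝ) (ht : 0 ≤ t) (htc : t < c)
    (hc1 : c ≤ 1)
    (hyes : ∃ l, c * tot pres w ≤ good pres sat w l)
    (hno : ∀ l, (good pres sat w' l : ℝ) ≤ t * tot pres w') :
    (c - t) * ((tot pres w : ℝ) + tot pres w') / 4 ≤ (chg pres w w' : ℝ) + chg pres w' w := by
  obtain ⟨l, hl⟩ := hyes
  have h1 := hno l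
  have h2 : (good pres sat w l : ℝ) ≤ good pres sat w' l + chg pres w w' := by
    exact_mod_cast good_le w w' l
  have h3 : (tot pres w' : ℝ) ≤ tot pres w + chg pres w' w := by
    exact_mod_cast tot_le w' w
  have h4 : (tot pres w : ℝ) ≤ tot pres w' + chg pres w w' := by
    exact_mod_cast tot_le w w'
  have p1 : (0 : ℝ) ≤ chg pres w w' := Nat.cast_nonneg _
  have p2 : (0 : ℝ) ≤ chg pres w' w := Nat.cast_nonneg _
  have p3 : (0 : ℝ) ≤ tot pres w := Nat.cast_nonneg _
  have p4 : (0 : ℝ) ≤ tot pres w' := Nat.cast_nonneg _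
  have h5 : c * (tot pres w : ℝ) - t * tot pres w' ≤ chg pres w w' := by linarith
  rcases le_total (tot pres w' : ℝ) (tot pres w) with h | h
  · have h6 : (c - t) * (tot pres w : ℝ) ≤ chg pres w w' := by nlinarith
    have h7 : (c - t) * ((tot pres w : ℝ) + tot pres w') ≤ (c - t) * (tot pres w + tot pres w) :=
      mul_le_mul_of_nonneg_left (by linarith) (by linarith)
    nlinarith
  · have h6 : (c - t) * (tot pres w' : ℝ) ≤ chg pres w w' + chg pres w' w := by
      nlinarith
    have h7 : (c - t) * ((tot pres w : ℝ) + tot pres w') ≤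
        (c - t) * (tot pres w' + tot pres w') :=
      mul_le_mul_of_nonneg_left (by linarith) (by linarith)
    nlinarith

/-- the double counting -/
theorem csp_count {s : ℕ} (w : (I → Bool) → Fin m → Fin b → Bool) (J : Finset I)
    (hpos : ∀ x, 1 ≤ tot pres (w x)) (γ : ℝ)
    (hdt : ∀ e j, HasDT s (fun x => w x e j))
    (hpair : ∀ i ∈ J, ∀ x, γ * ((tot pres (w x) : ℝ) + tot pres (w (flip i x))) / 4 ≤
      (chg pres (w x) (w (flip i x)) : ℝ) + chg pres (w (flip i x)) (w x)) :
    γ * J.card ≤ 4 * (s * b) := by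
  have hlost : ∀ x, ∑ i ∈ J, chg pres (w x) (w (flip i x)) ≤ s * b * tot pres (w x) := by
    intro x
    unfold chg
    simp_rw [card_filter]
    rw [sum_comm]
    have h1 : ∀ e : Fin m, ∑ i ∈ J, (if pres e (w x e) ∧ w x e ≠ w (flip i x) e then 1
        else 0) ≤ s * b * if pres e (w x e) then 1 else 0 := by
      intro e
      by_cases hp : pres e (w x e)
      · simp only [hp, true_and, if_true, mul_one]
        rw [← card_filter]
        have h2 : (J.filter fun i => w x e ≠ w (flip i x) e) ⊆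
            (univ : Finset (Fin b)).biUnion fun j =>
              J.filter fun i => w (flip i x) e j ≠ w x e j := by
          intro i hi
          rw [mem_filter] at hi
          have h3 : ∃ j, w x e j ≠ w (flip i x) e j := by
            by_contra hcon
            push Not at hcon
            exact hi.2 (funext hcon)
          obtain ⟨j, hj⟩ := h3
          rw [mem_biUnion]
          exact ⟨j, mem_univ _, mem_filter.2 ⟨hi.1, Ne.symm hj⟩⟩
        refine (card_le_card h2).trans (card_biUnion_le.trans ?_)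
        refine (Finset.sum_le_card_nsmul univ _ s fun j _ => sens_le (hdt e j) J x).trans ?_
        rw [smul_eq_mul, card_univ, Fintype.card_fin, mul_comm]
      · simp [hp]
    refine (sum_le_sum fun p _ => h1 p).trans ?_
    rw [← mul_sum]
    unfold tot
    rw [card_filter]
  have hsum1 : ∑ x, ∑ i ∈ J, (chg pres (w x) (w (flip i x)) : ℝ) ≤
      s * b * ∑ x, (tot pres (w x) : ℝ) := by
    rw [mul_sum]
    refine sum_le_sum fun x _ => ?_
    have := hlost x
    have h2 : ((∑ i ∈ J, chg pres (w x) (w (flip i x)) : ℕ) : ℝ) ≤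
        ((s * b * tot pres (w x) : ℕ) : ℝ) := by exact_mod_cast this
    push_cast at h2
    linarith
  have hinv : ∀ (i : I) (f : (I → Bool) → ℝ), ∑ x, f (flip i x) = ∑ x, f x := by
    intro i f
    exact Fintype.sum_equiv ⟨flip i, flip i, flip_flip i, flip_flip i⟩ _ _ fun x => rfl
  have hsum2 : ∀ i ∈ J, γ / 2 * ∑ x, (tot pres (w x) : ℝ) ≤
      2 * ∑ x, (chg pres (w x) (w (flip i x)) : ℝ) := by
    intro i hi
    have h1 := sum_le_sum fun x (_ : x ∈ (univ : Finset (I → Bool))) => hpair i hi x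
    rw [sum_add_distrib] at h1
    have h2 : ∑ x, (chg pres (w (flip i x)) (w x) : ℝ) =
        ∑ x, (chg pres (w x) (w (flip i x)) : ℝ) := by
      rw [← hinv i fun x => (chg pres (w x) (w (flip i x)) : ℝ)]
      exact sum_congr rfl fun x _ => by rw [flip_flip]
    have h3 : ∑ x, γ * ((tot pres (w x) : ℝ) + tot pres (w (flip i x))) / 4 =
        γ / 2 * ∑ x, (tot pres (w x) : ℝ) := by
      rw [← sum_div, ← mul_sum, sum_add_distrib, hinv i fun x => (tot pres (w x) : ℝ)]
      ring
    rw [h2, h3] at h1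
    linarith
  have hsum3 := sum_le_sum hsum2
  rw [sum_const, nsmul_eq_mul, ← mul_sum, sum_comm] at hsum3
  have hdpos : 0 < ∑ x, (tot pres (w x) : ℝ) := by
    apply sum_pos
    · intro x _
      have := hpos x
      have h2 : 0 < tot pres (w x) := by omega
      exact_mod_cast h2
    · exact univ_nonempty
  have h4 : (γ * J.card) * ∑ x, (tot pres (w x) : ℝ) ≤
      (4 * (s * b)) * ∑ x, (tot pres (w x) : ℝ) := by
    nlinarith
  exact le_of_mul_le_mul_right h4 hdpos

/-- the parameters -/
theorem csp_core {N : ℕ} (C : Circuit (Fin N)) (out : Fin m → Fin b → Fin N ⊕ Fin C.size)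
    (h : ℕ) (hh : ∀ e j, C.nodeDepth (out e j) ≤ h) (hb : 1 ≤ b)
    (hpos : ∀ x, 1 ≤ tot pres (fun e j => C.nodeVal x (out e j))) (c t : ℝ) (ht : 0 ≤ t)
    (htc : t < c) (hc1 : c ≤ 1)
    (hyes : ∀ x, ¬ Odd (univ.filter fun i => x i = true).card →
      ∃ l, c * tot pres (fun e j => C.nodeVal x (out e j)) ≤
        good pres sat (fun e j => C.nodeVal x (out e j)) l)
    (hno : ∀ x, Odd (univ.filter fun i => x i = true).card →
      ∀ l, (good pres sat (fun e j => C.nodeVal x (out e j)) l : ℝ) ≤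
        t * tot pres (fun e j => C.nodeVal x (out e j)))
    {s : ℕ} (hs : 1 ≤ s) (hcond : h * C.size * (24 * s) ^ h ≤ 2 ^ s) :
    (c - t) * (N / b) ≤ (24 * s) ^ (h + 1) := by
  have hb0 : (0 : ℝ) < b := by exact_mod_cast hb
  have hs0 : (1 : ℝ) ≤ s := by exact_mod_cast hs
  rcases Nat.eq_zero_or_pos N with hN | hN
  · subst hN
    simp only [Nat.cast_zero, zero_div, mul_zero]
    positivity
  obtain ⟨ρ, hρ, hst⟩ := exists_restr C (by simpa using hN) hs h hcond
  rw [Fintype.card_fin] at hst
  obtain ⟨J, hJ⟩ : ∃ J : Finset (Fin N), J = univ.filter fun i => ρ i = none := ⟨_, rfl⟩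
  rw [← hJ] at hst
  have hcount := csp_count (pres := pres) (s := s)
    (fun x e j => C.nodeVal (ov ρ x) (out e j)) J (fun x => hpos _) (c - t)
    (fun e j => node_dt C hs hρ (out e j) (hh e j)) ?_
  · have hdiv : (c - t) * J.card / b ≤ 4 * s := by
      rw [div_le_iff₀ hb0]
      linarith
    have hg : 0 ≤ c - t := by linarith
    calc (c - t) * (N / b)
        ≤ (c - t) * ((4 * (24 * s) ^ h * J.card) / b) := by
          apply mul_le_mul_of_nonneg_left _ hg
          exact div_le_div_of_nonneg_right hst hb0.le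
      _ = 4 * (24 * s) ^ h * ((c - t) * J.card / b) := by ring
      _ ≤ 4 * (24 * s) ^ h * (4 * s) := mul_le_mul_of_nonneg_left hdiv (by positivity)
      _ ≤ (24 * s) ^ (h + 1) := by
        rw [pow_succ]
        have : (0 : ℝ) ≤ (24 * s) ^ h := by positivity
        nlinarith
  · intro i hi x
    rw [hJ, mem_filter] at hi
    show (c - t) * ((tot pres (fun e j => C.nodeVal (ov ρ x) (out e j)) : ℝ) +
      tot pres (fun e j => C.nodeVal (ov ρ (flip i x)) (out e j))) / 4 ≤
      (chg pres (fun e j => C.nodeVal (ov ρ x) (out e j))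
        (fun e j => C.nodeVal (ov ρ (flip i x)) (out e j)) : ℝ) +
      chg pres (fun e j => C.nodeVal (ov ρ (flip i x)) (out e j))
        (fun e j => C.nodeVal (ov ρ x) (out e j))
    rw [ov_flip ρ i hi.2]
    have hpar := odd_flip i (ov ρ x)
    by_cases hodd : Odd (univ.filter fun j => ov ρ x j = true).card
    · have hev : ¬ Odd (univ.filter fun j => flip i (ov ρ x) j = true).card := by
        rw [hpar]; exact not_not.2 hodd
      have h1 := csp_differ c t ht htc hc1 (hyes _ hev) (hno _ hodd)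
      linarith
    · have hod : Odd (univ.filter fun j => flip i (ov ρ x) j = true).card := hpar.2 hodd
      exact csp_differ c t ht htc hc1 (hyes _ hodd) (hno _ hod)

end

/-- reductions of small depth from parity to a constraint satisfaction problem with a gap must be
large -/
theorem csp_main (h : ℕ) : ∃ X0 : ℝ, ∀ {Λ : Type} {N m b : ℕ} (C : Circuit (Fin N))
    (out : Fin m → Fin b → Fin N ⊕ Fin C.size)
    (pres : Fin m → (Fin b → Bool) → Prop) (sat : Fin m → (Fin b → Bool) → Λ → Prop) (c t : ℝ),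
    (∀ e j, C.nodeDepth (out e j) ≤ h) → 1 ≤ b →
    (∀ x, 1 ≤ tot pres (fun e j => C.nodeVal x (out e j))) → 0 ≤ t → t < c → c ≤ 1 →
    (∀ x, ¬ Odd (univ.filter fun i => x i = true).card →
      ∃ l, c * tot pres (fun e j => C.nodeVal x (out e j)) ≤
        good pres sat (fun e j => C.nodeVal x (out e j)) l) →
    (∀ x, Odd (univ.filter fun i => x i = true).card →
      ∀ l, (good pres sat (fun e j => C.nodeVal x (out e j)) l : ℝ) ≤
        t * tot pres (fun e j => C.nodeVal x (out e j))) →
    X0 ≤ (c - t) * (N / b) →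
    (2 : ℝ) ^ (((c - t) * (N / b)) ^ (1 / (h + 1 : ℝ)) / 100) ≤ C.size := by
  obtain ⟨Y0, hY48, hY0⟩ := exists_large h
  refine ⟨Y0 ^ (h + 1), ?_⟩
  intro Λ N m b C out pres sat c t hh hb hpos ht htc hc1 hyes hno hX
  obtain ⟨X, hXd⟩ : ∃ X : ℝ, X = (c - t) * (N / b) := ⟨_, rfl⟩
  rw [← hXd] at hX ⊢
  obtain ⟨Y, hYd⟩ : ∃ Y : ℝ, Y = X ^ (1 / (h + 1 : ℝ)) := ⟨_, rfl⟩
  rw [← hYd]
  have hY00 : (0 : ℝ) ≤ Y0 := by linarith
  have hXpos : 0 ≤ X := le_trans (by positivity) hX
  have hYX : Y ^ (h + 1) = X := by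
    rw [hYd, ← Real.rpow_natCast, ← Real.rpow_mul hXpos]
    push_cast
    rw [one_div, inv_mul_cancel₀ (by positivity), Real.rpow_one]
  have hYn : 0 ≤ Y := by rw [hYd]; exact Real.rpow_nonneg hXpos _
  have hYY : Y0 ≤ Y := by
    by_contra hcon
    push Not at hcon
    have := pow_lt_pow_left₀ hcon hYn (Nat.succ_ne_zero h)
    rw [Nat.succ_eq_add_one, hYX] at this
    linarith
  have hY := hY0 Y hYY
  by_contra hcon
  push Not at hcon
  -- the depth of the decision trees
  obtain ⟨s, hs⟩ : ∃ s : ℕ, s = ⌈Y / 24⌉₊ - 1 := ⟨_, rfl⟩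
  have hc1' : Y / 24 ≤ ⌈Y / 24⌉₊ := Nat.le_ceil _
  have hc2 : (⌈Y / 24⌉₊ : ℝ) < Y / 24 + 1 := Nat.ceil_lt_add_one (by positivity)
  have hc3 : 2 ≤ ⌈Y / 24⌉₊ := by
    have : (2 : ℝ) ≤ ⌈Y / 24⌉₊ := le_trans (by linarith) hc1'
    exact_mod_cast this
  have hs1 : 1 ≤ s := by omega
  have hsr : (s : ℝ) = ⌈Y / 24⌉₊ - 1 := by
    rw [hs, Nat.cast_sub (by omega), Nat.cast_one]
  have hs2 : 24 * (s : ℝ) < Y := by rw [hsr]; linarith
  have hs3 : Y / 24 - 1 ≤ s := by rw [hsr]; linarith
  have hlt : (24 * (s : ℝ)) ^ (h + 1) < X := by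
    rw [← hYX]
    exact pow_lt_pow_left₀ hs2 (by positivity) (Nat.succ_ne_zero h)
  have hcond : h * C.size * (24 * s) ^ h ≤ 2 ^ s := by
    have h1 : ((h * C.size * (24 * s) ^ h : ℕ) : ℝ) ≤ ((2 ^ s : ℕ) : ℝ) := by
      push_cast
      calc (h : ℝ) * C.size * (24 * s) ^ h ≤ h * 2 ^ (Y / 100) * Y ^ h := by
            apply mul_le_mul _ (pow_le_pow_left₀ (by positivity) hs2.le h) (by positivity)
              (by positivity)
            exact mul_le_mul_of_nonneg_left hcon.le (Nat.cast_nonneg _)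
        _ = h * Y ^ h * 2 ^ (Y / 100) := by ring
        _ ≤ 2 ^ (Y / 24 - 1) := hY
        _ ≤ (2 : ℝ) ^ (s : ℝ) := Real.rpow_le_rpow_of_exponent_le (by norm_num) hs3
        _ = 2 ^ s := Real.rpow_natCast _ _
    exact_mod_cast h1
  have hcore := csp_core (pres := pres) (sat := sat) C out h hh hb hpos c t ht htc hc1 hyes hno
    hs1 hcond
  rw [← hXd] at hcore
  linarith

end Pool.Agent.Y601.SSE
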