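import Pool.Agent.Y601.SSE.Kernel

set_option autoImplicit false
set_option linter.unusedSectionVars false

/-!
Decay of the return probabilities of a substochastic kernel with small density of small sets.
-/

namespace Pool.Agent.Y601.SSE

open Finset

section

variable {V : Type} [Fintype V] [DecidableEq V]

/-- the bilinear form of the kernel on functions of small support -/
theorem bil {K : V → V → ℝ} (hK : Ker K) (s : ℝ) (hs : 0 ≤ s) (hs1 : 2 * s ^ 2 ≤ 1)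
    (A0 : Finset V) (hden : ∀ A ⊆ A0, ∑ u ∈ A, ∑ v ∈ A, K u v ≤ 2 * s ^ 2 * A.card)
    (f g : V → ℝ) (hf : ∀ i, 0 ≤ f i) (hg : ∀ i, 0 ≤ g i)
    (hf0 : ∀ i, i ∉ A0 → f i = 0) (hg0 : ∀ i, i ∉ A0 → g i = 0) :
    ∑ u, ∑ v, K u v * (f u * g v) ≤ 2 * s * (∑ u, f u ^ 2 + ∑ u, g u ^ 2) := by
  have h1 := quad hK (2 * s ^ 2) (by positivity) hs1 A0 hden (fun i => f i + g i)
    (fun i => add_nonneg (hf i) (hg i)) (fun i hi => by rw [hf0 i hi, hg0 i hi]; ring)
  have hH0 : 0 ≤ ∑ u, (f u + g u) ^ 2 := sum_nonneg fun i _ => sq_nonneg _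
  have h2 : ∑ u, ∑ v, K u v * ((f u + g u) * (f v + g v)) ≤ 2 * s * ∑ u, (f u + g u) ^ 2 := by
    refine abs_le_of_sq_le_sq' ?_ (by positivity) |>.2
    calc _ ≤ _ := h1
      _ = _ := by ring
  have h3 : ∑ u, (f u + g u) ^ 2 ≤ 2 * (∑ u, f u ^ 2 + ∑ u, g u ^ 2) := by
    rw [← sum_add_distrib, mul_sum]
    exact sum_le_sum fun i _ => by nlinarith [sq_nonneg (f i - g i)]
  have h4 : 2 * ∑ u, ∑ v, K u v * (f u * g v) ≤
      ∑ u, ∑ v, K u v * ((f u + g u) * (f v + g v)) := by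
    have e1 : ∑ u, ∑ v, K u v * (g u * f v) = ∑ u, ∑ v, K u v * (f u * g v) := by
      rw [sum_comm]
      refine sum_congr rfl fun u _ => sum_congr rfl fun v _ => ?_
      rw [hK.symm v u]
      ring
    have e2 : 2 * ∑ u, ∑ v, K u v * (f u * g v) =
        ∑ u, ∑ v, (K u v * (f u * g v) + K u v * (g u * f v)) := by
      rw [two_mul]
      nth_rewrite 2 [← e1]
      rw [← sum_add_distrib]
      exact sum_congr rfl fun u _ => by rw [← sum_add_distrib]
    rw [e2]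
    refine sum_le_sum fun u _ => sum_le_sum fun v _ => ?_
    have h5 := mul_nonneg (hK.nonneg u v) (mul_nonneg (hf u) (hf v))
    have h6 := mul_nonneg (hK.nonneg u v) (mul_nonneg (hg u) (hg v))
    nlinarith
  have h5 : 2 * s * ∑ u, (f u + g u) ^ 2 ≤ 2 * s * (2 * (∑ u, f u ^ 2 + ∑ u, g u ^ 2)) :=
    mul_le_mul_of_nonneg_left h3 (by positivity)
  linarith

/-- Markov's inequality -/
theorem markov (f : V → ℝ) (hf : ∀ i, 0 ≤ f i) (h1 : ∑ i, f i ≤ 1) (c : ℝ) (hc : 0 < c) :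
    ((univ.filter fun i => c < f i).card : ℝ) ≤ 1 / c := by
  rw [le_div_iff₀ hc]
  calc ((univ.filter fun i => c < f i).card : ℝ) * c = ∑ i ∈ univ.filter (fun i => c < f i), c := by
        rw [sum_const, nsmul_eq_mul]
    _ ≤ ∑ i ∈ univ.filter (fun i => c < f i), f i := sum_le_sum fun i hi => by
        rw [mem_filter] at hi
        exact hi.2.le
    _ ≤ ∑ i, f i := sum_le_sum_of_subset_of_nonneg (filter_subset _ _) fun i _ _ => hf i
    _ ≤ 1 := h1

/-- one step -/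
theorem step {K : V → V → ℝ} (hK : Ker K) (k s : ℝ) (hk : 0 < k) (hs : 0 < s)
    (hs1 : 2 * s ^ 2 ≤ 1)
    (hden : ∀ A : Finset V, 2 * (A.card : ℝ) ≤ k →
      ∑ u ∈ A, ∑ v ∈ A, K u v ≤ 2 * s ^ 2 * A.card)
    (f : V → ℝ) (hf : ∀ i, 0 ≤ f i) (hf1 : ∑ i, f i ≤ 1) :
    ∑ u, (∑ v, K u v * f v) ^ 2 ≤ 16 * s ^ 2 * ∑ u, f u ^ 2 + 16 / k := by
  obtain ⟨g, hgd⟩ : ∃ g : V → ℝ, g = fun u => ∑ v, K u v * f v := ⟨_, rfl⟩
  have hg : ∀ i, 0 ≤ g i := fun i => by
    rw [hgd]; exact sum_nonneg fun v _ => mul_nonneg (hK.nonneg _ _) (hf _)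
  have hg1 : ∑ i, g i ≤ 1 := by
    have e1 : ∑ i, g i = ∑ v, (∑ u, K v u) * f v := by
      rw [hgd, sum_comm]
      refine sum_congr rfl fun v _ => ?_
      rw [sum_mul]
      exact sum_congr rfl fun u _ => by rw [hK.symm u v]
    rw [e1]
    refine le_trans (sum_le_sum fun v _ => ?_) hf1
    have := mul_le_mul_of_nonneg_right (hK.row v) (hf v)
    linarith
  obtain ⟨c, hcd⟩ : ∃ c : ℝ, c = 4 / k := ⟨_, rfl⟩
  have hc : 0 < c := by rw [hcd]; positivity
  have hck : 1 / c = k / 4 := by rw [hcd]; field_simp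
  obtain ⟨f1, hf1d⟩ : ∃ f1 : V → ℝ, f1 = fun i => max (f i - c) 0 := ⟨_, rfl⟩
  obtain ⟨g1, hg1d⟩ : ∃ g1 : V → ℝ, g1 = fun i => max (g i - c) 0 := ⟨_, rfl⟩
  have hf10 : ∀ i, 0 ≤ f1 i := fun i => by rw [hf1d]; exact le_max_right _ _
  have hg10 : ∀ i, 0 ≤ g1 i := fun i => by rw [hg1d]; exact le_max_right _ _
  have hff1 : ∀ i, f i ≤ f1 i + c := fun i => by
    rw [hf1d]
    have := le_max_left (f i - c) 0
    linarith
  have hgg1 : ∀ i, g i ≤ g1 i + c := fun i => by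
    rw [hg1d]
    have := le_max_left (g i - c) 0
    linarith
  have hf1f : ∀ i, f1 i ≤ f i := fun i => by
    rw [hf1d]
    exact max_le (by linarith) (hf i)
  have hg1g : ∀ i, g1 i ≤ g i := fun i => by
    rw [hg1d]
    exact max_le (by linarith) (hg i)
  obtain ⟨A0, hA0⟩ : ∃ A0 : Finset V, A0 = (univ.filter fun i => c < f i) ∪
    (univ.filter fun i => c < g i) := ⟨_, rfl⟩
  have hA0c : 2 * (A0.card : ℝ) ≤ k := by
    have h1 := markov f hf hf1 c hc
    have h2 := markov g hg hg1 c hc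
    have h3 : (A0.card : ℝ) ≤ (univ.filter fun i => c < f i).card +
        (univ.filter fun i => c < g i).card := by
      rw [hA0]; exact_mod_cast card_union_le _ _
    rw [hck] at h1 h2
    linarith
  have hf1s : ∀ i, i ∉ A0 → f1 i = 0 := by
    intro i hi
    rw [hA0, mem_union, mem_filter, mem_filter] at hi
    push Not at hi
    have h1 : f i ≤ c := hi.1 (mem_univ _)
    rw [hf1d]
    exact max_eq_right (by linarith)
  have hg1s : ∀ i, i ∉ A0 → g1 i = 0 := by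
    intro i hi
    rw [hA0, mem_union, mem_filter, mem_filter] at hi
    push Not at hi
    have h1 : g i ≤ c := hi.2 (mem_univ _)
    rw [hg1d]
    exact max_eq_right (by linarith)
  obtain ⟨a, had⟩ : ∃ a : ℝ, a = 2 * Real.sqrt s := ⟨_, rfl⟩
  have ha : 0 < a := by rw [had]; positivity
  have ha2 : a ^ 2 = 4 * s := by
    rw [had, mul_pow, Real.sq_sqrt hs.le]; ring
  have h1 := bil hK s hs.le hs1 A0 (fun A hA => hden A (by
    have : (A.card : ℝ) ≤ A0.card := by exact_mod_cast card_le_card hA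
    linarith)) (fun i => a * f1 i) (fun i => g1 i / a) (fun i => mul_nonneg ha.le (hf10 i))
    (fun i => div_nonneg (hg10 i) ha.le) (fun i hi => by rw [hf1s i hi]; ring)
    (fun i hi => by rw [hg1s i hi]; simp)
  have h2 : ∑ u, ∑ v, K u v * (a * f1 u * (g1 v / a)) = ∑ u, ∑ v, K u v * (f1 u * g1 v) := by
    refine sum_congr rfl fun u _ => sum_congr rfl fun v _ => ?_
    field_simp
  have h3 : ∑ u, (a * f1 u) ^ 2 = 4 * s * ∑ u, f1 u ^ 2 := by
    rw [mul_sum]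
    exact sum_congr rfl fun u _ => by rw [mul_pow, ha2]
  have h4 : ∑ u, (g1 u / a) ^ 2 = (∑ u, g1 u ^ 2) / (4 * s) := by
    rw [sum_div]
    exact sum_congr rfl fun u _ => by rw [div_pow, ha2]
  rw [h2, h3, h4] at h1
  have h5 : ∑ u, f1 u ^ 2 ≤ ∑ u, f u ^ 2 := sum_le_sum fun i _ =>
    pow_le_pow_left₀ (hf10 i) (hf1f i) 2
  have h6 : ∑ u, g1 u ^ 2 ≤ ∑ u, g u ^ 2 := sum_le_sum fun i _ =>
    pow_le_pow_left₀ (hg10 i) (hg1g i) 2
  -- truncation
  have h7 : ∑ u, g u ^ 2 ≤ ∑ u, ∑ v, K u v * (f1 u * g1 v) + 2 * c := by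
    have e1 : ∑ u, g u ^ 2 = ∑ u, ∑ v, K u v * (f u * g v) := by
      have : ∀ u, g u ^ 2 = ∑ v, K u v * (f v * g u) := by
        intro u
        have e0 : g u = ∑ v, K u v * f v := by rw [hgd]
        rw [sq]
        nth_rewrite 1 [e0]
        rw [sum_mul]
        exact sum_congr rfl fun v _ => by ring
      simp_rw [this]
      rw [sum_comm]
      refine sum_congr rfl fun u _ => sum_congr rfl fun v _ => ?_
      rw [hK.symm v u]
    have e2 : ∑ u, ∑ v, K u v * (f u * g v) ≤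
        ∑ u, ∑ v, (K u v * (f1 u * g1 v) + c * (K u v * f1 u) + c * (K u v * g v)) := by
      refine sum_le_sum fun u _ => sum_le_sum fun v _ => ?_
      have i1 : f u * g v ≤ (f1 u + c) * g v := mul_le_mul_of_nonneg_right (hff1 u) (hg v)
      have i2 : f1 u * g v ≤ f1 u * (g1 v + c) := mul_le_mul_of_nonneg_left (hgg1 v) (hf10 u)
      have i3 : f u * g v ≤ f1 u * g1 v + c * f1 u + c * g v := by nlinarith
      have i4 := mul_le_mul_of_nonneg_left i3 (hK.nonneg u v)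
      linarith
    have e3 : ∑ u, ∑ v, (K u v * (f1 u * g1 v) + c * (K u v * f1 u) + c * (K u v * g v)) =
        ∑ u, ∑ v, K u v * (f1 u * g1 v) + c * (∑ u, (∑ v, K u v) * f1 u) +
          c * ∑ v, (∑ u, K v u) * g v := by
      simp only [sum_add_distrib, ← mul_sum]
      congr 1
      · congr 2
        exact sum_congr rfl fun u _ => by rw [sum_mul]
      · congr 1
        rw [sum_comm]
        refine sum_congr rfl fun v _ => ?_
        rw [sum_mul]
        exact sum_congr rfl fun u _ => by rw [hK.symm u v]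
    have e4 : ∑ u, (∑ v, K u v) * f1 u ≤ 1 := by
      refine le_trans (sum_le_sum fun u _ => ?_) hf1
      have i1 := mul_le_mul_of_nonneg_right (hK.row u) (hf10 u)
      linarith [hf1f u]
    have e5 : ∑ v, (∑ u, K v u) * g v ≤ 1 := by
      refine le_trans (sum_le_sum fun u _ => ?_) hg1
      have i1 := mul_le_mul_of_nonneg_right (hK.row u) (hg u)
      linarith
    have e6 := mul_le_mul_of_nonneg_left e4 hc.le
    have e7 := mul_le_mul_of_nonneg_left e5 hc.le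
    rw [e1]
    refine e2.trans ?_
    rw [e3]
    linarith
  have h8 : ∑ u, (∑ v, K u v * f v) ^ 2 = ∑ u, g u ^ 2 := by rw [hgd]
  rw [h8]
  obtain ⟨Y, hY⟩ : ∃ Y, Y = ∑ u, f u ^ 2 := ⟨_, rfl⟩
  obtain ⟨X, hX⟩ : ∃ X, X = ∑ u, g u ^ 2 := ⟨_, rfl⟩
  obtain ⟨Y1, hY1⟩ : ∃ Y, Y = ∑ u, f1 u ^ 2 := ⟨_, rfl⟩
  obtain ⟨X1, hX1⟩ : ∃ X, X = ∑ u, g1 u ^ 2 := ⟨_, rfl⟩
  rw [← hY, ← hX]
  rw [← hY1, ← hX1] at h1
  rw [← hY1, ← hY] at h5
  rw [← hX1, ← hX] at h6
  rw [← hX] at h7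
  have h9 : 2 * s * (4 * s * Y1 + X1 / (4 * s)) = 8 * s ^ 2 * Y1 + X1 / 2 := by
    field_simp
    ring
  rw [h9] at h1
  have h10 : 8 * s ^ 2 * Y1 ≤ 8 * s ^ 2 * Y := mul_le_mul_of_nonneg_left h5 (by positivity)
  have h11 : 16 / k = 4 * c := by rw [hcd]; ring
  rw [h11]
  linarith

/-- decay of the squared norm of the powers of the kernel -/
theorem decay {K : V → V → ℝ} (hK : Ker K) (k s : ℝ) (hk : 0 < k) (hs : 0 < s)
    (hs1 : 64 * s ^ 2 ≤ 1)
    (hden : ∀ A : Finset V, 2 * (A.card : ℝ) ≤ k →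
      ∑ u ∈ A, ∑ v ∈ A, K u v ≤ 2 * s ^ 2 * A.card) (v : V) (t : ℕ) :
    (∀ u, 0 ≤ ((Matrix.of K) ^ t) u v) ∧ ∑ u, ((Matrix.of K) ^ t) u v ≤ 1 ∧
      ∑ u, (((Matrix.of K) ^ t) u v) ^ 2 ≤ (16 * s ^ 2) ^ t + 22 / k := by
  induction t with
  | zero =>
    refine ⟨fun u => ?_, ?_, ?_⟩
    · rw [pow_zero, Matrix.one_apply]
      split_ifs <;> norm_num
    · simp [Matrix.one_apply]
    · have h1 : ∑ u, (((Matrix.of K) ^ 0) u v) ^ 2 = 1 := by
        simp [Matrix.one_apply]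
      rw [h1, pow_zero]
      have : 0 ≤ 22 / k := by positivity
      linarith
  | succ t ih =>
    obtain ⟨h0, h1, h2⟩ := ih
    have e1 : ∀ u, ((Matrix.of K) ^ (t + 1)) u v = ∑ w, K u w * ((Matrix.of K) ^ t) w v := by
      intro u
      rw [pow_succ', Matrix.mul_apply]
      rfl
    refine ⟨fun u => ?_, ?_, ?_⟩
    · rw [e1]
      exact sum_nonneg fun w _ => mul_nonneg (hK.nonneg _ _) (h0 w)
    · simp_rw [e1]
      rw [sum_comm]
      refine le_trans (sum_le_sum fun w _ => ?_) h1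
      rw [← sum_mul]
      have e2 : ∑ u, K u w = ∑ u, K w u := sum_congr rfl fun u _ => hK.symm u w
      rw [e2]
      have := mul_le_mul_of_nonneg_right (hK.row w) (h0 w)
      linarith
    · simp_rw [e1]
      have h3 := step hK k s hk hs (by nlinarith) hden (fun w => ((Matrix.of K) ^ t) w v) h0 h1
      refine h3.trans ?_
      have h4 := mul_le_mul_of_nonneg_left h2 (show 0 ≤ 16 * s ^ 2 by positivity)
      have h5 : 16 * s ^ 2 * (22 / k) ≤ 1 / 4 * (22 / k) :=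
        mul_le_mul_of_nonneg_right (by linarith) (by positivity)
      have h6 : 1 / 4 * (22 / k) + 16 / k ≤ 22 / k := by
        rw [mul_div, ← add_div]
        exact div_le_div_of_nonneg_right (by norm_num) hk.le
      have h7 : (16 * s ^ 2) ^ (t + 1) = 16 * s ^ 2 * (16 * s ^ 2) ^ t := pow_succ' _ _
      rw [h7]
      linarith

/-- the Frobenius norm of the powers -/
theorem frob {K : V → V → ℝ} (hK : Ker K) (k s : ℝ) (hk : 0 < k) (hs : 0 < s)
    (hs1 : 64 * s ^ 2 ≤ 1)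
    (hden : ∀ A : Finset V, 2 * (A.card : ℝ) ≤ k →
      ∑ u ∈ A, ∑ v ∈ A, K u v ≤ 2 * s ^ 2 * A.card) (t : ℕ) :
    ∑ u, ∑ v, (((Matrix.of K) ^ t) u v) ^ 2 ≤
      (Fintype.card V : ℝ) * ((16 * s ^ 2) ^ t + 22 / k) := by
  rw [sum_comm]
  calc _ ≤ ∑ _v : V, ((16 * s ^ 2) ^ t + 22 / k) :=
        sum_le_sum fun v _ => (decay hK k s hk hs hs1 hden v t).2.2
    _ = _ := by rw [sum_const, card_univ, nsmul_eq_mul]

end

end Pool.Agent.Y601.SSE
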