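import Mathlib

set_option autoImplicit false

/-!
Small-set expansion and the mixed hierarchy: definitions.
-/

namespace Pool.Agent.Y601.SSE

open Finset
open scoped Classical

section

variable {V : Type} [Fintype V]

/-- the number of edges leaving `S` -/
noncomputable def cut (G : SimpleGraph V) (S : Finset V) : ℕ :=
  (univ.filter fun p : V × V => p.1 ∈ S ∧ p.2 ∉ S ∧ G.Adj p.1 p.2).card

/-- the set with indicator `x` -/
def setOf (x : V → Bool) : Finset V := univ.filter fun v => x v = true

/-- `f` depends only on the values at `S` -/
def DependsOn (S : Finset V) (f : (V → Bool) → ℝ) : Prop :=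
  ∀ x y : V → Bool, (∀ v ∈ S, x v = y v) → f x = f y

/-- Solutions of the level `r` relaxation: linear functionals on the functions of `x ∈ {0,1}^V`
with value `1` at the constant `1`, which are nonnegative at all nonnegative functions of at most
`r + 2` of the coordinates and at all products of a nonnegative function of at most `r` of the
coordinates and the square of a sum of functions of one coordinate, which respect the equation
`|S| = k` multiplied by any function of at most `r` coordinates, and give the set at most `η d k`
boundary edges. -/
structure IsSolution (G : SimpleGraph V) (d k r : ℕ) (η : ℝ)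
    (L : ((V → Bool) → ℝ) →ₗ[ℝ] ℝ) : Prop where
  one : L (fun _ => 1) = 1
  nonneg : ∀ S : Finset V, S.card ≤ r + 2 → ∀ f, DependsOn S f → (∀ x, 0 ≤ f x) → 0 ≤ L f
  psd : ∀ S : Finset V, S.card ≤ r → ∀ g, DependsOn S g → (∀ x, 0 ≤ g x) →
    ∀ c : V → Bool → ℝ, 0 ≤ L (fun x => g x * (∑ v, c v (x v)) ^ 2)
  size : ∀ S : Finset V, S.card ≤ r → ∀ g, DependsOn S g →
    L (fun x => g x * ((setOf x).card : ℝ)) = k * L g
  boundary : L (fun x => (cut G (setOf x) : ℝ)) ≤ η * (d * k)

end

end Pool.Agent.Y601.SSE
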