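import Pool.Agent.H568R2.Defs

set_option autoImplicit false

/-!
Label cover games given by lists of edges, and the game computed by a circuit.
-/

namespace Pool.Agent.Y601.SSE.Games

open Finset DomAC0
open scoped Classical

variable {U V A B : Type} {m : ℕ}

/-- The number of edges of a game which is given by a list of `m` entries, some of which may be
empty (`none`). An edge consists of a vertex in `U`, a vertex in `V` and a map from the labels `A`
of the vertices in `U` to the labels `B` of the vertices in `V`. -/
noncomputable def numEdges (g : Fin m → Option (U × V × (A → B))) : ℕ :=
  (univ.filter fun e => g e ≠ none).card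

/-- The number of edges `(u, v, π)` with `π (M u) = L v`, that is, of those satisfied by the
labels `M` of the vertices in `U` and `L` of the vertices in `V`. -/
noncomputable def numSat (g : Fin m → Option (U × V × (A → B))) (M : U → A) (L : V → B) : ℕ :=
  (univ.filter fun e => ∃ u v π, g e = some (u, v, π) ∧ π (M u) = L v).card

/-- The game computed by the circuit `C` on the input `x`: entry `e` of the list is obtained from
the values of the `b` nodes `out e 1, ..., out e b` by the decoding map `dec e`. -/
noncomputable def game {N b : ℕ} (C : Circuit (Fin N)) (out : Fin m → Fin b → Fin N ⊕ Fin C.size)
    (dec : Fin m → (Fin b → Bool) → Option (U × V × (A → B))) (x : Fin N → Bool) (e : Fin m) :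
    Option (U × V × (A → B)) :=
  dec e fun j => C.nodeVal x (out e j)

end Pool.Agent.Y601.SSE.Games
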