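import Pool.Agent.Y601.SSE.Csp
import Pool.Agent.Y601.SSE.GameDefs

set_option autoImplicit false

/-!
Reductions of small depth from parity to unique games and `d`-to-1 games.
-/

namespace Pool.Agent.Y601.SSE.Games

open Finset DomAC0
open scoped Classical

theorem games_main (h : ℕ) : ∃ X₀ : ℝ, ∀ (N m b : ℕ) (C : Circuit (Fin N)) (U V A B : Type)
    (out : Fin m → Fin b → Fin N ⊕ Fin C.size)
    (dec : Fin m → (Fin b → Bool) → Option (U × V × (A → B))) (c t : ℝ),
    (∀ e j, C.nodeDepth (out e j) ≤ h) → 1 ≤ b →
    (∀ x, 1 ≤ numEdges (game C out dec x)) → 0 ≤ t → t < c → c ≤ 1 →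
    (∀ x, ¬ Odd (univ.filter fun i => x i = true).card →
      ∃ M L, c * numEdges (game C out dec x) ≤ numSat (game C out dec x) M L) →
    (∀ x, Odd (univ.filter fun i => x i = true).card →
      ∀ M L, (numSat (game C out dec x) M L : ℝ) ≤ t * numEdges (game C out dec x)) →
    X₀ ≤ (c - t) * (N / b) →
    (2 : ℝ) ^ (((c - t) * (N / b)) ^ (1 / (h + 1 : ℝ)) / 100) ≤ C.size := by
  obtain ⟨X₀, hX⟩ := csp_main h
  refine ⟨X₀, ?_⟩
  intro N m b C U V A B out dec c t hh hb hpos ht htc hc1 hyes hno hX0
  obtain ⟨pres, hpres⟩ : ∃ pres : Fin m → (Fin b → Bool) → Prop,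
      pres = fun e w => dec e w ≠ none := ⟨_, rfl⟩
  obtain ⟨sat, hsat⟩ : ∃ sat : Fin m → (Fin b → Bool) → (U → A) × (V → B) → Prop,
      sat = fun e w l => ∃ u v π, dec e w = some (u, v, π) ∧ π (l.1 u) = l.2 v := ⟨_, rfl⟩
  have htot : ∀ x, tot pres (fun e j => C.nodeVal x (out e j)) = numEdges (game C out dec x) := by
    intro x
    unfold tot numEdges
    congr 1
    ext e
    simp only [mem_filter, mem_univ, true_and, hpres]
    exact Iff.rfl
  have hgood : ∀ x M L, good pres sat (fun e j => C.nodeVal x (out e j)) (M, L) =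
      numSat (game C out dec x) M L := by
    intro x M L
    unfold good numSat
    congr 1
    ext e
    simp only [mem_filter, mem_univ, true_and, hpres, hsat]
    constructor
    · rintro ⟨_, h2⟩
      exact h2
    · rintro ⟨u, v, π, h1, h2⟩
      exact ⟨fun h3 => by
        have h4 : dec e (fun j => C.nodeVal x (out e j)) = some (u, v, π) := h1
        rw [h3] at h4
        exact absurd h4 (by simp), u, v, π, h1, h2⟩
  refine hX C out pres sat c t hh hb (fun x => by rw [htot]; exact hpos x) ht htc hc1
    (fun x hx => ?_) (fun x hx l => ?_) hX0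
  · obtain ⟨M, L, hML⟩ := hyes x hx
    exact ⟨(M, L), by rw [htot, hgood]; exact hML⟩
  · obtain ⟨M, L⟩ := l
    rw [htot, hgood]
    exact hno x hx M L

section

variable {U V A B : Type} {m : ℕ} {g : Fin m → Option (U × V × (A → B))}

theorem numSat_full {M : U → A} {L : V → B}
    (h : ∀ e, ∃ u v π, g e = some (u, v, π) ∧ π (M u) = L v) : numSat g M L = m := by
  unfold numSat
  rw [filter_true_of_mem fun e _ => h e]
  simp

theorem of_numSat {M : U → A} {L : V → B} (h : m ≤ numSat g M L) (e : Fin m) :
    ∃ u v π, g e = some (u, v, π) ∧ π (M u) = L v := by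
  unfold numSat at h
  have h1 : (univ : Finset (Fin m)).card = m := by simp
  exact (filter_card_eq (le_antisymm (card_filter_le _ _) (by rw [h1]; exact h))) e (mem_univ _)

theorem numEdges_full (h : ∀ e, g e ≠ none) : numEdges g = m := by
  unfold numEdges
  rw [filter_true_of_mem fun e _ => h e]
  simp

end

/-- the circuit without gates -/
noncomputable def noGates (N : ℕ) (i : Fin N) : Circuit (Fin N) where
  size := 0
  kind := fun g => g.elim0
  preds := fun g => g.elim0
  acyclic := fun g => g.elim0
  unary := fun g => g.elim0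
  output := Sum.inl i

/-- the labels along the cycle -/
theorem exists_labels (n : ℕ) (y : Fin (n + 1) → ZMod 2) (hy : ∑ i, y i = 0) :
    ∃ L : Fin (n + 1) → ZMod 2, ∀ i, L (finRotate (n + 1) i) = L i + y i := by
  refine ⟨fun i => ∑ j ∈ univ.filter (fun j => j < i), y j, fun i => ?_⟩
  rw [finRotate_succ_apply]
  beta_reduce
  by_cases hi : i = Fin.last n
  · subst hi
    have h1 : (Fin.last n + 1 : Fin (n + 1)) = 0 := Fin.last_add_one n
    rw [h1]
    have h2 : (univ.filter fun j : Fin (n + 1) => j < 0) = ∅ := by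
      apply filter_eq_empty_iff.2
      intro j _ hj
      exact absurd hj (Fin.not_lt_zero j)
    rw [h2, sum_empty]
    have h3 : (univ : Finset (Fin (n + 1))) =
        insert (Fin.last n) (univ.filter fun j => j < Fin.last n) := by
      ext j
      simp only [mem_univ, mem_insert, mem_filter, true_and, true_iff]
      rcases (Fin.le_last j).lt_or_eq with h | h
      · exact Or.inr h
      · exact Or.inl h
    rw [h3, sum_insert (by simp)] at hy
    rw [← hy, add_comm]
  · have h1 : i < Fin.last n := lt_of_le_of_ne (Fin.le_last i) hi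
    have h2 : (univ.filter fun j : Fin (n + 1) => j < i + 1) =
        insert i (univ.filter fun j => j < i) := by
      ext j
      simp only [mem_univ, mem_insert, mem_filter, true_and]
      have h3 : (i + 1 : Fin (n + 1)).val = i.val + 1 := Fin.val_add_one_of_lt h1
      rw [Fin.lt_def, h3, Fin.lt_def, Fin.ext_iff]
      omega
    rw [h2, sum_insert (by simp), add_comm]

/-- Parity of `n + 1` bits as a label cover game on a cycle. -/
theorem cycle_game (n : ℕ) {A : Type} (f : A → ZMod 2) (hf : Function.Surjective f) :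
    ∃ (C : Circuit (Fin (n + 1))) (out : Fin ((n + 1) * 2) → Fin 1 → Fin (n + 1) ⊕ Fin C.size)
      (dec : Fin ((n + 1) * 2) → (Fin 1 → Bool) →
        Option (Fin (n + 1) × Fin (n + 1) × (A → ZMod 2))),
      C.size = 0 ∧ (∀ e j, C.nodeDepth (out e j) = 0) ∧
      (∀ e w u v π, dec e w = some (u, v, π) → ∃ a, ∀ z, π z = f z + a) ∧
      (∀ x, numEdges (game C out dec x) = (n + 1) * 2) ∧
      (∀ x, ¬ Odd (univ.filter fun i => x i = true).card →
        ∃ M L, numSat (game C out dec x) M L = (n + 1) * 2) ∧
      (∀ x, Odd (univ.filter fun i => x i = true).card →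
        ∀ M L, numSat (game C out dec x) M L < (n + 1) * 2) := by
  refine ⟨noGates (n + 1) 0, fun e _ => Sum.inl (finProdFinEquiv.symm e).1,
    fun e w => some ((finProdFinEquiv.symm e).1,
      if (finProdFinEquiv.symm e).2 = 0 then (finProdFinEquiv.symm e).1
        else finRotate (n + 1) (finProdFinEquiv.symm e).1,
      fun z => f z + if (finProdFinEquiv.symm e).2 = 0 then 0 else if w 0 = true then 1 else 0),
    rfl, fun e j => ?_, ?_, fun x => ?_, fun x hx => ?_, fun x hx M L => ?_⟩
  · simp [Circuit.nodeDepth]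
  · intro e w u v π h
    simp only [Option.some.injEq, Prod.mk.injEq] at h
    obtain ⟨_, _, rfl⟩ := h
    exact ⟨_, fun z => rfl⟩
  · exact numEdges_full fun e => by simp [game]
  · have hy : ∑ i, (if x i = true then (1 : ZMod 2) else 0) = 0 := by
      rw [sum_boole]
      rw [Nat.not_odd_iff_even] at hx
      exact (ZMod.natCast_eq_zero_iff_even).2 hx
    obtain ⟨L, hL⟩ := exists_labels n _ hy
    choose s hs using hf
    refine ⟨fun i => s (L i), L, numSat_full fun e => ⟨_, _, _, rfl, ?_⟩⟩
    by_cases h : (finProdFinEquiv.symm e).2 = 0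
    · simp only [h, if_true, hs, add_zero]
    · simp only [h, if_false, hs]
      rw [hL]
      rfl
  · by_contra hcon
    push Not at hcon
    have h2 := of_numSat hcon
    have h3 : ∀ i : Fin (n + 1), f (M i) = L i := by
      intro i
      obtain ⟨u, v, π, h4, h5⟩ := h2 (finProdFinEquiv (i, 0))
      simp only [game, Equiv.symm_apply_apply, if_true, Option.some.injEq, Prod.mk.injEq] at h4
      obtain ⟨rfl, rfl, rfl⟩ := h4
      simpa using h5
    have h6 : ∀ i : Fin (n + 1), L (finRotate (n + 1) i) =
        L i + if x i = true then 1 else 0 := by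
      intro i
      obtain ⟨u, v, π, h4, h5⟩ := h2 (finProdFinEquiv (i, 1))
      simp only [game, Equiv.symm_apply_apply, one_ne_zero, if_false, Option.some.injEq,
        Prod.mk.injEq] at h4
      obtain ⟨rfl, rfl, rfl⟩ := h4
      rw [← h5, ← h3]
      rfl
    have h7 : ∑ i, L (finRotate (n + 1) i) = ∑ i, L i := Equiv.sum_comp (finRotate (n + 1)) L
    simp only [h6] at h7
    rw [sum_add_distrib, sum_boole] at h7
    have h8 : (((univ.filter fun i => x i = true).card : ℕ) : ZMod 2) = 0 := by
      simpa using h7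
    rw [ZMod.natCast_eq_zero_iff_even] at h8
    exact (Nat.not_odd_iff_even.2 h8) hx

theorem injective_shift {π : ZMod 2 → ZMod 2} {a : ZMod 2} (h : ∀ z, π z = id z + a) :
    Function.Injective π := by
  intro z z' hz
  rw [h, h] at hz
  exact add_right_cancel hz

/-- the last coordinate of `d * 2` labels -/
def lastBit (d : ℕ) (z : Fin (d * 2)) : ZMod 2 := (finProdFinEquiv.symm z).2

theorem lastBit_surjective {d : ℕ} (hd : 1 ≤ d) : Function.Surjective (lastBit d) := by
  intro c
  exact ⟨finProdFinEquiv (⟨0, hd⟩, c), by simp [lastBit]⟩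

theorem card_fiber_lastBit {d : ℕ} {π : Fin (d * 2) → ZMod 2} {a : ZMod 2}
    (h : ∀ z, π z = lastBit d z + a) (c : ZMod 2) : (univ.filter fun z => π z = c).card ≤ d := by
  have h1 : (univ.filter fun z => π z = c).card ≤ (univ : Finset (Fin d)).card := by
    refine card_le_card_of_injOn (fun z => (finProdFinEquiv.symm z).1) (fun _ _ => by simp) ?_
    intro z hz z' hz' he
    have h2 : π z = c := (mem_filter.1 (mem_coe.1 hz)).2
    have h3 : π z' = c := (mem_filter.1 (mem_coe.1 hz')).2
    rw [h] at h2 h3
    have h4 : lastBit d z = lastBit d z' := add_right_cancel (h2.trans h3.symm)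
    exact finProdFinEquiv.symm.injective (Prod.ext he h4)
  simpa using h1

end Pool.Agent.Y601.SSE.Games
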