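import Pool.Agent.Y601.SSE.Num
import Pool.Agent.Y601.SSE.Defs

set_option autoImplicit false
set_option linter.unusedSectionVars false

/-!
Small-set expansion and the mixed hierarchy: regular graphs.
-/

namespace Pool.Agent.Y601.SSE

open Finset
open scoped Classical

section

variable {V : Type} [Fintype V]

/-- the transition probabilities -/
noncomputable def walk (G : SimpleGraph V) (d : ℕ) (u v : V) : ℝ :=
  if G.Adj u v then 1 / (d : ℝ) else 0

variable {G : SimpleGraph V} {d k : ℕ}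

theorem sum_walk (hd : 1 ≤ d) (hG : ∀ v, (univ.filter fun w => G.Adj v w).card = d) (u : V) :
    ∑ v, walk G d u v = 1 := by
  unfold walk
  rw [← sum_filter, sum_const, hG u, nsmul_eq_mul]
  have : (d : ℝ) ≠ 0 := by exact_mod_cast (by omega : d ≠ 0)
  field_simp

theorem ker_walk (hd : 1 ≤ d) (hG : ∀ v, (univ.filter fun w => G.Adj v w).card = d) :
    Ker (walk G d) := by
  refine ⟨fun u v => ?_, fun u v => ?_, fun u => (sum_walk hd hG u).le⟩
  · unfold walk
    simp only [G.adj_comm]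
  · unfold walk
    split_ifs
    · positivity
    · exact le_rfl

theorem cut_eq (hd : 1 ≤ d) (hG : ∀ v, (univ.filter fun w => G.Adj v w).card = d)
    (S : Finset V) : (cut G S : ℝ) = d * (S.card - ins (walk G d) S) := by
  have hd0 : (d : ℝ) ≠ 0 := by exact_mod_cast (by omega : d ≠ 0)
  have h1 : (cut G S : ℝ) = ∑ u ∈ S, ∑ v, (if v ∉ S then (d : ℝ) * walk G d u v else 0) := by
    unfold cut
    rw [Finset.card_filter]
    push_cast
    rw [← Finset.univ_product_univ, Finset.sum_product, ← Finset.sum_subset (Finset.subset_univ S)]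
    · refine Finset.sum_congr rfl fun u hu => Finset.sum_congr rfl fun v _ => ?_
      unfold walk
      by_cases hv : v ∈ S
      · simp [hv]
      · by_cases ha : G.Adj u v
        · simp [hv, hu, ha, hd0]
        · simp [hv, ha]
    · intro u _ hu
      simp [hu]
  have h2 : ∀ u ∈ S, ∑ v, (if v ∉ S then (d : ℝ) * walk G d u v else 0) =
      d * (1 - ∑ v ∈ S, walk G d u v) := by
    intro u _
    have h3 := sum_walk hd hG u
    rw [← Finset.sum_filter_add_sum_filter_not univ (fun v => v ∈ S)] at h3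
    have h4 : (univ.filter fun v => v ∈ S) = S := by ext; simp
    rw [h4] at h3
    rw [← Finset.sum_filter, ← mul_sum]
    congr 1
    linarith
  rw [h1, sum_congr rfl h2, ← mul_sum, sum_sub_distrib, sum_const, nsmul_eq_mul, mul_one]
  rfl

theorem card_setOf (x : V → Bool) : ((setOf x).card : ℝ) = ∑ v, In v true x := by
  unfold setOf In
  rw [Finset.card_filter]
  push_cast
  rfl

theorem ins_setOf (Q : V → V → ℝ) (x : V → Bool) :
    ins Q (setOf x) = ∑ u, ∑ v, Q u v * (In u true x * In v true x) := by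
  unfold ins setOf In
  rw [sum_filter]
  refine sum_congr rfl fun u _ => ?_
  by_cases hu : x u = true
  · simp only [hu, if_true, one_mul]
    rw [sum_filter]
    refine sum_congr rfl fun v _ => ?_
    by_cases hv : x v = true <;> simp [hv]
  · simp [hu]

theorem cut_fun (hd : 1 ≤ d) (hG : ∀ v, (univ.filter fun w => G.Adj v w).card = d) :
    (fun x : V → Bool => (cut G (setOf x) : ℝ)) =
      (d : ℝ) • ((∑ v, In v true) - ∑ u, ∑ v, walk G d u v •
        fun x => In u true x * In v true x) := by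
  funext x
  rw [cut_eq hd hG, card_setOf, ins_setOf]
  simp only [Pi.smul_apply, Pi.sub_apply, Finset.sum_apply, smul_eq_mul]

theorem lev_of {r : ℕ} {η : ℝ} {L : ((V → Bool) → ℝ) →ₗ[ℝ] ℝ} (hV : Nonempty V)
    (h : IsSolution G d k r η L) : Lev (k : ℝ) r L := by
  refine ⟨h.one, h.nonneg, fun S hS g hg hg0 c0 c => ?_, fun S hS g hg => ?_⟩
  · obtain ⟨v0⟩ := hV
    have h1 := h.psd S hS g hg hg0
      (fun v b => (if v = v0 then c0 else 0) + c v * (if b = true then 1 else 0))
    have h2 : ∀ x : V → Bool, ∑ v, ((if v = v0 then c0 else 0) +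
        c v * (if x v = true then (1 : ℝ) else 0)) = c0 + ∑ v, c v * In v true x := by
      intro x
      rw [sum_add_distrib, Finset.sum_ite_eq' univ v0, if_pos (mem_univ _)]
      rfl
    simp_rw [h2] at h1
    exact h1
  · have h1 := h.size S hS g hg
    simp_rw [card_setOf] at h1
    exact h1

theorem sum_pr' {r : ℕ} {L : ((V → Bool) → ℝ) →ₗ[ℝ] ℝ} (hL : Lev (k : ℝ) r L) :
    L (∑ v, In v true) = k := by
  rw [map_sum]
  exact sum_pr hL

theorem val_of {r : ℕ} {η : ℝ} {L : ((V → Bool) → ℝ) →ₗ[ℝ] ℝ} (hd : 1 ≤ d)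
    (hG : ∀ v, (univ.filter fun w => G.Adj v w).card = d) (hV : Nonempty V)
    (h : IsSolution G d k r η L) : (1 - η) * k ≤ val (walk G d) L := by
  have hL := lev_of hV h
  have hd0 : (0 : ℝ) < d := by exact_mod_cast hd
  have h1 := h.boundary
  rw [cut_fun hd hG, map_smul, map_sub, sum_pr' hL, smul_eq_mul] at h1
  simp only [map_sum, map_smul, smul_eq_mul] at h1
  have h2 : ∑ u, ∑ v, walk G d u v * L (fun x => In u true x * In v true x) =
      val (walk G d) L := rfl
  rw [h2] at h1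
  have h3 : d * ((k : ℝ) - val (walk G d) L) ≤ d * (η * k) := by linarith
  have h4 := le_of_mul_le_mul_left h3 hd0
  linarith

theorem ins_of_cut {η : ℝ} (hd : 1 ≤ d)
    (hG : ∀ v, (univ.filter fun w => G.Adj v w).card = d)
    (hno : ∀ S : Finset V, S.card = k → (1 - η) * (d * k) ≤ cut G S) (S : Finset V)
    (hS : S.card = k) : ins (walk G d) S ≤ η * k := by
  have hd0 : (0 : ℝ) < d := by exact_mod_cast hd
  have h1 := hno S hS
  rw [cut_eq hd hG, hS] at h1
  have h3 : d * ((1 - η) * (k : ℝ)) ≤ d * (k - ins (walk G d) S) := by linarith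
  have h4 := le_of_mul_le_mul_left h3 hd0
  linarith

/-- point masses are solutions -/
theorem exists_solution {η : ℝ} (S : Finset V) (hS : S.card = k)
    (hcut : (cut G S : ℝ) ≤ η * (d * k)) (r : ℕ) :
    ∃ L : ((V → Bool) → ℝ) →ₗ[ℝ] ℝ, IsSolution G d k r η L := by
  refine ⟨LinearMap.proj (fun v => decide (v ∈ S)), rfl, fun _ _ f _ hf => hf _,
    fun _ _ g _ hg c => mul_nonneg (hg _) (sq_nonneg _), fun _ _ g _ => ?_, ?_⟩
  · have : setOf (fun v => decide (v ∈ S)) = S := by
      unfold setOf; ext; simp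
    show g _ * ((setOf (fun v => decide (v ∈ S))).card : ℝ) = k * g _
    rw [this, hS, mul_comm]
  · have : setOf (fun v => decide (v ∈ S)) = S := by
      unfold setOf; ext; simp
    show (cut G (setOf (fun v => decide (v ∈ S))) : ℝ) ≤ _
    rw [this]
    exact hcut

theorem nonempty_of (hk : 1 ≤ k) (hkV : k ≤ Fintype.card V) : Nonempty V :=
  Fintype.card_pos_iff.mp (by omega)

theorem graph_gap (hd : 1 ≤ d) (hG : ∀ v, (univ.filter fun w => G.Adj v w).card = d)
    (hk : 1 ≤ k) (hkV : k ≤ Fintype.card V) (η : ℝ) (hη : 0 < η) (hη1 : η < 1 / 2)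
    (hno : ∀ S : Finset V, S.card = k → (1 - η) * (d * k) ≤ cut G S) (r : ℕ)
    (hr : 300 * (Fintype.card V / k) *
      (Fintype.card V : ℝ) ^ (300 * η / Real.log (1 / η)) ≤ r) :
    ¬ ∃ L : ((V → Bool) → ℝ) →ₗ[ℝ] ℝ, IsSolution G d k r η L := by
  rintro ⟨L, hL⟩
  have hV := nonempty_of hk hkV
  exact gap (ker_walk hd hG) (fun v => by simp [walk]) k hk hkV η hη hη1
    (fun S hS => ins_of_cut hd hG hno S hS) r hr L (lev_of hV hL) (val_of hd hG hV hL)

theorem graph_gen (hd : 1 ≤ d) (hG : ∀ v, (univ.filter fun w => G.Adj v w).card = d)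
    (hk : 1 ≤ k) (hkV : k ≤ Fintype.card V) (ε η : ℝ) (hε : 0 ≤ ε) (hη : 0 < η)
    (hη1 : η ≤ 1 / 64) (hεη : ε + 5 * η < 1)
    (hno : ∀ S : Finset V, S.card = k → (1 - η) * (d * k) ≤ cut G S) (r : ℕ)
    (hr : (69 + 46 * (ε / η)) * (Fintype.card V / k) * (1 / (1 - ε - 5 * η)) ^ 3 *
      (Fintype.card V : ℝ) ^ (4 * Real.log (1 / (1 - ε - 5 * η)) / Real.log (1 / (16 * η))) ≤ r) :
    ¬ ∃ L : ((V → Bool) → ℝ) →ₗ[ℝ] ℝ, IsSolution G d k r ε L := by
  rintro ⟨L, hL⟩
  have hV := nonempty_of hk hkV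
  exact gen (ker_walk hd hG) (fun v => by simp [walk]) k hk hkV ε η hε hη hη1 hεη
    (fun S hS => ins_of_cut hd hG hno S hS) r hr L (lev_of hV hL) (val_of hd hG hV hL)

end

end Pool.Agent.Y601.SSE
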