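import Mathlib

set_option autoImplicit false
set_option linter.unusedSectionVars false

/-!
Levels of the mixed hierarchy for sets of a fixed size, and conditioning.
-/

namespace Pool.Agent.Y601.SSE

open Finset

section

variable {V : Type} [Fintype V] [DecidableEq V]

/-- `f` depends only on the values at `S` -/
def Dep (S : Finset V) (f : (V → Bool) → ℝ) : Prop :=
  ∀ x y : V → Bool, (∀ v ∈ S, x v = y v) → f x = f y

/-- indicator of `x u = b` -/
def In (u : V) (b : Bool) : (V → Bool) → ℝ := fun x => if x u = b then 1 else 0

/-- level `r` of the mixed hierarchy for sets of size `k` -/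
structure Lev (k : ℝ) (r : ℕ) (L : ((V → Bool) → ℝ) →ₗ[ℝ] ℝ) : Prop where
  one : L (fun _ => 1) = 1
  junta : ∀ S : Finset V, S.card ≤ r + 2 → ∀ f, Dep S f → (∀ x, 0 ≤ f x) → 0 ≤ L f
  psd : ∀ S : Finset V, S.card ≤ r → ∀ g, Dep S g → (∀ x, 0 ≤ g x) → ∀ (c0 : ℝ) (c : V → ℝ),
    0 ≤ L (fun x => g x * (c0 + ∑ v, c v * In v true x) ^ 2)
  size : ∀ S : Finset V, S.card ≤ r → ∀ g, Dep S g →
    L (fun x => g x * ∑ v, In v true x) = k * L g

/-- conditioning -/
noncomputable def cnd (L : ((V → Bool) → ℝ) →ₗ[ℝ] ℝ) (u : V) (b : Bool) :
    ((V → Bool) → ℝ) →ₗ[ℝ] ℝ where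
  toFun f := L (fun x => In u b x * f x) / L (In u b)
  map_add' f g := by
    have : (fun x => In u b x * (f + g) x) = (fun x => In u b x * f x) +
        (fun x => In u b x * g x) := by
      funext x
      simp only [Pi.add_apply]
      ring
    rw [this, map_add, add_div]
  map_smul' a f := by
    have : (fun x => In u b x * (a • f) x) = a • (fun x => In u b x * f x) := by
      funext x
      simp only [Pi.smul_apply, smul_eq_mul]
      ring
    rw [this, map_smul, smul_eq_mul, RingHom.id_apply, smul_eq_mul, mul_div_assoc]

theorem cnd_apply (L : ((V → Bool) → ℝ) →ₗ[ℝ] ℝ) (u : V) (b : Bool) (f : (V → Bool) → ℝ) :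
    cnd L u b f = L (fun x => In u b x * f x) / L (In u b) := rfl

theorem in_nonneg (u : V) (b : Bool) (x : V → Bool) : 0 ≤ In u b x := by
  unfold In; split_ifs <;> norm_num

theorem in_le_one (u : V) (b : Bool) (x : V → Bool) : In u b x ≤ 1 := by
  unfold In; split_ifs <;> norm_num

theorem in_sq (u : V) (b : Bool) (x : V → Bool) : In u b x * In u b x = In u b x := by
  unfold In; split_ifs <;> norm_num

theorem in_false (u : V) (x : V → Bool) : In u false x = 1 - In u true x := by
  unfold In
  cases x u <;> simp

theorem dep_in (u : V) (b : Bool) {S : Finset V} (hu : u ∈ S) : Dep S (In u b) := by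
  intro x y h
  unfold In
  rw [h u hu]

theorem dep_mul {S : Finset V} {f g : (V → Bool) → ℝ} (hf : Dep S f) (hg : Dep S g) :
    Dep S (fun x => f x * g x) := by
  intro x y h
  show f x * g x = f y * g y
  rw [hf x y h, hg x y h]

theorem dep_mono {S T : Finset V} {f : (V → Bool) → ℝ} (hf : Dep S f) (h : S ⊆ T) : Dep T f :=
  fun x y hxy => hf x y fun v hv => hxy v (h hv)

theorem lev_mono {k : ℝ} {r : ℕ} {L : ((V → Bool) → ℝ) →ₗ[ℝ] ℝ} (hL : Lev k (r + 1) L) :
    Lev k r L :=
  ⟨hL.one, fun S hS => hL.junta S (by omega), fun S hS => hL.psd S (by omega),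
    fun S hS => hL.size S (by omega)⟩

theorem lev_zero {k : ℝ} {r : ℕ} {L : ((V → Bool) → ℝ) →ₗ[ℝ] ℝ} (hL : Lev k r L) :
    Lev k 0 L := by
  induction r with
  | zero => exact hL
  | succ r ih => exact ih (lev_mono hL)

/-- conditioning costs one level -/
theorem lev_cnd {k : ℝ} {r : ℕ} {L : ((V → Bool) → ℝ) →ₗ[ℝ] ℝ} (hL : Lev k (r + 1) L) (u : V)
    (b : Bool) (hb : 0 < L (In u b)) : Lev k r (cnd L u b) := by
  refine ⟨?_, fun S hS f hf hf0 => ?_, fun S hS g hg hg0 c0 c => ?_, fun S hS g hg => ?_⟩
  · rw [cnd_apply]
    simp only [mul_one]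
    exact div_self hb.ne'
  · rw [cnd_apply]
    refine div_nonneg (hL.junta (insert u S) ?_ _ (dep_mul (dep_in u b (mem_insert_self _ _))
      (dep_mono hf (subset_insert _ _))) fun x => mul_nonneg (in_nonneg u b x) (hf0 x)) hb.le
    exact (card_insert_le _ _).trans (by omega)
  · rw [cnd_apply]
    have h1 := hL.psd (insert u S) ((card_insert_le _ _).trans (by omega))
      (fun x => In u b x * g x) (dep_mul (dep_in u b (mem_insert_self _ _))
      (dep_mono hg (subset_insert _ _))) (fun x => mul_nonneg (in_nonneg u b x) (hg0 x)) c0 c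
    simp only [mul_assoc] at h1
    exact div_nonneg h1 hb.le
  · rw [cnd_apply, cnd_apply]
    have h1 := hL.size (insert u S) ((card_insert_le _ _).trans (by omega))
      (fun x => In u b x * g x) (dep_mul (dep_in u b (mem_insert_self _ _))
      (dep_mono hg (subset_insert _ _)))
    simp only [mul_assoc] at h1
    rw [h1]
    ring

/-- first moments -/
def pr (L : ((V → Bool) → ℝ) →ₗ[ℝ] ℝ) (v : V) : ℝ := L (In v true)

/-- second moments -/
def m2 (L : ((V → Bool) → ℝ) →ₗ[ℝ] ℝ) (u v : V) : ℝ := L (fun x => In u true x * In v true x)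

/-- covariances -/
def cov (L : ((V → Bool) → ℝ) →ₗ[ℝ] ℝ) (u v : V) : ℝ := m2 L u v - pr L u * pr L v

theorem m2_symm (L : ((V → Bool) → ℝ) →ₗ[ℝ] ℝ) (u v : V) : m2 L u v = m2 L v u := by
  unfold m2
  congr 1
  funext x
  ring

theorem m2_self (L : ((V → Bool) → ℝ) →ₗ[ℝ] ℝ) (u : V) : m2 L u u = pr L u := by
  unfold m2 pr
  congr 1
  funext x
  exact in_sq u true x

section facts

variable {k : ℝ} {r : ℕ} {L : ((V → Bool) → ℝ) →ₗ[ℝ] ℝ}

theorem pr_nonneg (hL : Lev k r L) (v : V) : 0 ≤ pr L v :=
  hL.junta {v} (by simp) _ (dep_in v true (by simp)) (in_nonneg v true)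

theorem pr_false (hL : Lev k r L) (v : V) : L (In v false) = 1 - pr L v := by
  have : In v false = (fun _ : V → Bool => (1 : ℝ)) - In v true := by
    funext x
    rw [Pi.sub_apply]
    exact in_false v x
  rw [this, map_sub, hL.one]
  rfl

theorem pr_le_one (hL : Lev k r L) (v : V) : pr L v ≤ 1 := by
  have h1 : 0 ≤ L (In v false) :=
    hL.junta {v} (by simp) _ (dep_in v false (by simp)) (in_nonneg v false)
  rw [pr_false hL] at h1
  linarith

theorem m2_nonneg (hL : Lev k r L) (u v : V) : 0 ≤ m2 L u v :=
  hL.junta {u, v} (card_le_two.trans (by omega)) _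
    (dep_mul (dep_in u true (by simp)) (dep_in v true (by simp)))
    fun x => mul_nonneg (in_nonneg u true x) (in_nonneg v true x)

theorem m2_le (hL : Lev k r L) (u v : V) : m2 L u v ≤ pr L u := by
  have h1 : 0 ≤ L (fun x => In u true x * In v false x) :=
    hL.junta {u, v} (card_le_two.trans (by omega)) _
      (dep_mul (dep_in u true (by simp)) (dep_in v false (by simp)))
      fun x => mul_nonneg (in_nonneg u true x) (in_nonneg v false x)
  have h2 : (fun x : V → Bool => In u true x * In v false x) =
      In u true - fun x => In u true x * In v true x := by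
    funext x
    rw [Pi.sub_apply, in_false]
    ring
  rw [h2, map_sub] at h1
  have h3 : L (fun x => In u true x * In v true x) = m2 L u v := rfl
  have h4 : L (In u true) = pr L u := rfl
  linarith

theorem sum_pr (hL : Lev k r L) : ∑ v, pr L v = k := by
  have h1 := hL.size ∅ (by simp) (fun _ => 1) (fun _ _ _ => rfl)
  rw [hL.one, mul_one] at h1
  rw [← h1]
  unfold pr
  rw [← map_sum]
  congr 1
  funext x
  rw [Finset.sum_apply, one_mul]

theorem cov_symm (u v : V) : cov L u v = cov L v u := by
  unfold cov
  rw [m2_symm, mul_comm]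

theorem cov_self (u : V) : cov L u u = pr L u * (1 - pr L u) := by
  unfold cov
  rw [m2_self]
  ring

theorem cov_psd (hL : Lev k r L) (y : V → ℝ) : 0 ≤ ∑ u, ∑ v, y u * cov L u v * y v := by
  have h1 := hL.psd ∅ (by simp) (fun _ => 1) (fun _ _ _ => rfl) (fun _ => zero_le_one)
    (-∑ v, y v * pr L v) y
  obtain ⟨a, ha⟩ : ∃ a, a = ∑ v, y v * pr L v := ⟨_, rfl⟩
  rw [← ha] at h1
  have h2 : (fun x : V → Bool => (1 : ℝ) * (-a + ∑ v, y v * In v true x) ^ 2) =
      (a ^ 2) • (fun _ => (1 : ℝ)) - (2 * a) • (∑ v, y v • In v true) +
        ∑ u, ∑ v, (y u * y v) • (fun x => In u true x * In v true x) := by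
    funext x
    simp only [Pi.add_apply, Pi.sub_apply, Pi.smul_apply, Finset.sum_apply, smul_eq_mul]
    have h3 : (∑ v, y v * In v true x) ^ 2 =
        ∑ u, ∑ v, y u * y v * (In u true x * In v true x) := by
      rw [sq, Finset.sum_mul_sum]
      exact sum_congr rfl fun u _ => sum_congr rfl fun v _ => by ring
    rw [← h3]
    ring
  rw [h2, map_add, map_sub, map_smul, map_smul, map_sum, map_sum, hL.one] at h1
  simp only [map_smul, map_sum, smul_eq_mul, mul_one] at h1
  have h3 : ∑ v, y v * L (In v true) = a := by rw [ha]; rfl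
  rw [h3] at h1
  have h4 : ∑ u, ∑ v, y u * cov L u v * y v = a ^ 2 - 2 * a * a +
      ∑ u, ∑ v, y u * y v * L (fun x => In u true x * In v true x) := by
    have h5 : ∑ u, ∑ v, y u * cov L u v * y v =
        ∑ u, ∑ v, y u * y v * m2 L u v - ∑ u, ∑ v, (y u * pr L u) * (y v * pr L v) := by
      rw [← sum_sub_distrib]
      refine sum_congr rfl fun u _ => ?_
      rw [← sum_sub_distrib]
      refine sum_congr rfl fun v _ => ?_
      unfold cov
      ring
    rw [h5, ← Finset.sum_mul_sum, ← ha]
    unfold m2
    ring
  rw [h4]
  exact h1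

/-- total variance -/
def tv (L : ((V → Bool) → ℝ) →ₗ[ℝ] ℝ) : ℝ := ∑ v, cov L v v

/-- value with respect to a kernel -/
def val (K : V → V → ℝ) (L : ((V → Bool) → ℝ) →ₗ[ℝ] ℝ) : ℝ := ∑ u, ∑ v, K u v * m2 L u v

theorem tv_nonneg (hL : Lev k r L) : 0 ≤ tv L := by
  refine sum_nonneg fun v _ => ?_
  rw [cov_self]
  exact mul_nonneg (pr_nonneg hL v) (by linarith [pr_le_one hL v])

theorem tv_le (hL : Lev k r L) : tv L ≤ k := by
  rw [← sum_pr hL]
  refine sum_le_sum fun v _ => ?_
  rw [cov_self]
  nlinarith [pr_nonneg hL v, pr_le_one hL v]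

theorem val_le {K : V → V → ℝ} (h0 : ∀ u v, 0 ≤ K u v) (h1 : ∀ u, ∑ v, K u v ≤ 1)
    (hL : Lev k r L) : val K L ≤ k := by
  rw [← sum_pr hL]
  refine sum_le_sum fun u _ => ?_
  calc ∑ v, K u v * m2 L u v ≤ ∑ v, K u v * pr L u :=
        sum_le_sum fun v _ => mul_le_mul_of_nonneg_left (m2_le hL u v) (h0 u v)
    _ = (∑ v, K u v) * pr L u := by rw [sum_mul]
    _ ≤ 1 * pr L u := mul_le_mul_of_nonneg_right (h1 u) (pr_nonneg hL u)
    _ = pr L u := one_mul _

theorem split (hL : Lev k r L) (u : V) (hp : 0 < pr L u) (hq : pr L u < 1)
    (f : (V → Bool) → ℝ) :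
    pr L u * cnd L u true f + (1 - pr L u) * cnd L u false f = L f := by
  rw [cnd_apply, cnd_apply, pr_false hL]
  have h1 : L (In u true) = pr L u := rfl
  rw [h1, mul_div_cancel₀ _ hp.ne', mul_div_cancel₀ _ (by linarith : (1 - pr L u) ≠ 0)]
  rw [← map_add]
  congr 1
  funext x
  rw [Pi.add_apply, in_false]
  ring

theorem val_cnd {K : V → V → ℝ} (hL : Lev k r L) (u : V) (hp : 0 < pr L u) (hq : pr L u < 1) :
    pr L u * val K (cnd L u true) + (1 - pr L u) * val K (cnd L u false) = val K L := by
  unfold val m2
  rw [mul_sum, mul_sum, ← sum_add_distrib]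
  refine sum_congr rfl fun v _ => ?_
  rw [mul_sum, mul_sum, ← sum_add_distrib]
  refine sum_congr rfl fun w _ => ?_
  rw [← split hL u hp hq (fun x => In v true x * In w true x)]
  ring

theorem tv_cnd (hL : Lev k r L) (u : V) (hp : 0 < pr L u) (hq : pr L u < 1) :
    pr L u * tv (cnd L u true) + (1 - pr L u) * tv (cnd L u false) =
      tv L - (∑ v, cov L u v ^ 2) / cov L u u := by
  unfold tv
  rw [mul_sum, mul_sum, ← sum_add_distrib, sum_div, ← sum_sub_distrib]
  refine sum_congr rfl fun v _ => ?_
  rw [cov_self, cov_self, cov_self, cov_self]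
  have h1 : pr (cnd L u true) v = m2 L u v / pr L u := rfl
  have h2 : pr (cnd L u false) v = (pr L v - m2 L u v) / (1 - pr L u) := by
    unfold pr
    rw [cnd_apply, pr_false hL]
    congr 1
    have : (fun x : V → Bool => In u false x * In v true x) =
        In v true - fun x => In u true x * In v true x := by
      funext x
      rw [Pi.sub_apply, in_false]
      ring
    rw [this, map_sub]
    rfl
  rw [h1, h2]
  unfold cov
  have h3 : pr L u ≠ 0 := hp.ne'
  have h4 : 1 - pr L u ≠ 0 := by linarith
  field_simp
  ring

end facts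

/-- the potential -/
noncomputable def pot (K : V → V → ℝ) (k E : ℝ) (L : ((V → Bool) → ℝ) →ₗ[ℝ] ℝ) : ℝ :=
  tv L / k + (k - val K L) / E

theorem iterate {K : V → V → ℝ} (h0 : ∀ u v, 0 ≤ K u v) (h1 : ∀ u, ∑ v, K u v ≤ 1)
    (k E D P : ℝ) (hk : 0 < k) (hE : 0 < E) :
    ∀ (N : ℕ) (L : ((V → Bool) → ℝ) →ₗ[ℝ] ℝ), Lev k N L → pot K k E L ≤ P →
      pot K k E L ≤ N * D →
      ∃ L' : ((V → Bool) → ℝ) →ₗ[ℝ] ℝ, Lev k 0 L' ∧ pot K k E L' ≤ P ∧
        (tv L' ≤ 0 ∨ ∑ u, ∑ v, cov L' u v ^ 2 < D * k * tv L') := by
  intro N
  induction N with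
  | zero =>
    intro L hL h2 h3
    refine ⟨L, hL, h2, Or.inl ?_⟩
    have h4 : 0 ≤ (k - val K L) / E := div_nonneg (by linarith [val_le h0 h1 hL]) hE.le
    unfold pot at h3
    rw [Nat.cast_zero, zero_mul] at h3
    have h5 : tv L / k ≤ 0 := by linarith
    rw [div_le_iff₀ hk, zero_mul] at h5
    exact h5
  | succ N ih =>
    intro L hL h2 h3
    by_cases hstop : tv L ≤ 0 ∨ ∑ u, ∑ v, cov L u v ^ 2 < D * k * tv L
    · exact ⟨L, lev_zero hL, h2, hstop⟩
    · push Not at hstop
      obtain ⟨ht, hbig⟩ := hstop
      -- a vertex to condition on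
      have hex : ∃ u, 0 < cov L u u ∧ D * k * cov L u u ≤ ∑ v, cov L u v ^ 2 := by
        by_contra hcon
        push Not at hcon
        obtain ⟨u0, -, hu0⟩ : ∃ u ∈ (univ : Finset V), 0 < cov L u u := by
          apply exists_lt_of_sum_lt (f := fun _ => (0 : ℝ))
          rw [sum_const_zero]
          exact ht
        have hnn : ∀ u, 0 ≤ cov L u u := fun u => by
          rw [cov_self]
          exact mul_nonneg (pr_nonneg hL u) (by linarith [pr_le_one hL u])
        have hz : ∀ u, cov L u u = 0 → ∑ v, cov L u v ^ 2 = 0 := by
          intro u hu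
          refine sum_eq_zero fun v _ => ?_
          -- `cov u v = 0`
          have hq : ∀ t : ℝ, 0 ≤ 2 * t * cov L u v + cov L v v := by
            intro t
            by_cases huv : u = v
            · subst huv
              rw [hu]; simp
            have h5 := cov_psd hL (fun w => if w = u then t else if w = v then 1 else 0)
            have h6 : ∑ w, ∑ z, (if w = u then t else if w = v then (1 : ℝ) else 0) * cov L w z *
                (if z = u then t else if z = v then 1 else 0) =
                t * t * cov L u u + 2 * t * cov L u v + cov L v v := by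
              have hin : ∀ w, ∑ z, (if w = u then t else if w = v then (1 : ℝ) else 0) *
                  cov L w z * (if z = u then t else if z = v then 1 else 0) =
                  (if w = u then t else if w = v then (1 : ℝ) else 0) *
                    (cov L w u * t + cov L w v) := by
                intro w
                have e1 : ∀ z, (if w = u then t else if w = v then (1 : ℝ) else 0) *
                    cov L w z * (if z = u then t else if z = v then 1 else 0) =
                    (if w = u then t else if w = v then (1 : ℝ) else 0) *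
                      ((if z = u then cov L w u * t else 0) +
                        (if z = v then cov L w v else 0)) := by
                  intro z
                  by_cases hzu : z = u
                  · subst hzu
                    simp only [huv, if_true, if_false, add_zero]
                    ring
                  · by_cases hzv : z = v
                    · subst hzv
                      simp [hzu]
                    · simp [hzu, hzv]
                simp_rw [e1]
                rw [← mul_sum, sum_add_distrib]
                simp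
              simp_rw [hin]
              have e2 : ∀ w, (if w = u then t else if w = v then (1 : ℝ) else 0) *
                  (cov L w u * t + cov L w v) =
                  (if w = u then t * (cov L u u * t + cov L u v) else 0) +
                    (if w = v then cov L v u * t + cov L v v else 0) := by
                intro w
                by_cases hwu : w = u
                · subst hwu
                  simp [huv]
                · by_cases hwv : w = v
                  · subst hwv
                    simp [hwu]
                  · simp [hwu, hwv]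
              simp_rw [e2]
              rw [sum_add_distrib]
              simp only [sum_ite_eq', mem_univ, if_true]
              rw [cov_symm v u]
              ring
            rw [h6, hu] at h5
            linarith
          have h7 : cov L u v = 0 := by
            by_contra hne
            have h8 := hq (-(cov L v v + 1) / (2 * cov L u v))
            have h9 : 2 * (-(cov L v v + 1) / (2 * cov L u v)) * cov L u v = -(cov L v v + 1) := by
              field_simp
            rw [h9] at h8
            linarith
          rw [h7]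
          norm_num
        have h4 : ∑ u, ∑ v, cov L u v ^ 2 < ∑ u, D * k * cov L u u := by
          apply sum_lt_sum
          · intro u _
            rcases (hnn u).lt_or_eq with h | h
            · exact (hcon u h).le
            · rw [hz u h.symm, ← h, mul_zero]
          · exact ⟨u0, mem_univ _, hcon u0 hu0⟩
        rw [← mul_sum] at h4
        have h5 : ∑ u, cov L u u = tv L := rfl
        rw [h5] at h4
        linarith
      obtain ⟨u, hu, hu2⟩ := hex
      have hu' := hu
      rw [cov_self] at hu'
      have hp0 := pr_nonneg hL u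
      have hp1 := pr_le_one hL u
      have hp : 0 < pr L u := by
        rcases hp0.lt_or_eq with h | h
        · exact h
        · rw [← h] at hu'; simp at hu'
      have hq : pr L u < 1 := by
        rcases hp1.lt_or_eq with h | h
        · exact h
        · rw [h] at hu'; simp at hu'
      have hL1 := lev_cnd hL u true hp
      have hL0 := lev_cnd hL u false (by rw [pr_false hL]; linarith)
      have e1 := tv_cnd hL u hp hq
      have e2 := val_cnd (K := K) hL u hp hq
      have e3 : D * k ≤ (∑ v, cov L u v ^ 2) / cov L u u := by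
        rw [le_div_iff₀ hu]
        exact hu2
      have e4 : pr L u * pot K k E (cnd L u true) + (1 - pr L u) * pot K k E (cnd L u false) ≤
          pot K k E L - D := by
        have e5 : pr L u * pot K k E (cnd L u true) + (1 - pr L u) * pot K k E (cnd L u false) =
            (pr L u * tv (cnd L u true) + (1 - pr L u) * tv (cnd L u false)) / k +
            (k - (pr L u * val K (cnd L u true) + (1 - pr L u) * val K (cnd L u false))) / E := by
          unfold pot
          field_simp
          ring
        rw [e5, e1, e2]
        unfold pot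
        have e6 : (tv L - (∑ v, cov L u v ^ 2) / cov L u u) / k ≤ tv L / k - D := by
          rw [div_le_iff₀ hk, sub_mul, div_mul_cancel₀ _ hk.ne']
          linarith
        linarith
      have hch : pot K k E (cnd L u true) ≤ pot K k E L - D ∨
          pot K k E (cnd L u false) ≤ pot K k E L - D := by
        by_contra hcon
        push Not at hcon
        have i1 := mul_lt_mul_of_pos_left hcon.1 hp
        have i2 := mul_lt_mul_of_pos_left hcon.2 (by linarith : 0 < 1 - pr L u)
        nlinarith
      have hDle : pot K k E L - D ≤ N * D := by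
        push_cast at h3
        linarith
      -- the decrement is nonnegative
      have hD0 : 0 ≤ D ∨ D < 0 := le_or_gt 0 D
      have hle2 : ∀ b, pot K k E (cnd L u b) ≤ pot K k E L - D →
          pot K k E (cnd L u b) ≤ P ∨ D < 0 := by
        intro b hb
        rcases hD0 with h | h
        · left; linarith
        · right; exact h
      rcases hch with h | h
      · rcases hle2 true h with h5 | h5
        · exact ih _ hL1 h5 (by linarith)
        · -- `D < 0`: impossible
          exfalso
          have h6 : 0 ≤ pot K k E L := add_nonneg (div_nonneg (tv_nonneg hL) hk.le)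
            (div_nonneg (by linarith [val_le h0 h1 hL]) hE.le)
          have h7 : ((N + 1 : ℕ) : ℝ) * D < 0 := mul_neg_of_pos_of_neg (by positivity) h5
          linarith
      · rcases hle2 false h with h5 | h5
        · exact ih _ hL0 h5 (by linarith)
        · exfalso
          have h6 : 0 ≤ pot K k E L := add_nonneg (div_nonneg (tv_nonneg hL) hk.le)
            (div_nonneg (by linarith [val_le h0 h1 hL]) hE.le)
          have h7 : ((N + 1 : ℕ) : ℝ) * D < 0 := mul_neg_of_pos_of_neg (by positivity) h5
          linarith

end

end Pool.Agent.Y601.SSE
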