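import Mathlib

set_option autoImplicit false
set_option linter.unusedSectionVars false

/-!
A symmetric substochastic kernel all of whose small sets have small density contracts nonnegative
functions of small support; decay of the return probabilities.
-/

namespace Pool.Agent.Y601.SSE

open Finset

section

variable {V : Type} [Fintype V] [DecidableEq V]

/-- indicator function -/
def ind (A : Finset V) (i : V) : ℝ := if i ∈ A then 1 else 0

theorem sum_ind (A : Finset V) : ∑ i, ind A i = A.card := by
  unfold ind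
  rw [Finset.sum_ite_mem, Finset.univ_inter, Finset.sum_const, nsmul_eq_mul, mul_one]

/-- the co-area inequality, with a linear term -/
theorem coarea (W : V → V → ℝ) (q : V → ℝ) (e : ℝ) (A0 : Finset V)
    (hiso : ∀ A ⊆ A0, e * A.card ≤ ∑ i, ∑ j, W i j * |ind A i - ind A j| + ∑ i, q i * ind A i) :
    ∀ (N : ℕ) (g : V → ℝ), (univ.filter (fun i => g i ≠ 0)).card ≤ N → (∀ i, 0 ≤ g i) →
      (∀ i, i ∉ A0 → g i = 0) →
      e * ∑ i, g i ≤ ∑ i, ∑ j, W i j * |g i - g j| + ∑ i, q i * g i := by
  intro N
  induction N with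
  | zero =>
    intro g hN _ _
    have h0 : ∀ i, g i = 0 := by
      intro i
      by_contra hi
      have : i ∈ univ.filter (fun i => g i ≠ 0) := by simp [hi]
      have := Finset.card_pos.mpr ⟨i, this⟩
      omega
    simp [h0]
  | succ N ih =>
    intro g hN hg hsup
    set B := univ.filter (fun i => g i ≠ 0) with hB
    by_cases hBe : B = ∅
    · have h0 : ∀ i, g i = 0 := by
        intro i
        by_contra hi
        have : i ∈ B := by rw [hB]; simp [hi]
        rw [hBe] at this
        simp at this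
      simp [h0]
    · have hne : B.Nonempty := Finset.nonempty_iff_ne_empty.mpr hBe
      obtain ⟨i0, hi0, hmin⟩ := Finset.exists_min_image B g hne
      set t := g i0 with ht
      have hi0' : g i0 ≠ 0 := by
        rw [hB, mem_filter] at hi0
        exact hi0.2
      have htpos : 0 < t := lt_of_le_of_ne (hg i0) (Ne.symm hi0')
      have hmemB : ∀ i, i ∈ B ↔ g i ≠ 0 := by intro i; rw [hB]; simp
      set g' : V → ℝ := fun i => g i - t * ind B i with hg'
      have hg'0 : ∀ i, 0 ≤ g' i := by
        intro i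
        simp only [hg', ind]
        by_cases hi : i ∈ B
        · rw [if_pos hi]
          have := hmin i hi
          linarith
        · rw [if_neg hi]
          linarith [hg i]
      have hg'sub : univ.filter (fun i => g' i ≠ 0) ⊆ B.erase i0 := by
        intro i hi
        rw [mem_filter] at hi
        rw [mem_erase]
        constructor
        · rintro rfl
          apply hi.2
          simp only [hg', ind]
          rw [if_pos hi0]
          ring
        · rw [hmemB]
          intro h0
          apply hi.2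
          simp only [hg', ind]
          rw [if_neg (by rw [hmemB]; simpa using h0), h0]
          ring
      have hcard : (univ.filter (fun i => g' i ≠ 0)).card ≤ N := by
        have h1 := Finset.card_le_card hg'sub
        rw [Finset.card_erase_of_mem hi0] at h1
        omega
      have hBA : B ⊆ A0 := by
        intro i hi
        rw [hmemB] at hi
        by_contra hiA
        exact hi (hsup i hiA)
      have hsup' : ∀ i, i ∉ A0 → g' i = 0 := by
        intro i hi
        have hiB : i ∉ B := fun h => hi (hBA h)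
        simp only [hg', ind]
        rw [if_neg hiB, hsup i hi]
        ring
      have h1 := ih g' hcard hg'0 hsup'
      have h2 := hiso B hBA
      have h3 : ∀ i j, |g i - g j| = |g' i - g' j| + t * |ind B i - ind B j| := by
        intro i j
        simp only [hg', ind]
        by_cases hi : i ∈ B
        · by_cases hj : j ∈ B
          · simp [hi, hj]
          · have hj0 : g j = 0 := by
              by_contra h
              exact hj ((hmemB j).mpr h)
            have hi1 := hmin i hi
            simp only [hi, hj, if_true, if_false, hj0]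
            rw [abs_of_nonneg, abs_of_nonneg, abs_of_nonneg] <;> linarith
        · have hi0 : g i = 0 := by
            by_contra h
            exact hi ((hmemB i).mpr h)
          by_cases hj : j ∈ B
          · have hj1 := hmin j hj
            simp only [hi, hj, if_true, if_false, hi0]
            rw [abs_of_nonpos, abs_of_nonpos, abs_of_nonpos] <;> linarith
          · have hj0 : g j = 0 := by
              by_contra h
              exact hj ((hmemB j).mpr h)
            simp [hi, hj, hi0, hj0]
      have h4 : ∑ i, ∑ j, W i j * |g i - g j| =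
          (∑ i, ∑ j, W i j * |g' i - g' j|) + t * ∑ i, ∑ j, W i j * |ind B i - ind B j| := by
        rw [mul_sum, ← sum_add_distrib]
        refine sum_congr rfl fun i _ => ?_
        rw [mul_sum, ← sum_add_distrib]
        refine sum_congr rfl fun j _ => ?_
        rw [h3]
        ring
      have h5 : ∑ i, g i = (∑ i, g' i) + t * B.card := by
        rw [← sum_ind, mul_sum, ← sum_add_distrib]
        refine sum_congr rfl fun i _ => ?_
        simp only [hg']
        ring
      have h5' : ∑ i, q i * g i = (∑ i, q i * g' i) + t * ∑ i, q i * ind B i := by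
        rw [mul_sum, ← sum_add_distrib]
        refine sum_congr rfl fun i _ => ?_
        simp only [hg']
        ring
      rw [h4, h5, h5']
      have h6 : t * (e * B.card) ≤ t * (∑ i, ∑ j, W i j * |ind B i - ind B j| +
          ∑ i, q i * ind B i) := mul_le_mul_of_nonneg_left h2 htpos.le
      linarith

/-- symmetric substochastic kernels -/
structure Ker (K : V → V → ℝ) : Prop where
  symm : ∀ u v, K u v = K v u
  nonneg : ∀ u v, 0 ≤ K u v
  row : ∀ u, ∑ v, K u v ≤ 1

/-- the quadratic form of a kernel on functions supported in `A0`, all of whose subsets have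
density at most `θ` -/
theorem quad {K : V → V → ℝ} (hK : Ker K) (θ : ℝ) (hθ : 0 ≤ θ) (hθ1 : θ ≤ 1) (A0 : Finset V)
    (hden : ∀ A ⊆ A0, ∑ u ∈ A, ∑ v ∈ A, K u v ≤ θ * A.card) (f : V → ℝ) (hf : ∀ i, 0 ≤ f i)
    (hsup : ∀ i, i ∉ A0 → f i = 0) :
    (∑ u, ∑ v, K u v * (f u * f v)) ^ 2 ≤ 2 * θ * (∑ u, f u ^ 2) ^ 2 := by
  set F := ∑ u, f u ^ 2 with hF
  set P := ∑ u, (∑ v, K u v) * f u ^ 2 with hP
  set A := ∑ u, ∑ v, K u v * (f u * f v) with hA
  set G := ∑ u, ∑ v, K u v * |f u ^ 2 - f v ^ 2| with hG
  have hF0 : 0 ≤ F := sum_nonneg fun i _ => sq_nonneg _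
  have hP0 : 0 ≤ P := sum_nonneg fun i _ => mul_nonneg (sum_nonneg fun j _ => hK.nonneg _ _)
    (sq_nonneg _)
  have hPF : P ≤ F := by
    refine sum_le_sum fun i _ => ?_
    have := mul_le_mul_of_nonneg_right (hK.row i) (sq_nonneg (f i))
    linarith
  have hA0 : 0 ≤ A := sum_nonneg fun i _ => sum_nonneg fun j _ =>
    mul_nonneg (hK.nonneg _ _) (mul_nonneg (hf _) (hf _))
  have hG0 : 0 ≤ G := sum_nonneg fun i _ => sum_nonneg fun j _ =>
    mul_nonneg (hK.nonneg _ _) (abs_nonneg _)
  -- the isoperimetric inequality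
  have hswap : ∀ h : V → ℝ, ∑ u, ∑ v, K u v * h v = ∑ u, (∑ v, K u v) * h u := by
    intro h
    rw [sum_comm]
    refine sum_congr rfl fun v _ => ?_
    rw [sum_mul]
    exact sum_congr rfl fun u _ => by rw [hK.symm u v]
  have hswap2 : ∀ h : V → ℝ, ∑ u, ∑ v, K u v * h u = ∑ u, (∑ v, K u v) * h u := by
    intro h
    exact sum_congr rfl fun u _ => by rw [sum_mul]
  have h1 : 2 * (1 - θ) * F ≤ G + ∑ i, (2 * (1 - ∑ v, K i v)) * f i ^ 2 := by
    refine coarea K (fun i => 2 * (1 - ∑ v, K i v)) (2 * (1 - θ)) A0 ?_ _ (fun i => f i ^ 2)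
      le_rfl (fun i => sq_nonneg _) (fun i hi => by rw [hsup i hi]; ring)
    intro S hS
    have e1 : ∀ i j, |ind S i - ind S j| = ind S i + ind S j - 2 * (ind S i * ind S j) := by
      intro i j
      unfold ind
      split_ifs <;> norm_num
    have e2 : ∑ i, ∑ j, K i j * |ind S i - ind S j| =
        2 * ∑ i, (∑ v, K i v) * ind S i - 2 * ∑ u ∈ S, ∑ v ∈ S, K u v := by
      have e3 : ∑ i, ∑ j, K i j * |ind S i - ind S j| = ∑ i, ∑ j, K i j * ind S i +
          ∑ i, ∑ j, K i j * ind S j - 2 * ∑ i, ∑ j, K i j * (ind S i * ind S j) := by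
        rw [mul_sum, ← sum_add_distrib, ← sum_sub_distrib]
        refine sum_congr rfl fun i _ => ?_
        rw [mul_sum, ← sum_add_distrib, ← sum_sub_distrib]
        refine sum_congr rfl fun j _ => ?_
        rw [e1]
        ring
      have e4 : ∑ i, ∑ j, K i j * (ind S i * ind S j) = ∑ u ∈ S, ∑ v ∈ S, K u v := by
        unfold ind
        rw [← Finset.sum_filter_add_sum_filter_not univ (fun i => i ∈ S)]
        have e5 : ∑ x with x ∉ S, ∑ j, K x j * ((if x ∈ S then (1 : ℝ) else 0) *
            (if j ∈ S then 1 else 0)) = 0 := by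
          refine sum_eq_zero fun x hx => ?_
          rw [mem_filter] at hx
          simp [hx.2]
        rw [e5, add_zero]
        have e6 : (univ.filter fun i => i ∈ S) = S := by ext; simp
        rw [e6]
        refine sum_congr rfl fun u hu => ?_
        simp only [hu, if_true, mul_ite, mul_one, mul_zero]
        rw [Finset.sum_ite_mem, Finset.univ_inter]
      rw [e3, e4, hswap, hswap2]
      ring
    rw [e2]
    have e7 : ∑ i, 2 * (1 - ∑ v, K i v) * ind S i =
        2 * S.card - 2 * ∑ i, (∑ v, K i v) * ind S i := by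
      rw [← sum_ind, mul_sum, mul_sum, ← sum_sub_distrib]
      exact sum_congr rfl fun i _ => by ring
    rw [e7]
    have e8 := hden S hS
    linarith
  have h2 : ∑ i, (2 * (1 - ∑ v, K i v)) * f i ^ 2 = 2 * F - 2 * P := by
    rw [hF, hP, mul_sum, mul_sum, ← sum_sub_distrib]
    exact sum_congr rfl fun i _ => by ring
  -- Cauchy-Schwarz
  have h3 : G ^ 2 ≤ (∑ u, ∑ v, K u v * (f u - f v) ^ 2) * (∑ u, ∑ v, K u v * (f u + f v) ^ 2) := by
    have hCS := Finset.sum_mul_sq_le_sq_mul_sq (univ : Finset (V × V))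
      (fun p => Real.sqrt (K p.1 p.2) * |f p.1 - f p.2|)
      (fun p => Real.sqrt (K p.1 p.2) * (f p.1 + f p.2))
    have e1 : ∑ p : V × V, (Real.sqrt (K p.1 p.2) * |f p.1 - f p.2|) *
        (Real.sqrt (K p.1 p.2) * (f p.1 + f p.2)) = G := by
      rw [hG, Fintype.sum_prod_type]
      refine sum_congr rfl fun i _ => sum_congr rfl fun j _ => ?_
      have hs := Real.mul_self_sqrt (hK.nonneg i j)
      have habs : |f i ^ 2 - f j ^ 2| = |f i - f j| * (f i + f j) := by
        have hsum : 0 ≤ f i + f j := add_nonneg (hf i) (hf j)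
        rw [show f i ^ 2 - f j ^ 2 = (f i - f j) * (f i + f j) by ring, abs_mul,
          abs_of_nonneg hsum]
      rw [habs]
      linear_combination |f i - f j| * (f i + f j) * hs
    have e2 : ∑ p : V × V, (Real.sqrt (K p.1 p.2) * |f p.1 - f p.2|) ^ 2 =
        ∑ u, ∑ v, K u v * (f u - f v) ^ 2 := by
      rw [Fintype.sum_prod_type]
      refine sum_congr rfl fun i _ => sum_congr rfl fun j _ => ?_
      rw [mul_pow, Real.sq_sqrt (hK.nonneg i j), sq_abs]
    have e3 : ∑ p : V × V, (Real.sqrt (K p.1 p.2) * (f p.1 + f p.2)) ^ 2 =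
        ∑ i, ∑ j, K i j * (f i + f j) ^ 2 := by
      rw [Fintype.sum_prod_type]
      refine sum_congr rfl fun i _ => sum_congr rfl fun j _ => ?_
      rw [mul_pow, Real.sq_sqrt (hK.nonneg i j)]
    rw [e1, e2, e3] at hCS
    exact hCS
  have h4 : ∑ u, ∑ v, K u v * (f u - f v) ^ 2 = 2 * P - 2 * A := by
    have e1 : ∑ u, ∑ v, K u v * (f u - f v) ^ 2 = ∑ u, ∑ v, K u v * f u ^ 2 +
        ∑ u, ∑ v, K u v * f v ^ 2 - 2 * A := by
      rw [hA, mul_sum, ← sum_add_distrib, ← sum_sub_distrib]
      refine sum_congr rfl fun i _ => ?_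
      rw [mul_sum, ← sum_add_distrib, ← sum_sub_distrib]
      exact sum_congr rfl fun j _ => by ring
    rw [e1, hswap (fun v => f v ^ 2), hswap2 (fun v => f v ^ 2)]
    ring
  have h5 : ∑ u, ∑ v, K u v * (f u + f v) ^ 2 = 2 * P + 2 * A := by
    have e1 : ∑ u, ∑ v, K u v * (f u + f v) ^ 2 = ∑ u, ∑ v, K u v * f u ^ 2 +
        ∑ u, ∑ v, K u v * f v ^ 2 + 2 * A := by
      rw [hA, mul_sum, ← sum_add_distrib, ← sum_add_distrib]
      refine sum_congr rfl fun i _ => ?_
      rw [mul_sum, ← sum_add_distrib, ← sum_add_distrib]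
      exact sum_congr rfl fun j _ => by ring
    rw [e1, hswap (fun v => f v ^ 2), hswap2 (fun v => f v ^ 2)]
    ring
  rw [h4, h5] at h3
  rw [h2] at h1
  -- `a = (1 - θ) F - (F - P)`
  have hAP : A ≤ P := by
    have : 0 ≤ ∑ u, ∑ v, K u v * (f u - f v) ^ 2 := sum_nonneg fun i _ => sum_nonneg fun j _ =>
      mul_nonneg (hK.nonneg _ _) (sq_nonneg _)
    rw [h4] at this
    linarith
  have hG2 : 2 * (P - θ * F) ≤ G := by nlinarith
  rcases le_or_gt (P - θ * F) 0 with hneg | hpos
  · have h6 : A ≤ θ * F := by linarith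
    have h7 : A ^ 2 ≤ (θ * F) ^ 2 := pow_le_pow_left₀ hA0 h6 2
    have h8 : (θ * F) ^ 2 ≤ 2 * θ * F ^ 2 := by
      have : θ ^ 2 ≤ 2 * θ := by nlinarith
      nlinarith [sq_nonneg F]
    linarith
  · have h6 : (2 * (P - θ * F)) ^ 2 ≤ G ^ 2 := pow_le_pow_left₀ (by linarith) hG2 2
    have h7 : A ^ 2 ≤ P ^ 2 - (P - θ * F) ^ 2 := by nlinarith
    have h8 : P ^ 2 - (P - θ * F) ^ 2 ≤ 2 * θ * F ^ 2 := by
      have e1 : P ^ 2 - (P - θ * F) ^ 2 = (θ * F) * (2 * P - θ * F) := by ring
      have e2 : 2 * P - θ * F ≤ 2 * F := by nlinarith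
      rw [e1]
      nlinarith [mul_nonneg hθ hF0]
    linarith

end

end Pool.Agent.Y601.SSE
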