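import Pool.Agent.Y601.SSE.Defs
import Pool.Agent.TH700.UG.Defs

set_option autoImplicit false

/-!
Local reductions from 3-SAT to small-set expansion: definitions.
-/

namespace Pool.Agent.Y601.SSE

open Finset Pool.Agent.W888.GX Pool.Agent.TH700.UG

/-- The formula `F` is represented in the `d`-regular graph `G`, sets of `k` vertices and expansion
`η`, with locality `D`: every assignment `x` of the variables has an honest set
`S = setOf (enc x)`; whether a given vertex is in `S` depends on at most `D` of the variables; and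

`|S| = k + ∑ p, h p x`, `|E(S, V \ S)| = η d k - ∑ q, g q x`,

where every `h p` and every `g q` depends on a set `T p`, `U q` of at most `D` variables, `h p x = 0`
if `x` satisfies all clauses of `F` inside `T p`, and `g q x ≥ 0` if `x` satisfies all clauses of
`F` inside `U q`. So if `x` satisfies `F` then the honest set has `k` vertices and expansion at most
`η`, and this can be checked locally. -/
def Represents {n c : ℕ} {I V : Type} [Fintype V] (F : I → Clause c n) (D : ℕ)
    (G : SimpleGraph V) (d k : ℕ) (η : ℝ) : Prop :=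
  ∃ (enc : (Fin n → ZMod 2) → V → Bool) (P Q : Type) (_ : Fintype P) (_ : Fintype Q)
    (T : P → Finset (Fin n)) (h : P → (Fin n → ZMod 2) → ℝ)
    (U : Q → Finset (Fin n)) (g : Q → (Fin n → ZMod 2) → ℝ),
    (∀ v, ∃ S : Finset (Fin n), S.card ≤ D ∧ Reads (fun x => enc x v) S) ∧
    (∀ p, (T p).card ≤ D ∧ Reads (h p) (T p) ∧ ∀ x, SatOn F (T p) x → h p x = 0) ∧
    (∀ q, (U q).card ≤ D ∧ Reads (g q) (U q) ∧ ∀ x, SatOn F (U q) x → 0 ≤ g q x) ∧
    (∀ x, ((setOf (enc x)).card : ℝ) = k + ∑ p, h p x) ∧
    ∀ x, (cut G (setOf (enc x)) : ℝ) = η * (d * k) - ∑ q, g q x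

end Pool.Agent.Y601.SSE
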