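import Pool.Agent.Y601.SSE.Graph
import Pool.Agent.Y601.SSE.LocalDefs
import Pool.Agent.TH700.UG.Pe
import Pool.Agent.TH843.LR.Form

set_option autoImplicit false

/-!
Local reductions from 3-SAT to small-set expansion.
-/

namespace Pool.Agent.Y601.SSE

open Finset Pool.Agent.W888.GX Pool.Agent.TH700.UG

section
variable {n D0 D : ℕ} {L : ((Fin n → ZMod 2) → ℝ) →ₗ[ℝ] ℝ} {V : Type} [Fintype V]

/-- composition of a pseudo-expectation with the honest sets -/
theorem sol_comp {I : Type} {c : ℕ} (hL : IsPseudoExpectation D0 L) (F : I → Clause c n)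
    (hF : ∀ i, ∀ u : (Fin n → ZMod 2) → ℝ, (∀ x, (Satisfies x (F i) → u x = 0) ∧
      (¬ Satisfies x (F i) → u x = 1)) → L u = 0)
    (G : SimpleGraph V) (d k : ℕ) (η : ℝ) (hR : Represents F D G d k η) (r : ℕ)
    (hD : (r + 2) * D ≤ D0) :
    ∃ L' : ((V → Bool) → ℝ) →ₗ[ℝ] ℝ, IsSolution G d k r η L' := by
  classical
  obtain ⟨enc, P, Q, _, _, T, h, U, g, henc, hh, hg, hcard, hcut⟩ := hR
  choose S hS hRS using henc
  have hread : ∀ (W : Finset V) (f : (V → Bool) → ℝ), DependsOn W f →
      Reads (fun z => f (enc z)) (W.biUnion S) := by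
    intro W f hf x y hxy
    exact hf _ _ fun v hv => hRS v x y fun i hi => hxy i (mem_biUnion.2 ⟨v, hv, hi⟩)
  have hcardU : ∀ W : Finset V, (W.biUnion S).card ≤ W.card * D := fun W =>
    card_biUnion_le.trans ((Finset.sum_le_card_nsmul W _ D fun v _ => hS v).trans
      (by rw [smul_eq_mul]))
  have hD1 : D ≤ D0 := le_trans (by nlinarith) hD
  refine ⟨L.comp (LinearMap.funLeft ℝ ℝ enc), ⟨?_, fun W hW f hf hf0 => ?_,
    fun W hW f hf hf0 a => ?_, fun W hW f hf => ?_, ?_⟩⟩
  · rw [LinearMap.comp_apply]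
    exact hL.1
  · have h1 := hL.2 (fun z => Real.sqrt (f (enc z)))
      (mem_low (S := W.biUnion S)
      ((hcardU W).trans ((Nat.mul_le_mul_right D hW).trans hD))
      (hread W (fun x => Real.sqrt (f x)) fun x y h1 => congrArg Real.sqrt (hf x y h1)))
    have h2 : (fun z => (fun z => Real.sqrt (f (enc z))) z ^ 2) = fun z => f (enc z) := by
      funext z
      exact Real.sq_sqrt (hf0 _)
    rw [h2] at h1
    exact h1
  · have hmem : (fun z => ∑ v, Real.sqrt (f (enc z)) * a v (enc z v)) ∈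
        LowDegree (Fin n) (ZMod 2) D0 := by
      have h0 : (fun z => ∑ v, Real.sqrt (f (enc z)) * a v (enc z v)) =
          ∑ v, fun z => Real.sqrt (f (enc z)) * a v (enc z v) := by
        funext z
        rw [Finset.sum_apply]
      rw [h0]
      refine Submodule.sum_mem _ fun v _ => ?_
      refine mem_low (S := (insert v W).biUnion S) ?_ ?_
      · refine (hcardU _).trans (le_trans (Nat.mul_le_mul_right D ?_) hD)
        have := card_insert_le v W
        omega
      · refine hread (insert v W) (fun x => Real.sqrt (f x) * a v (x v)) ?_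
        intro x y h1
        show Real.sqrt (f x) * a v (x v) = Real.sqrt (f y) * a v (y v)
        rw [hf x y fun i hi => h1 i (mem_insert_of_mem hi), h1 v (mem_insert_self _ _)]
    have h1 := hL.2 _ hmem
    have h2 : (fun z => (fun z => ∑ v, Real.sqrt (f (enc z)) * a v (enc z v)) z ^ 2) =
        fun z => f (enc z) * (∑ v, a v (enc z v)) ^ 2 := by
      funext z
      simp only []
      rw [← mul_sum, mul_pow, Real.sq_sqrt (hf0 _)]
    rw [h2] at h1
    exact h1
  · -- the size
    have hz : ∀ p, L (fun z => f (enc z) * h p z) = 0 := by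
      intro p
      have hc : (W.biUnion S ∪ T p).card ≤ D0 := by
        refine (card_union_le _ _).trans ?_
        have h1 := hcardU W
        have h2 := (hh p).1
        have h3 : W.card * D ≤ r * D := Nat.mul_le_mul_right D hW
        calc _ ≤ r * D + D := by omega
          _ ≤ (r + 2) * D := by nlinarith
          _ ≤ D0 := hD
      have hr : ∀ s : ℝ, Reads (fun z => s * (f (enc z) * h p z)) (W.biUnion S ∪ T p) := by
        intro s x y hxy
        have e1 := hread W f hf x y fun i hi => hxy i (mem_union_left _ hi)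
        have e2 := (hh p).2.1 x y fun i hi => hxy i (mem_union_right _ hi)
        beta_reduce at e1
        show s * (f (enc x) * h p x) = s * (f (enc y) * h p y)
        rw [e1, e2]
      have hzero : ∀ z, SatOn F (W.biUnion S ∪ T p) z → h p z = 0 := fun z hz =>
        (hh p).2.2 z fun i hi => hz i fun l => mem_union_right _ (hi l)
      have p1 := pe_local hL F hF _ hc _ (hr 1) fun z hs => by rw [hzero z hs]; simp
      have p2 := pe_local hL F hF _ hc _ (hr (-1)) fun z hs => by rw [hzero z hs]; simp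
      have e4 : (fun z => (-1 : ℝ) * (f (enc z) * h p z)) = -fun z => f (enc z) * h p z := by
        funext z
        rw [Pi.neg_apply, neg_one_mul]
      rw [e4, map_neg] at p2
      simp only [one_mul] at p1
      linarith
    show L (fun z => f (enc z) * ((setOf (enc z)).card : ℝ)) = k * L (fun z => f (enc z))
    have h1 : (fun z => f (enc z) * ((setOf (enc z)).card : ℝ)) =
        (k : ℝ) • (fun z => f (enc z)) + ∑ p, fun z => f (enc z) * h p z := by
      funext z
      rw [Pi.add_apply, Finset.sum_apply, hcard z, mul_add, mul_sum, Pi.smul_apply, smul_eq_mul,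
        mul_comm (k : ℝ)]
    rw [h1, map_add, map_smul, map_sum, Finset.sum_eq_zero fun p _ => hz p, add_zero, smul_eq_mul]
  · show L (fun z => (cut G (setOf (enc z)) : ℝ)) ≤ η * (d * k)
    have h1 : (fun z => (cut G (setOf (enc z)) : ℝ)) =
        (η * (d * k)) • (fun _ => (1 : ℝ)) - ∑ q, g q := by
      funext z
      rw [Pi.sub_apply, Finset.sum_apply, hcut z, Pi.smul_apply, smul_eq_mul, mul_one]
    rw [h1, map_sub, map_smul, map_sum, hL.1, smul_eq_mul, mul_one]
    have h2 : 0 ≤ ∑ q, L (g q) := Finset.sum_nonneg fun q _ =>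
      pe_local hL F hF (U q) ((hg q).1.trans hD1) (g q) (hg q).2.1 (hg q).2.2
    linarith

open scoped Classical in
/-- the size of local reductions -/
theorem local_size {I : Type} {c : ℕ} (hL : IsPseudoExpectation D0 L) (F : I → Clause c n)
    (hF : ∀ i, ∀ u : (Fin n → ZMod 2) → ℝ, (∀ x, (Satisfies x (F i) → u x = 0) ∧
      (¬ Satisfies x (F i) → u x = 1)) → L u = 0)
    (c0 : ℝ) (hc0 : 0 < c0) (hD0 : c0 * n ≤ D0) (hD : 1 ≤ D)
    (G : SimpleGraph V) (d k : ℕ) (η : ℝ) (hd : 1 ≤ d)
    (hG : ∀ v, (univ.filter fun w => G.Adj v w).card = d) (hk : 1 ≤ k)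
    (hkV : k ≤ Fintype.card V) (hη : 0 < η) (hη1 : η < 1 / 2) (hR : Represents F D G d k η)
    (hno : ∀ S : Finset V, S.card = k → (1 - η) * (d * k) ≤ cut G S) :
    (c0 / 304 * n * k / (D * Fintype.card V)) ^ (Real.log (1 / η) / (300 * η)) <
      Fintype.card V := by
  by_contra hcon
  push Not at hcon
  have hk0 : (0 : ℝ) < k := by exact_mod_cast hk
  have hDr : (0 : ℝ) < D := by exact_mod_cast hD
  have hN1 : (1 : ℝ) ≤ Fintype.card V := by
    have : 1 ≤ Fintype.card V := by omega
    exact_mod_cast this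
  have hN0 : (0 : ℝ) < Fintype.card V := by linarith
  have hlog0 : 0 < Real.log (1 / η) := by
    apply Real.log_pos
    rw [lt_div_iff₀ hη]
    linarith
  obtain ⟨b, hb⟩ : ∃ b : ℝ, b = c0 / 304 * n * k / (D * Fintype.card V) := ⟨_, rfl⟩
  obtain ⟨E, hE⟩ : ∃ E : ℝ, E = Real.log (1 / η) / (300 * η) := ⟨_, rfl⟩
  have hE0 : 0 < E := by rw [hE]; positivity
  rw [← hb, ← hE] at hcon
  have hb0 : 0 ≤ b := by rw [hb]; positivity
  have hpow : (Fintype.card V : ℝ) ^ (300 * η / Real.log (1 / η)) ≤ b := by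
    have h1 : 300 * η / Real.log (1 / η) = E⁻¹ := by rw [hE, inv_div]
    rw [h1]
    calc (Fintype.card V : ℝ) ^ E⁻¹ ≤ (b ^ E) ^ E⁻¹ :=
          Real.rpow_le_rpow hN0.le hcon (inv_nonneg.2 hE0.le)
      _ = b := Real.rpow_rpow_inv hb0 hE0.ne'
  have hb1 : 1 ≤ b := by
    refine le_trans ?_ hpow
    exact Real.one_le_rpow hN1 (by positivity)
  have hnk : (1 : ℝ) ≤ Fintype.card V / k := by
    rw [le_div_iff₀ hk0, one_mul]
    exact_mod_cast hkV
  obtain ⟨x, hx⟩ : ∃ x : ℝ, x = Fintype.card V / k * b := ⟨_, rfl⟩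
  have hx1 : 1 ≤ x := by rw [hx]; nlinarith
  have hxe : x * D = c0 * n / 304 := by
    rw [hx, hb]
    field_simp
  obtain ⟨r, hr⟩ : ∃ r : ℕ, r = ⌈300 * x⌉₊ := ⟨_, rfl⟩
  have hr1 : 300 * x ≤ r := by rw [hr]; exact Nat.le_ceil _
  have hr2 : (r : ℝ) < 300 * x + 1 := by rw [hr]; exact Nat.ceil_lt_add_one (by linarith)
  have hrD : (r + 2) * D ≤ D0 := by
    have h2 : (((r + 2) * D : ℕ) : ℝ) ≤ D0 := by
      push_cast
      have h3 : (r : ℝ) + 2 ≤ 304 * x := by linarith
      calc ((r : ℝ) + 2) * D ≤ 304 * x * D := mul_le_mul_of_nonneg_right h3 hDr.le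
        _ = c0 * n := by rw [mul_assoc, hxe]; ring
        _ ≤ D0 := hD0
    exact_mod_cast h2
  refine graph_gap hd hG hk hkV η hη hη1 hno r ?_ (sol_comp hL F hF G d k η hR r hrD)
  calc 300 * (Fintype.card V / k) * (Fintype.card V : ℝ) ^ (300 * η / Real.log (1 / η))
      ≤ 300 * (Fintype.card V / k) * b := mul_le_mul_of_nonneg_left hpow (by positivity)
    _ = 300 * x := by rw [hx]; ring
    _ ≤ r := hr1

end

end Pool.Agent.Y601.SSE
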