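import Mathlib

set_option autoImplicit false
set_option linter.unusedSectionVars false

/-!
Rounding of fractional sets: quadratic forms without diagonal.
-/

namespace Pool.Agent.Y601.SSE

open Finset

section

variable {V : Type} [Fintype V] [DecidableEq V]

/-- a quadratic form without diagonal attains its maximum over the cube at a vertex -/
theorem multi (Q : V → V → ℝ) (hQ : ∀ v, Q v v = 0) (c : ℝ)
    (h : ∀ S : Finset V, ∑ u ∈ S, ∑ v ∈ S, Q u v ≤ c) :
    ∀ (T : Finset V) (p : V → ℝ), (∀ v, 0 ≤ p v ∧ p v ≤ 1) → (∀ v, v ∉ T → p v = 0 ∨ p v = 1) →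
      ∑ u, ∑ v, Q u v * (p u * p v) ≤ c := by
  intro T
  induction T using Finset.induction_on with
  | empty =>
    intro p _ hp
    have h1 := h (univ.filter fun v => p v = 1)
    have h2 : ∀ v, p v = if p v = 1 then 1 else 0 := by
      intro v
      rcases hp v (notMem_empty v) with h3 | h3
      · rw [h3]; norm_num
      · rw [h3]; norm_num
    refine le_trans (le_of_eq ?_) h1
    rw [sum_filter]
    refine sum_congr rfl fun u _ => ?_
    by_cases hu : p u = 1
    · rw [if_pos hu, sum_filter]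
      refine sum_congr rfl fun v _ => ?_
      by_cases hv : p v = 1
      · rw [if_pos hv, hu, hv]; ring
      · rw [if_neg hv, (hp v (notMem_empty v)).resolve_right hv]; ring
    · rw [if_neg hu]
      refine sum_eq_zero fun v _ => ?_
      rw [(hp u (notMem_empty u)).resolve_right hu]
      ring
  | insert a T _ ih =>
    intro p hp01 hp
    have hup : ∀ t : ℝ, (0 ≤ t ∧ t ≤ 1) → (t = 0 ∨ t = 1) →
        ∑ u, ∑ v, Q u v * (Function.update p a t u * Function.update p a t v) ≤ c := by
      intro t ht ht2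
      refine ih _ (fun v => ?_) (fun v hv => ?_)
      · by_cases hva : v = a
        · subst hva
          rw [Function.update_self]; exact ht
        · rw [Function.update_of_ne hva]; exact hp01 v
      · by_cases hva : v = a
        · subst hva
          rw [Function.update_self]; exact ht2
        · rw [Function.update_of_ne hva]
          exact hp v (by rw [mem_insert]; push Not; exact ⟨hva, hv⟩)
    have h0 := hup 0 ⟨le_rfl, zero_le_one⟩ (Or.inl rfl)
    have h1 := hup 1 ⟨zero_le_one, le_rfl⟩ (Or.inr rfl)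
    have h2 : ∑ u, ∑ v, Q u v * (p u * p v) =
        (1 - p a) * ∑ u, ∑ v, Q u v * (Function.update p a 0 u * Function.update p a 0 v) +
        p a * ∑ u, ∑ v, Q u v * (Function.update p a 1 u * Function.update p a 1 v) := by
      rw [mul_sum, mul_sum, ← sum_add_distrib]
      refine sum_congr rfl fun u _ => ?_
      rw [mul_sum, mul_sum, ← sum_add_distrib]
      refine sum_congr rfl fun v _ => ?_
      by_cases hu : u = a
      · by_cases hv : v = a
        · rw [hu, hv, hQ]; ring
        · rw [hu, Function.update_self, Function.update_self, Function.update_of_ne hv,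
            Function.update_of_ne hv]
          ring
      · by_cases hv : v = a
        · rw [hv, Function.update_self, Function.update_self, Function.update_of_ne hu,
            Function.update_of_ne hu]
          ring
        · rw [Function.update_of_ne hv, Function.update_of_ne hv, Function.update_of_ne hu,
            Function.update_of_ne hu]
          ring
    rw [h2]
    have h3 := hp01 a
    have h4 := mul_le_mul_of_nonneg_left h0 (by linarith : 0 ≤ 1 - p a)
    have h5 := mul_le_mul_of_nonneg_left h1 h3.1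
    linarith

/-- weight inside a set -/
def ins (Q : V → V → ℝ) (S : Finset V) : ℝ := ∑ u ∈ S, ∑ v ∈ S, Q u v

theorem ins_mono {Q : V → V → ℝ} (h0 : ∀ u v, 0 ≤ Q u v) {S T : Finset V} (h : S ⊆ T) :
    ins Q S ≤ ins Q T := by
  unfold ins
  calc ∑ u ∈ S, ∑ v ∈ S, Q u v ≤ ∑ u ∈ S, ∑ v ∈ T, Q u v :=
        sum_le_sum fun u _ => sum_le_sum_of_subset_of_nonneg h fun v _ _ => h0 u v
    _ ≤ _ := sum_le_sum_of_subset_of_nonneg h fun u _ _ => sum_nonneg fun v _ => h0 u v

theorem ins_erase {Q : V → V → ℝ} (hs : ∀ u v, Q u v = Q v u) (hd : ∀ v, Q v v = 0)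
    {S : Finset V} {w : V} (hw : w ∈ S) : ins Q (S.erase w) = ins Q S - 2 * ∑ v ∈ S, Q w v := by
  unfold ins
  have h1 : ∀ u, ∑ v ∈ S, Q u v = ∑ v ∈ S.erase w, Q u v + Q u w := fun u =>
    (sum_erase_add S (fun v => Q u v) hw).symm
  have h2 : ∑ u ∈ S, ∑ v ∈ S, Q u v = ∑ u ∈ S.erase w, ∑ v ∈ S, Q u v + ∑ v ∈ S, Q w v :=
    (sum_erase_add S (fun u => ∑ v ∈ S, Q u v) hw).symm
  have h3 : ∑ u ∈ S.erase w, ∑ v ∈ S, Q u v =
      ∑ u ∈ S.erase w, ∑ v ∈ S.erase w, Q u v + ∑ u ∈ S.erase w, Q u w := by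
    rw [← sum_add_distrib]
    exact sum_congr rfl fun u _ => h1 u
  have h4 : ∑ u ∈ S.erase w, Q u w = ∑ v ∈ S, Q w v := by
    rw [h1 w, hd, add_zero]
    exact sum_congr rfl fun u _ => hs u w
  rw [h2, h3, h4]
  ring

theorem sum_ins_erase {Q : V → V → ℝ} (hs : ∀ u v, Q u v = Q v u) (hd : ∀ v, Q v v = 0)
    (S : Finset V) : ∑ w ∈ S, ins Q (S.erase w) = ((S.card : ℝ) - 2) * ins Q S := by
  have h1 : ∑ w ∈ S, ins Q (S.erase w) = ∑ w ∈ S, (ins Q S - 2 * ∑ v ∈ S, Q w v) :=
    sum_congr rfl fun w hw => ins_erase hs hd hw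
  rw [h1, sum_sub_distrib, sum_const, nsmul_eq_mul, ← mul_sum]
  unfold ins
  ring

/-- If all sets of size `k` are sparse, then larger sets are not much denser. -/
theorem large_sets {Q : V → V → ℝ} (hs : ∀ u v, Q u v = Q v u) (hd : ∀ v, Q v v = 0)
    (k : ℕ) (hk : 2 ≤ k) (η : ℝ) (hno : ∀ S : Finset V, S.card = k → ins Q S ≤ η * k) :
    ∀ (m : ℕ) (S : Finset V), S.card = k + m →
      ins Q S ≤ η / (k - 1) * ((S.card : ℝ) * (S.card - 1)) := by
  have hk1 : (0 : ℝ) < (k : ℝ) - 1 := by
    have : (2 : ℝ) ≤ k := by exact_mod_cast hk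
    linarith
  intro m
  induction m with
  | zero =>
    intro S hS
    rw [add_zero] at hS
    refine (hno S hS).trans (le_of_eq ?_)
    rw [hS]
    field_simp
  | succ m ih =>
    intro S hS
    have h1 := sum_ins_erase hs hd S
    have h2 : ∑ w ∈ S, ins Q (S.erase w) ≤
        ∑ _w ∈ S, η / (k - 1) * (((S.card : ℝ) - 1) * (S.card - 1 - 1)) := by
      refine sum_le_sum fun w hw => ?_
      have h3 : (S.erase w).card = k + m := by
        rw [card_erase_of_mem hw, hS]; omega
      have h4 := ih (S.erase w) h3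
      have h5 : ((S.erase w).card : ℝ) = (S.card : ℝ) - 1 := by
        rw [h3, hS]; push_cast; ring
      rw [h5] at h4
      exact h4
    rw [h1, sum_const, nsmul_eq_mul] at h2
    have h6 : (0 : ℝ) < (S.card : ℝ) - 2 := by
      rw [hS]
      push_cast
      have : (2 : ℝ) ≤ k := by exact_mod_cast hk
      have : (0 : ℝ) ≤ m := Nat.cast_nonneg m
      linarith
    have h7 : ((S.card : ℝ) - 2) * ins Q S ≤
        ((S.card : ℝ) - 2) * (η / (k - 1) * ((S.card : ℝ) * (S.card - 1))) := by
      refine h2.trans (le_of_eq ?_)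
      ring
    exact le_of_mul_le_mul_left h7 h6

/-- rounding a fractional set -/
theorem round {Q : V → V → ℝ} (h0 : ∀ u v, 0 ≤ Q u v) (hs : ∀ u v, Q u v = Q v u)
    (hd : ∀ v, Q v v = 0) (k : ℕ) (hk : 2 ≤ k) (hkV : k ≤ Fintype.card V) (η : ℝ) (hη : 0 ≤ η)
    (hno : ∀ S : Finset V, S.card = k → ins Q S ≤ η * k) (p : V → ℝ)
    (hp : ∀ v, 0 ≤ p v ∧ p v ≤ 1) (hsum : ∑ v, p v = k) :
    ∑ u, ∑ v, Q u v * (p u * p v) ≤ 3 * η * k := by
  have hk2 : (2 : ℝ) ≤ k := by exact_mod_cast hk
  have hk1 : (0 : ℝ) < (k : ℝ) - 1 := by linarith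
  obtain ⟨l, hl⟩ : ∃ l : ℝ, l = η / (k - 1) := ⟨_, rfl⟩
  have hl0 : 0 ≤ l := by rw [hl]; positivity
  have hcase : ∀ S : Finset V, ins Q S - l * ((S.card : ℝ) * (S.card - 1)) ≤ η * k := by
    intro S
    rcases le_total S.card k with h | h
    · obtain ⟨T, hST, hT⟩ := Finset.exists_superset_card_eq h hkV
      have h1 := (ins_mono h0 hST).trans (hno T hT)
      have h2 : 0 ≤ l * ((S.card : ℝ) * (S.card - 1)) := by
        refine mul_nonneg hl0 ?_
        rcases Nat.eq_zero_or_pos S.card with h3 | h3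
        · rw [h3]; simp
        · have : (1 : ℝ) ≤ S.card := by exact_mod_cast h3
          exact mul_nonneg (by linarith) (by linarith)
      linarith
    · have h1 := large_sets hs hd k hk η hno (S.card - k) S (by omega)
      rw [← hl] at h1
      have h2 : 0 ≤ η * k := by positivity
      linarith
  have h1 := multi (fun u v => Q u v - if u = v then 0 else l) (fun v => by simp [hd]) (η * k)
    (fun S => by
      refine le_trans (le_of_eq ?_) (hcase S)
      have e1 : ∀ u ∈ S, ∑ v ∈ S, (Q u v - if u = v then 0 else l) =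
          ∑ v ∈ S, Q u v - l * ((S.card : ℝ) - 1) := by
        intro u hu
        rw [sum_sub_distrib]
        congr 1
        have e2 : ∑ v ∈ S, (if u = v then (0 : ℝ) else l) = ∑ v ∈ S, (l - if u = v then l else 0) :=
          sum_congr rfl fun v _ => by split_ifs <;> ring
        rw [e2, sum_sub_distrib, sum_const, nsmul_eq_mul, sum_ite_eq, if_pos hu]
        ring
      rw [sum_congr rfl e1, sum_sub_distrib, sum_const, nsmul_eq_mul]
      unfold ins
      ring) univ p hp (fun v hv => absurd (mem_univ v) hv)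
  have h2 : ∑ u, ∑ v, (Q u v - if u = v then 0 else l) * (p u * p v) =
      ∑ u, ∑ v, Q u v * (p u * p v) - l * (k : ℝ) ^ 2 + l * ∑ u, p u ^ 2 := by
    have e1 : ∀ u, ∑ v, (Q u v - if u = v then 0 else l) * (p u * p v) =
        ∑ v, Q u v * (p u * p v) - l * (p u * ∑ v, p v) + l * p u ^ 2 := by
      intro u
      have e2 : ∀ v, (Q u v - if u = v then 0 else l) * (p u * p v) =
          Q u v * (p u * p v) - l * p u * p v + (if u = v then l * p u * p v else 0) := by
        intro v
        split_ifs <;> ring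
      simp_rw [e2]
      rw [sum_add_distrib, sum_sub_distrib, sum_ite_eq, if_pos (mem_univ _), ← mul_sum]
      ring
    simp_rw [e1]
    rw [sum_add_distrib, sum_sub_distrib, ← mul_sum, ← sum_mul, ← mul_sum, hsum]
    ring
  rw [h2] at h1
  have h3 : 0 ≤ l * ∑ u, p u ^ 2 := mul_nonneg hl0 (sum_nonneg fun u _ => sq_nonneg _)
  have h4 : l * (k : ℝ) ^ 2 ≤ 2 * η * k := by
    rw [hl, div_mul_eq_mul_div, div_le_iff₀ hk1]
    have : 0 ≤ η * k := by positivity
    nlinarith
  linarith

end

end Pool.Agent.Y601.SSE
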