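import Mathlib

set_option autoImplicit false
set_option linter.unusedSectionVars false

/-!
Powers of a symmetric matrix against a positive semidefinite matrix.
-/

namespace Pool.Agent.Y601.SSE

open Finset Matrix

section

variable {V : Type} [Fintype V] [DecidableEq V]

theorem trace_conj_nonneg {M A : Matrix V V ℝ} (hM : ∀ x : V → ℝ, 0 ≤ ∑ u, ∑ v, x u * M u v * x v)
    (hA : ∀ u v, A u v = A v u) : 0 ≤ trace (A * M * A) := by
  unfold trace
  refine sum_nonneg fun w _ => ?_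
  have h1 := hM (fun u => A u w)
  have h2 : (A * M * A).diag w = ∑ u, ∑ v, A u w * M u v * A v w := by
    rw [diag_apply, Matrix.mul_apply, sum_comm]
    refine sum_congr rfl fun v _ => ?_
    rw [Matrix.mul_apply, sum_mul]
    exact sum_congr rfl fun u _ => by rw [hA w u]
  rw [h2]
  exact h1

theorem pow_symm {K : Matrix V V ℝ} (hK : ∀ u v, K u v = K v u) (a : ℕ) :
    ∀ u v, (K ^ a) u v = (K ^ a) v u := by
  have h1 : Kᵀ = K := by
    ext u v
    rw [transpose_apply]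
    exact hK v u
  intro u v
  have h2 : (K ^ a)ᵀ = K ^ a := by rw [transpose_pow, h1]
  conv_lhs => rw [← h2]
  rfl

/-- the Cauchy-Schwarz inequality for the moments -/
theorem moment_sq {M K : Matrix V V ℝ} (hM : ∀ x : V → ℝ, 0 ≤ ∑ u, ∑ v, x u * M u v * x v)
    (hK : ∀ u v, K u v = K v u) (hT : 0 < trace M) (a : ℕ) :
    trace (M * K ^ a) ^ 2 ≤ trace M * trace (M * K ^ (2 * a)) := by
  obtain ⟨A, hA⟩ : ∃ A, A = K ^ a := ⟨_, rfl⟩
  have hAs : ∀ u v, A u v = A v u := by rw [hA]; exact pow_symm hK a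
  have hA2 : K ^ (2 * a) = A * A := by rw [hA, two_mul, pow_add]
  rw [hA2, ← hA]
  obtain ⟨T, hTd⟩ : ∃ T, T = trace M := ⟨_, rfl⟩
  obtain ⟨R, hR⟩ : ∃ R, R = trace (M * A) := ⟨_, rfl⟩
  obtain ⟨R2, hR2⟩ : ∃ R, R = trace (M * (A * A)) := ⟨_, rfl⟩
  have h1 := trace_conj_nonneg (M := M) (A := R • (1 : Matrix V V ℝ) - T • A) hM (by
    intro u v
    simp only [Matrix.sub_apply, Matrix.smul_apply, smul_eq_mul, hAs u v, Matrix.one_apply]
    congr 2
    by_cases h : u = v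
    · rw [if_pos h, if_pos h.symm]
    · rw [if_neg h, if_neg (fun e => h e.symm)])
  have h2 : (R • (1 : Matrix V V ℝ) - T • A) * M * (R • (1 : Matrix V V ℝ) - T • A) =
      (R * R) • M - (R * T) • (M * A) - (R * T) • (A * M) + (T * T) • (A * M * A) := by
    simp only [sub_mul, mul_sub, smul_mul_assoc, mul_smul_comm, one_mul, mul_one, smul_sub,
      smul_smul]
    rw [mul_comm T R]
    abel
  have h3 : trace (A * M) = R := by rw [trace_mul_comm, hR]
  have h4 : trace (A * M * A) = R2 := by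
    rw [trace_mul_comm, ← mul_assoc, trace_mul_comm, hR2]
  rw [h2, trace_add, trace_sub, trace_sub, trace_smul, trace_smul, trace_smul, trace_smul,
    h3, h4, ← hR, ← hTd] at h1
  simp only [smul_eq_mul] at h1
  rw [← hTd] at hT ⊢
  rw [← hR, ← hR2]
  have h5 : 0 ≤ T * (T * R2 - R ^ 2) := by
    have : T * (T * R2 - R ^ 2) = R * R * T - R * T * R - R * T * R + T * T * R2 := by ring
    rw [this]
    exact h1
  have h6 : 0 ≤ T * R2 - R ^ 2 := by
    by_contra hcon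
    push Not at hcon
    nlinarith
  linarith

theorem moment_pow {M K : Matrix V V ℝ} (hM : ∀ x : V → ℝ, 0 ≤ ∑ u, ∑ v, x u * M u v * x v)
    (hK : ∀ u v, K u v = K v u) (hT : 0 < trace M) (h0 : 0 ≤ trace (M * K)) (j : ℕ) :
    (trace (M * K) / trace M) ^ (2 ^ j) ≤ trace (M * K ^ (2 ^ j)) / trace M := by
  induction j with
  | zero => simp
  | succ j ih =>
    have h1 := moment_sq hM hK hT (2 ^ j)
    have h2 : (2 : ℕ) ^ (j + 1) = 2 * 2 ^ j := by rw [pow_succ, mul_comm]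
    rw [h2]
    have h3 : (trace (M * K) / trace M) ^ (2 * 2 ^ j) =
        ((trace (M * K) / trace M) ^ (2 ^ j)) ^ 2 := by rw [← pow_mul, mul_comm]
    rw [h3]
    have h4 : 0 ≤ (trace (M * K) / trace M) ^ (2 ^ j) := by positivity
    calc _ ≤ (trace (M * K ^ (2 ^ j)) / trace M) ^ 2 := pow_le_pow_left₀ h4 ih 2
      _ = trace (M * K ^ (2 ^ j)) ^ 2 / trace M ^ 2 := by rw [div_pow]
      _ ≤ (trace M * trace (M * K ^ (2 * 2 ^ j))) / trace M ^ 2 :=
          div_le_div_of_nonneg_right h1 (by positivity)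
      _ = _ := by field_simp

theorem frob_cs (M A : Matrix V V ℝ) (hA : ∀ u v, A u v = A v u) :
    trace (M * A) ^ 2 ≤ (∑ u, ∑ v, M u v ^ 2) * (∑ u, ∑ v, A u v ^ 2) := by
  have h1 : trace (M * A) = ∑ p : V × V, M p.1 p.2 * A p.1 p.2 := by
    rw [Fintype.sum_prod_type]
    unfold trace
    refine sum_congr rfl fun u _ => ?_
    rw [diag_apply, Matrix.mul_apply]
    exact sum_congr rfl fun v _ => by rw [hA u v]
  rw [h1, ← Fintype.sum_prod_type' (f := fun u v => M u v ^ 2),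
    ← Fintype.sum_prod_type' (f := fun u v => A u v ^ 2)]
  exact sum_mul_sq_le_sq_mul_sq _ _ _

/-- If `M` is spread out and the power `t = 2 ^ j` of `K` has small Frobenius norm, then the
correlation of `M` with `K` is at most `1 - τ`. -/
theorem spectral {M K : Matrix V V ℝ} (hM : ∀ x : V → ℝ, 0 ≤ ∑ u, ∑ v, x u * M u v * x v)
    (hK : ∀ u v, K u v = K v u) (hT : 0 < trace M) (j : ℕ) (ρ Z τ : ℝ) (hτ : τ ≤ 1)
    (hρ0 : 0 ≤ ρ) (hρ : ∑ u, ∑ v, M u v ^ 2 ≤ ρ * trace M ^ 2)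
    (hZ : ∑ u, ∑ v, (K ^ (2 ^ j)) u v ^ 2 ≤ Z) (h : ρ * Z ≤ (1 - τ) ^ (2 * 2 ^ j)) :
    trace (M * K) ≤ (1 - τ) * trace M := by
  by_contra hcon
  push Not at hcon
  have h0 : 0 ≤ trace (M * K) := le_trans (mul_nonneg (by linarith) hT.le) hcon.le
  have h1 : 1 - τ < trace (M * K) / trace M := by rwa [lt_div_iff₀ hT]
  have h2 : (1 - τ) ^ (2 * 2 ^ j) < (trace (M * K) / trace M) ^ (2 * 2 ^ j) :=
    pow_lt_pow_left₀ h1 (by linarith) (by positivity)
  have h3 : (trace (M * K) / trace M) ^ (2 * 2 ^ j) =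
      ((trace (M * K) / trace M) ^ (2 ^ j)) ^ 2 := by rw [← pow_mul, mul_comm]
  have h4 : ((trace (M * K) / trace M) ^ (2 ^ j)) ^ 2 ≤
      (trace (M * K ^ (2 ^ j)) / trace M) ^ 2 :=
    pow_le_pow_left₀ (by positivity) (moment_pow hM hK hT h0 j) 2
  have h5 := frob_cs M (K ^ (2 ^ j)) (pow_symm hK _)
  have hZ0 : 0 ≤ ∑ u, ∑ v, (K ^ (2 ^ j)) u v ^ 2 :=
    sum_nonneg fun u _ => sum_nonneg fun v _ => sq_nonneg _
  have h6 : (∑ u, ∑ v, M u v ^ 2) * (∑ u, ∑ v, (K ^ (2 ^ j)) u v ^ 2) ≤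
      ρ * trace M ^ 2 * Z := mul_le_mul hρ hZ hZ0 (by positivity)
  have h7 : (trace (M * K ^ (2 ^ j)) / trace M) ^ 2 ≤ ρ * Z := by
    rw [div_pow, div_le_iff₀ (by positivity)]
    linarith
  linarith

end

end Pool.Agent.Y601.SSE
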