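import Pool.Agent.Y601.SSE.Decay
import Pool.Agent.Y601.SSE.Trace
import Pool.Agent.Y601.SSE.Hier
import Pool.Agent.Y601.SSE.Round

set_option autoImplicit false
set_option linter.unusedSectionVars false

/-!
Small-set expansion and the mixed hierarchy: the main argument.
-/

namespace Pool.Agent.Y601.SSE

open Finset Matrix

section

variable {V : Type} [Fintype V] [DecidableEq V]

/-- the kernel without the weights inside `B` -/
def del (Q : V → V → ℝ) (B : Finset V) : V → V → ℝ :=
  fun u v => if u ∈ B ∧ v ∈ B then 0 else Q u v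

theorem del_le {Q : V → V → ℝ} (h0 : ∀ u v, 0 ≤ Q u v) (B : Finset V) (u v : V) :
    del Q B u v ≤ Q u v := by
  unfold del
  split_ifs
  · exact h0 u v
  · exact le_rfl

theorem del_nonneg {Q : V → V → ℝ} (h0 : ∀ u v, 0 ≤ Q u v) (B : Finset V) (u v : V) :
    0 ≤ del Q B u v := by
  unfold del
  split_ifs
  · exact le_rfl
  · exact h0 u v

theorem ker_del {Q : V → V → ℝ} (hQ : Ker Q) (B : Finset V) : Ker (del Q B) := by
  refine ⟨fun u v => ?_, del_nonneg hQ.nonneg B, fun u => ?_⟩
  · unfold del
    by_cases h : u ∈ B ∧ v ∈ B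
    · rw [if_pos h, if_pos ⟨h.2, h.1⟩]
    · rw [if_neg h, if_neg (fun h' => h ⟨h'.2, h'.1⟩), hQ.symm]
  · exact (sum_le_sum fun v _ => del_le hQ.nonneg B u v).trans (hQ.row u)

theorem ins_del {Q : V → V → ℝ} {B T : Finset V} (h : B ⊆ T) :
    ins (del Q B) T = ins Q T - ins Q B := by
  have h1 : ∀ u v, del Q B u v = Q u v - if u ∈ B then (if v ∈ B then Q u v else 0) else 0 := by
    intro u v
    unfold del
    by_cases hu : u ∈ B <;> by_cases hv : v ∈ B <;> simp [hu, hv]
  unfold ins
  simp_rw [h1, sum_sub_distrib]
  congr 1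
  have h2 : ∀ u ∈ T, ∑ v ∈ T, (if u ∈ B then (if v ∈ B then Q u v else 0) else 0) =
      if u ∈ B then ∑ v ∈ B, Q u v else 0 := by
    intro u _
    by_cases hu : u ∈ B
    · simp only [hu, if_true]
      rw [← sum_filter]
      congr 1
      ext v
      rw [mem_filter]
      exact ⟨fun hv => hv.2, fun hv => ⟨h hv, hv⟩⟩
    · simp [hu]
  rw [sum_congr rfl h2, ← sum_filter]
  congr 1
  ext v
  rw [mem_filter]
  exact ⟨fun hv => hv.2, fun hv => ⟨h hv, hv⟩⟩

/-- removing the weights inside one set makes all small sets sparse -/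
theorem exists_del {Q : V → V → ℝ} (hQ : Ker Q) (k : ℕ) (hkV : k ≤ Fintype.card V) (η : ℝ)
    (hη : 0 < η) (hno : ∀ S : Finset V, S.card = k → ins Q S ≤ η * k) :
    ∃ B : Finset V, ins Q B ≤ η * k ∧ ∀ S : Finset V, 2 * (S.card : ℝ) ≤ k →
      ins (del Q B) S ≤ 2 * η * S.card := by
  classical
  have hsmall : ∀ S : Finset V, S.card ≤ k → ins Q S ≤ η * k := by
    intro S hS
    obtain ⟨T, hST, hT⟩ := Finset.exists_superset_card_eq hS hkV
    exact (ins_mono hQ.nonneg hST).trans (hno T hT)
  obtain ⟨F, hF⟩ : ∃ F : Finset (Finset V), F = univ.filter fun B =>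
    B.card ≤ k ∧ 2 * η * B.card ≤ ins Q B := ⟨_, rfl⟩
  have hne : F.Nonempty := ⟨∅, by rw [hF, mem_filter]; simp [ins]⟩
  obtain ⟨B, hB, hmax⟩ := Finset.exists_max_image F Finset.card hne
  rw [hF, mem_filter] at hB
  obtain ⟨-, hBk, hBd⟩ := hB
  have hB1 := hsmall B hBk
  have hB2 : 2 * (B.card : ℝ) ≤ k := by
    have : η * (2 * (B.card : ℝ)) ≤ η * k := by linarith
    exact le_of_mul_le_mul_left this hη
  refine ⟨B, hB1, fun S hS => ?_⟩
  have hmono : ins (del Q B) S ≤ ins (del Q B) (B ∪ S) :=
    ins_mono (del_nonneg hQ.nonneg B) subset_union_right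
  by_cases hSB : S ⊆ B
  · have h1 : ins (del Q B) S = 0 := by
      unfold ins
      refine sum_eq_zero fun u hu => sum_eq_zero fun v hv => ?_
      unfold del
      rw [if_pos ⟨hSB hu, hSB hv⟩]
    rw [h1]
    positivity
  · have hcard : B.card < (B ∪ S).card := by
      apply card_lt_card
      rw [Finset.ssubset_iff_subset_ne]
      refine ⟨subset_union_left, fun h => hSB ?_⟩
      rw [h]
      exact subset_union_right
    have hcard2 : (B ∪ S).card ≤ k := by
      have h1 := card_union_le B S
      have h2 : ((B ∪ S).card : ℝ) ≤ k := by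
        have h3 : ((B ∪ S).card : ℝ) ≤ B.card + S.card := by exact_mod_cast h1
        linarith
      exact_mod_cast h2
    have h1 : ins Q (B ∪ S) < 2 * η * (B ∪ S).card := by
      by_contra hcon
      push Not at hcon
      have h2 : B ∪ S ∈ F := by
        rw [hF, mem_filter]
        exact ⟨mem_univ _, hcard2, hcon⟩
      have h3 := hmax _ h2
      omega
    have h2 : ins (del Q B) (B ∪ S) = ins Q (B ∪ S) - ins Q B := ins_del subset_union_left
    have h3 : ((B ∪ S).card : ℝ) ≤ B.card + S.card := by exact_mod_cast card_union_le B S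
    have h4 : 2 * η * ((B ∪ S).card : ℝ) ≤ 2 * η * (B.card + S.card) :=
      mul_le_mul_of_nonneg_left h3 (by positivity)
    linarith

theorem val_eq {K : V → V → ℝ} (L : ((V → Bool) → ℝ) →ₗ[ℝ] ℝ) :
    val K L = ∑ u, ∑ v, K u v * (pr L u * pr L v) + ∑ u, ∑ v, K u v * cov L u v := by
  unfold val
  rw [← sum_add_distrib]
  refine sum_congr rfl fun u _ => ?_
  rw [← sum_add_distrib]
  refine sum_congr rfl fun v _ => ?_
  unfold cov
  ring

theorem cov_le {k : ℝ} {r : ℕ} {L : ((V → Bool) → ℝ) →ₗ[ℝ] ℝ} (hL : Lev k r L) (u v : V) :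
    2 * cov L u v ≤ cov L u u + cov L v v := by
  by_cases huv : u = v
  · subst huv; linarith
  have h5 := cov_psd hL (fun w => if w = u then 1 else if w = v then -1 else 0)
  have h6 : ∑ w, ∑ z, (if w = u then 1 else if w = v then (-1 : ℝ) else 0) * cov L w z *
      (if z = u then 1 else if z = v then -1 else 0) =
      cov L u u - 2 * cov L u v + cov L v v := by
    have hin : ∀ w, ∑ z, (if w = u then 1 else if w = v then (-1 : ℝ) else 0) *
        cov L w z * (if z = u then 1 else if z = v then -1 else 0) =
        (if w = u then 1 else if w = v then (-1 : ℝ) else 0) *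
          (cov L w u - cov L w v) := by
      intro w
      have e1 : ∀ z, (if w = u then 1 else if w = v then (-1 : ℝ) else 0) *
          cov L w z * (if z = u then 1 else if z = v then -1 else 0) =
          (if w = u then 1 else if w = v then (-1 : ℝ) else 0) *
            ((if z = u then cov L w u else 0) - (if z = v then cov L w v else 0)) := by
        intro z
        by_cases hzu : z = u
        · subst hzu
          simp [huv]
        · by_cases hzv : z = v
          · subst hzv
            simp [hzu]
          · simp [hzu, hzv]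
      simp_rw [e1]
      rw [← mul_sum, sum_sub_distrib]
      simp
    simp_rw [hin]
    have e2 : ∀ w, (if w = u then 1 else if w = v then (-1 : ℝ) else 0) *
        (cov L w u - cov L w v) =
        (if w = u then (cov L u u - cov L u v) else 0) -
          (if w = v then cov L v u - cov L v v else 0) := by
      intro w
      by_cases hwu : w = u
      · subst hwu
        simp [huv]
      · by_cases hwv : w = v
        · subst hwv
          simp [hwu]
        · simp [hwu, hwv]
    simp_rw [e2]
    rw [sum_sub_distrib]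
    simp only [sum_ite_eq', mem_univ, if_true]
    rw [cov_symm v u]
    ring
  rw [h6] at h5
  linarith

/-- small total variance -/
theorem kcov_le {K : V → V → ℝ} (hK : Ker K) {k : ℝ} {r : ℕ} {L : ((V → Bool) → ℝ) →ₗ[ℝ] ℝ}
    (hL : Lev k r L) : ∑ u, ∑ v, K u v * cov L u v ≤ tv L := by
  have hnn : ∀ u, 0 ≤ cov L u u := fun u => by
    rw [cov_self]
    exact mul_nonneg (pr_nonneg hL u) (by linarith [pr_le_one hL u])
  have h1 : ∑ u, ∑ v, K u v * cov L u v ≤
      ∑ u, ∑ v, (K u v * cov L u u / 2 + K v u * cov L v v / 2) := by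
    refine sum_le_sum fun u _ => sum_le_sum fun v _ => ?_
    have h2 := mul_le_mul_of_nonneg_left (cov_le hL u v) (hK.nonneg u v)
    rw [hK.symm v u]
    linarith
  refine h1.trans ?_
  have h3 : ∑ u, ∑ v, (K u v * cov L u u / 2 + K v u * cov L v v / 2) =
      ∑ u, (∑ v, K u v) * cov L u u := by
    simp_rw [sum_add_distrib]
    have h4 : ∑ u, ∑ v, K v u * cov L v v / 2 = ∑ u, ∑ v, K u v * cov L u u / 2 := sum_comm
    rw [h4, ← sum_add_distrib]
    refine sum_congr rfl fun u _ => ?_
    rw [sum_mul, ← sum_add_distrib]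
    exact sum_congr rfl fun v _ => by ring
  rw [h3]
  unfold tv
  refine sum_le_sum fun u _ => ?_
  have := mul_le_mul_of_nonneg_right (hK.row u) (hnn u)
  linarith

/-- No solution of value `β` if all sets of size `k` have density at most `θ`. -/
theorem core {Q : V → V → ℝ} (hQ : Ker Q) (hd : ∀ v, Q v v = 0) (k : ℕ) (hk : 2 ≤ k)
    (hkV : k ≤ Fintype.card V) (θ β l c : ℝ) (hθ : 0 < θ) (hθ1 : θ ≤ 1 / 64)
    (hl : 0 < l) (hc : 0 < c) (hβ : l + c + 4 * θ < β)
    (hno : ∀ S : Finset V, S.card = k → ins Q S ≤ θ * k) (N j : ℕ) (D : ℝ) (hD : 0 < D)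
    (hj : (16 * θ) ^ (2 ^ j) * Fintype.card V ≤ 1)
    (hD1 : 23 * Fintype.card V * D ≤ k * l ^ (2 * 2 ^ j + 1))
    (hN : 1 + (1 - β + θ) / c ≤ N * D)
    (L : ((V → Bool) → ℝ) →ₗ[ℝ] ℝ) (hL : Lev k N L) (hval : β * k ≤ val Q L) : False := by
  have hk0 : (0 : ℝ) < k := by
    have : (2 : ℝ) ≤ k := by exact_mod_cast hk
    linarith
  have hnk : (k : ℝ) ≤ Fintype.card V := by exact_mod_cast hkV
  obtain ⟨B, hB, hden⟩ := exists_del hQ k hkV θ hθ hno
  have hK := ker_del hQ B
  -- the value
  have hvalK : (β - θ) * k ≤ val (del Q B) L := by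
    have h1 : val Q L ≤ val (del Q B) L + ins Q B := by
      have h2 : ins Q B = ∑ u, ∑ v, (if u ∈ B then (if v ∈ B then Q u v else 0) else 0) := by
        unfold ins
        rw [← sum_filter_add_sum_filter_not univ (fun u => u ∈ B)]
        have e5 : ∑ x with x ∉ B, ∑ v, (if x ∈ B then (if v ∈ B then Q x v else 0) else 0) = 0 := by
          refine sum_eq_zero fun x hx => ?_
          rw [mem_filter] at hx
          simp [hx.2]
        rw [e5, add_zero]
        have e6 : (univ.filter fun i => i ∈ B) = B := by ext; simp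
        rw [e6]
        refine sum_congr rfl fun u hu => ?_
        simp only [hu, if_true]
        rw [sum_ite_mem, univ_inter]
      rw [h2]
      unfold val
      rw [← sum_add_distrib]
      refine sum_le_sum fun u _ => ?_
      rw [← sum_add_distrib]
      refine sum_le_sum fun v _ => ?_
      have h3 : m2 L u v ≤ 1 := (m2_le hL u v).trans (pr_le_one hL u)
      have h4 := m2_nonneg hL u v
      have h5 := hQ.nonneg u v
      unfold del
      by_cases hu : u ∈ B <;> by_cases hv : v ∈ B <;> simp [hu, hv]
      nlinarith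
    linarith
  have hE : 0 < c * k := by positivity
  have hpot : pot (del Q B) k (c * k) L ≤ 1 + (1 - β + θ) / c := by
    unfold pot
    have h1 : tv L / k ≤ 1 := by
      rw [div_le_one hk0]
      exact tv_le hL
    have h2 : (k - val (del Q B) L) / (c * k) ≤ (1 - β + θ) / c := by
      rw [div_le_div_iff₀ hE hc]
      nlinarith
    linarith
  obtain ⟨L', hL', hpot', hstop⟩ := iterate hK.nonneg hK.row k (c * k) D _ hk0 hE N L hL hpot
    (hpot.trans hN)
  have hval' : (β - θ - c) * k ≤ val (del Q B) L' := by
    unfold pot at hpot'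
    have h1 : 0 ≤ tv L' / k := div_nonneg (tv_nonneg hL') hk0.le
    have h2 : (k - val (del Q B) L') / (c * k) ≤ 1 + (1 - β + θ) / c := by linarith
    rw [div_le_iff₀ hE] at h2
    have h3 : (1 + (1 - β + θ) / c) * (c * k) = (c + (1 - β + θ)) * k := by
      field_simp
    rw [h3] at h2
    linarith
  -- rounding
  have hround : ∑ u, ∑ v, del Q B u v * (pr L' u * pr L' v) ≤ 3 * θ * k := by
    refine le_trans (sum_le_sum fun u _ => sum_le_sum fun v _ => ?_)
      (round hQ.nonneg hQ.symm hd k hk hkV θ hθ.le hno (pr L')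
        (fun v => ⟨pr_nonneg hL' v, pr_le_one hL' v⟩) (sum_pr hL'))
    exact mul_le_mul_of_nonneg_right (del_le hQ.nonneg B u v)
      (mul_nonneg (pr_nonneg hL' u) (pr_nonneg hL' v))
  rw [val_eq] at hval'
  have hkc : ∑ u, ∑ v, del Q B u v * cov L' u v ≤ l * k := by
    rcases le_or_gt (tv L') (l * k) with hsm | hbig
    · exact (kcov_le hK hL').trans hsm
    · have ht0 : 0 < tv L' := lt_trans (by positivity) hbig
      have h1 : ∑ u, ∑ v, cov L' u v ^ 2 < D * k * tv L' := by
        rcases hstop with h | h
        · linarith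
        · exact h
      have htr : trace (Matrix.of (cov L')) = tv L' := rfl
      have h2 : ∑ u, ∑ v, (Matrix.of (cov L')) u v ^ 2 ≤
          D / l * trace (Matrix.of (cov L')) ^ 2 := by
        rw [htr]
        refine h1.le.trans ?_
        have h3 : (k : ℝ) ≤ tv L' / l := by
          rw [le_div_iff₀ hl]
          linarith
        have : D * k * tv L' ≤ D * (tv L' / l) * tv L' :=
          mul_le_mul_of_nonneg_right (mul_le_mul_of_nonneg_left h3 hD.le) ht0.le
        refine this.trans (le_of_eq ?_)
        ring
      have hs : Real.sqrt θ ^ 2 = θ := Real.sq_sqrt hθ.le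
      have h3 := frob hK (k : ℝ) (Real.sqrt θ) hk0 (Real.sqrt_pos.2 hθ) (by rw [hs]; linarith)
        (by rw [hs]; exact hden) (2 ^ j)
      rw [hs] at h3
      have h4 : (Fintype.card V : ℝ) * ((16 * θ) ^ (2 ^ j) + 22 / k) ≤
          23 * Fintype.card V / k := by
        have h5 : (1 : ℝ) ≤ Fintype.card V / k := by
          rw [le_div_iff₀ hk0]; linarith
        have h6 : (Fintype.card V : ℝ) * ((16 * θ) ^ (2 ^ j) + 22 / k) =
            (16 * θ) ^ (2 ^ j) * Fintype.card V + 22 * (Fintype.card V / k) := by ring
        have h7 : 23 * (Fintype.card V : ℝ) / k = 23 * (Fintype.card V / k) := by ring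
        rw [h6, h7]
        linarith
      have h5 : D / l * (23 * Fintype.card V / k) ≤ (1 - (1 - l)) ^ (2 * 2 ^ j) := by
        have e1 : D / l * (23 * (Fintype.card V : ℝ) / k) = 23 * Fintype.card V * D / (l * k) := by
          field_simp
        rw [e1, div_le_iff₀ (by positivity)]
        refine hD1.trans (le_of_eq ?_)
        rw [sub_sub_cancel, pow_succ]
        ring
      have h6 := spectral (M := Matrix.of (cov L')) (K := Matrix.of (del Q B)) (cov_psd hL')
        hK.symm (by rw [htr]; exact ht0) j (D / l) (23 * Fintype.card V / k) (1 - l)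
        (by linarith) (by positivity) h2 (h3.trans h4) h5
      rw [htr, sub_sub_cancel] at h6
      have h7 : trace (Matrix.of (cov L') * Matrix.of (del Q B)) =
          ∑ u, ∑ v, del Q B u v * cov L' u v := by
        unfold trace
        refine sum_congr rfl fun u _ => ?_
        rw [diag_apply, Matrix.mul_apply]
        refine sum_congr rfl fun v _ => ?_
        rw [of_apply, of_apply, hK.symm v u]
        ring
      rw [h7] at h6
      have h8 := tv_le hL'
      have h9 : l * tv L' ≤ l * k := mul_le_mul_of_nonneg_left h8 hl.le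
      linarith
  have h10 : (β - θ - c) * k ≤ (3 * θ + l) * k := by linarith
  have h11 := le_of_mul_le_mul_right h10 hk0
  linarith

/-- sets of size one -/
theorem one_case {Q : V → V → ℝ} (hd : ∀ v, Q v v = 0) (r : ℕ)
    (L : ((V → Bool) → ℝ) →ₗ[ℝ] ℝ) (hL : Lev 1 (r + 1) L) : val Q L = 0 := by
  unfold val
  refine sum_eq_zero fun u _ => sum_eq_zero fun v _ => ?_
  by_cases huv : v = u
  · rw [huv, hd, zero_mul]
  · have h1 := hL.size {u} (by simp) (In u true) (dep_in u true (by simp))
    have h2 : L (fun x => In u true x * ∑ v, In v true x) = ∑ v, m2 L u v := by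
      unfold m2
      rw [← map_sum]
      congr 1
      funext x
      rw [Finset.sum_apply, mul_sum]
    rw [h2, one_mul] at h1
    have h3 : ∑ w ∈ univ.erase u, m2 L u w = 0 := by
      have h4 := sum_erase_add univ (fun w => m2 L u w) (mem_univ u)
      rw [m2_self] at h4
      have h5 : L (In u true) = pr L u := rfl
      linarith
    have h4 := (sum_eq_zero_iff_of_nonneg (fun w _ => m2_nonneg hL u w)).1 h3 v
      (mem_erase.2 ⟨huv, mem_univ _⟩)
    rw [h4, mul_zero]

/-- full level -/
theorem full_case {Q : V → V → ℝ} (k : ℕ) (η : ℝ) (hη : η < 1 / 2) (hk : 1 ≤ k)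
    (hno : ∀ S : Finset V, S.card = k → ins Q S ≤ η * k) (r : ℕ)
    (hr : Fintype.card V ≤ r) (L : ((V → Bool) → ℝ) →ₗ[ℝ] ℝ) (hL : Lev k r L)
    (hval : (1 - η) * k ≤ val Q L) : False := by
  classical
  have hk0 : (0 : ℝ) < k := by exact_mod_cast hk
  have hdep : ∀ f : (V → Bool) → ℝ, Dep univ f := by
    intro f x y h
    have : x = y := funext fun v => h v (mem_univ v)
    rw [this]
  have hpos : ∀ f : (V → Bool) → ℝ, (∀ x, 0 ≤ f x) → 0 ≤ L f := fun f hf =>
    hL.junta univ (by rw [card_univ]; omega) f (hdep f) hf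
  have hsz : ∀ g : (V → Bool) → ℝ, L (fun x => g x * ∑ v, In v true x) = k * L g := fun g =>
    hL.size univ (by rw [card_univ]; omega) g (hdep g)
  have hc : ∀ x : V → Bool, ∑ v, In v true x = ((univ.filter fun v => x v = true).card : ℝ) := by
    intro x
    unfold In
    rw [← sum_filter, sum_const, nsmul_eq_mul, mul_one]
  -- the bad labellings have weight zero
  have hbad : L (fun x => if (univ.filter fun v => x v = true).card = k then 0 else 1) = 0 := by
    have h1 := hsz (fun x => if (univ.filter fun v => x v = true).card = k then 0 else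
      1 / (((univ.filter fun v => x v = true).card : ℝ) - k))
    have h2 : (fun x : V → Bool => if (univ.filter fun v => x v = true).card = k then (0 : ℝ)
        else 1) = (fun x => (if (univ.filter fun v => x v = true).card = k then 0 else
        1 / (((univ.filter fun v => x v = true).card : ℝ) - k)) * ∑ v, In v true x) -
        (k : ℝ) • (fun x => if (univ.filter fun v => x v = true).card = k then (0 : ℝ) else
        1 / (((univ.filter fun v => x v = true).card : ℝ) - k)) := by
      funext x
      simp only [Pi.sub_apply, Pi.smul_apply, smul_eq_mul]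
      rw [hc]
      by_cases h : (univ.filter fun v => x v = true).card = k
      · simp [h]
      · rw [if_neg h, if_neg h]
        have h3 : ((univ.filter fun v => x v = true).card : ℝ) - k ≠ 0 := by
          intro h4
          apply h
          have : ((univ.filter fun v => x v = true).card : ℝ) = k := by linarith
          exact_mod_cast this
        field_simp
    rw [h2, map_sub, map_smul, h1, smul_eq_mul, sub_self]
  -- the value is an average
  obtain ⟨C, hC⟩ : ∃ C : ℝ, C = ∑ u, ∑ v, |Q u v| := ⟨_, rfl⟩
  have h1 : 0 ≤ L (fun x => η * k + (C + |η * k|) *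
      (if (univ.filter fun v => x v = true).card = k then 0 else 1) -
      ∑ u, ∑ v, Q u v * (In u true x * In v true x)) := by
    refine hpos _ fun x => ?_
    have h2 : ∑ u, ∑ v, Q u v * (In u true x * In v true x) =
        ins Q (univ.filter fun v => x v = true) := by
      have e1 : ∀ u v, Q u v * (In u true x * In v true x) =
          if x u = true then (if x v = true then Q u v else 0) else 0 := by
        intro u v
        unfold In
        by_cases hu : x u = true <;> by_cases hv : x v = true <;> simp [hu, hv]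
      simp_rw [e1]
      unfold ins
      rw [sum_filter]
      refine sum_congr rfl fun u _ => ?_
      by_cases hu : x u = true
      · simp only [hu, if_true]
        rw [sum_filter]
      · simp [hu]
    by_cases h : (univ.filter fun v => x v = true).card = k
    · rw [h2, if_pos h]
      have := hno _ h
      linarith
    · rw [if_neg h]
      have h3 : ∑ u, ∑ v, Q u v * (In u true x * In v true x) ≤ C := by
        rw [hC]
        refine sum_le_sum fun u _ => sum_le_sum fun v _ => ?_
        have h4 : In u true x * In v true x ≤ 1 :=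
          mul_le_one₀ (in_le_one u true x) (in_nonneg v true x) (in_le_one v true x)
        have h5 : 0 ≤ In u true x * In v true x :=
          mul_nonneg (in_nonneg u true x) (in_nonneg v true x)
        calc Q u v * (In u true x * In v true x) ≤ |Q u v| * (In u true x * In v true x) :=
              mul_le_mul_of_nonneg_right (le_abs_self _) h5
          _ ≤ |Q u v| * 1 := mul_le_mul_of_nonneg_left h4 (abs_nonneg _)
          _ = |Q u v| := mul_one _
      have h4 := neg_abs_le (η * k)
      linarith
  have h2 : (fun x : V → Bool => η * k + (C + |η * k|) *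
      (if (univ.filter fun v => x v = true).card = k then (0 : ℝ) else 1) -
      ∑ u, ∑ v, Q u v * (In u true x * In v true x)) =
      (η * k) • (fun _ => (1 : ℝ)) + (C + |η * k|) •
      (fun x : V → Bool => if (univ.filter fun v => x v = true).card = k then (0 : ℝ) else 1) -
      ∑ u, ∑ v, Q u v • (fun x => In u true x * In v true x) := by
    funext x
    simp only [Pi.sub_apply, Pi.add_apply, Pi.smul_apply, smul_eq_mul, Finset.sum_apply, mul_one]
  rw [h2, map_sub, map_add, map_smul, map_smul, hL.one, hbad, map_sum] at h1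
  simp only [map_sum, map_smul, smul_eq_mul] at h1
  have h3 : ∑ u, ∑ v, Q u v * L (fun x => In u true x * In v true x) = val Q L := rfl
  rw [h3] at h1
  nlinarith

end

end Pool.Agent.Y601.SSE
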