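import Pool.Agent.Y601.SSE.Main

set_option autoImplicit false
set_option linter.unusedSectionVars false

/-!
Small-set expansion and the mixed hierarchy: the parameters.
-/

namespace Pool.Agent.Y601.SSE

open Finset

section

variable {V : Type} [Fintype V] [DecidableEq V]

theorem exists_pow2 (x : ℝ) : ∃ j : ℕ, x ≤ 2 ^ j ∧ (2 : ℝ) ^ j ≤ 1 + 2 * max x 0 := by
  rcases le_or_gt x 1 with h | h
  · refine ⟨0, by simpa using h, ?_⟩
    have := le_max_right x 0
    simp
  · obtain ⟨n, h1, h2⟩ := exists_nat_pow_near h.le (one_lt_two)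
    refine ⟨n + 1, h2.le, ?_⟩
    have := le_max_left x 0
    rw [pow_succ]
    linarith

theorem gen {Q : V → V → ℝ} (hQ : Ker Q) (hd : ∀ v, Q v v = 0) (k : ℕ) (hk : 1 ≤ k)
    (hkV : k ≤ Fintype.card V) (ε η : ℝ) (hε : 0 ≤ ε) (hη : 0 < η) (hη1 : η ≤ 1 / 64)
    (hεη : ε + 5 * η < 1) (hno : ∀ S : Finset V, S.card = k → ins Q S ≤ η * k) (N : ℕ)
    (hN : (69 + 46 * (ε / η)) * (Fintype.card V / k) * (1 / (1 - ε - 5 * η)) ^ 3 *
      (Fintype.card V : ℝ) ^ (4 * Real.log (1 / (1 - ε - 5 * η)) / Real.log (1 / (16 * η))) ≤ N)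
    (L : ((V → Bool) → ℝ) →ₗ[ℝ] ℝ) (hL : Lev k N L) (hval : (1 - ε) * k ≤ val Q L) : False := by
  have hk0 : (0 : ℝ) < k := by exact_mod_cast hk
  have hn0 : (0 : ℝ) < Fintype.card V := by
    have : 0 < Fintype.card V := by omega
    exact_mod_cast this
  have hn1 : (1 : ℝ) ≤ Fintype.card V := by
    have : 1 ≤ Fintype.card V := by omega
    exact_mod_cast this
  obtain ⟨l, hl⟩ : ∃ l : ℝ, l = 1 - ε - 5 * η := ⟨_, rfl⟩
  have hl0 : 0 < l := by linarith
  have hl1 : l ≤ 1 := by linarith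
  rw [← hl] at hN
  obtain ⟨a, ha⟩ : ∃ a : ℝ, a = Real.log (1 / (16 * η)) := ⟨_, rfl⟩
  rw [← ha] at hN
  have ha0 : 0 < a := by
    rw [ha]
    apply Real.log_pos
    rw [lt_div_iff₀ (by positivity)]
    linarith
  have hll : 0 ≤ Real.log (1 / l) := Real.log_nonneg (by rw [le_div_iff₀ hl0]; linarith)
  have h1l : 1 ≤ 1 / l := by rw [le_div_iff₀ hl0]; linarith
  have hεη0 : 0 ≤ ε / η := by positivity
  have hNpos : 1 ≤ N := by
    have h1 : (0 : ℝ) < N := lt_of_lt_of_le (by positivity) hN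
    have : 0 < N := by exact_mod_cast h1
    omega
  rcases Nat.lt_or_ge k 2 with hk2 | hk2
  · have hk1 : k = 1 := by omega
    subst hk1
    obtain ⟨r, rfl⟩ : ∃ r, N = r + 1 := ⟨N - 1, by omega⟩
    have h1 := one_case (Q := Q) hd r L (by simpa using hL)
    rw [h1] at hval
    push_cast at hval
    linarith
  obtain ⟨x, hx⟩ : ∃ x : ℝ, x = Real.log (Fintype.card V) / a := ⟨_, rfl⟩
  have hx0 : 0 ≤ x := by rw [hx]; exact div_nonneg (Real.log_nonneg hn1) ha0.le
  obtain ⟨j, hj1, hj2⟩ := exists_pow2 x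
  rw [max_eq_left hx0] at hj2
  -- the power `2 ^ j`
  have hj : (16 * η) ^ (2 ^ j) * Fintype.card V ≤ 1 := by
    rw [← Real.log_nonpos_iff (by positivity), Real.log_mul (by positivity) hn0.ne',
      Real.log_pow]
    have h1 : Real.log (16 * η) = -a := by
      rw [ha, one_div, Real.log_inv, neg_neg]
    rw [h1]
    push_cast
    have h2 : x * a = Real.log (Fintype.card V) := by
      rw [hx]; field_simp
    nlinarith
  obtain ⟨t, ht⟩ : ∃ t : ℕ, t = 2 ^ j := ⟨_, rfl⟩
  have htr : (t : ℝ) ≤ 1 + 2 * x := by rw [ht]; push_cast; exact hj2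
  have hpow : (1 / l) ^ (2 * t + 1) ≤ (1 / l) ^ 3 *
      (Fintype.card V : ℝ) ^ (4 * Real.log (1 / l) / a) := by
    have h1 : (1 / l) ^ (2 * t + 1) = (1 / l) ^ ((2 * t + 1 : ℕ) : ℝ) :=
      (Real.rpow_natCast _ _).symm
    have h2 : (1 / l) ^ ((2 * t + 1 : ℕ) : ℝ) ≤ (1 / l) ^ (3 + 4 * x) := by
      apply Real.rpow_le_rpow_of_exponent_le h1l
      push_cast
      linarith
    have h3 : (1 / l) ^ (3 + 4 * x) = (1 / l) ^ 3 * (1 / l) ^ (4 * x) := by
      rw [Real.rpow_add (by positivity)]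
      congr 1
      exact_mod_cast Real.rpow_natCast (1 / l) 3
    have h4 : (1 / l) ^ (4 * x) = (Fintype.card V : ℝ) ^ (4 * Real.log (1 / l) / a) := by
      rw [Real.rpow_def_of_pos (by positivity), Real.rpow_def_of_pos hn0]
      congr 1
      rw [hx]
      ring
    rw [h1]
    refine h2.trans (le_of_eq ?_)
    rw [h3, h4]
  obtain ⟨D, hD⟩ : ∃ D : ℝ, D = k * l ^ (2 * t + 1) / (23 * Fintype.card V) := ⟨_, rfl⟩
  have hD0 : 0 < D := by rw [hD]; positivity
  refine core hQ hd k hk2 hkV η (1 - ε) l (η / 2) hη hη1 hl0 (by positivity) (by linarith) hno N j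
    D hD0 hj (by
      rw [hD, ← ht]
      apply le_of_eq
      field_simp) ?_ L hL hval
  have h1 : 1 + (1 - (1 - ε) + η) / (η / 2) = 3 + 2 * (ε / η) := by
    field_simp
    ring
  rw [h1]
  have h2 : (3 + 2 * (ε / η)) * (23 * (Fintype.card V / k)) * (1 / l) ^ (2 * t + 1) ≤ N := by
    refine le_trans ?_ hN
    calc (3 + 2 * (ε / η)) * (23 * ((Fintype.card V : ℝ) / k)) * (1 / l) ^ (2 * t + 1)
        ≤ (3 + 2 * (ε / η)) * (23 * ((Fintype.card V : ℝ) / k)) * ((1 / l) ^ 3 *
          (Fintype.card V : ℝ) ^ (4 * Real.log (1 / l) / a)) :=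
          mul_le_mul_of_nonneg_left hpow (by positivity)
      _ = _ := by ring
  have h3 : (1 / l) ^ (2 * t + 1) * l ^ (2 * t + 1) = 1 := by
    rw [← mul_pow, one_div, inv_mul_cancel₀ hl0.ne', one_pow]
  calc 3 + 2 * (ε / η) = (3 + 2 * (ε / η)) * ((1 / l) ^ (2 * t + 1) * l ^ (2 * t + 1)) := by
        rw [h3, mul_one]
    _ = ((3 + 2 * (ε / η)) * (23 * (Fintype.card V / k)) * (1 / l) ^ (2 * t + 1)) * D := by
        rw [hD]
        field_simp
    _ ≤ N * D := mul_le_mul_of_nonneg_right h2 hD0.le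

/-- the gap between `η` and `1 - η` -/
theorem gap {Q : V → V → ℝ} (hQ : Ker Q) (hd : ∀ v, Q v v = 0) (k : ℕ) (hk : 1 ≤ k)
    (hkV : k ≤ Fintype.card V) (η : ℝ) (hη : 0 < η) (hη1 : η < 1 / 2)
    (hno : ∀ S : Finset V, S.card = k → ins Q S ≤ η * k) (N : ℕ)
    (hN : 300 * (Fintype.card V / k) *
      (Fintype.card V : ℝ) ^ (300 * η / Real.log (1 / η)) ≤ N)
    (L : ((V → Bool) → ℝ) →ₗ[ℝ] ℝ) (hL : Lev k N L) (hval : (1 - η) * k ≤ val Q L) : False := by
  have hk0 : (0 : ℝ) < k := by exact_mod_cast hk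
  have hn0 : (0 : ℝ) < Fintype.card V := by
    have : 0 < Fintype.card V := by omega
    exact_mod_cast this
  have hn1 : (1 : ℝ) ≤ Fintype.card V := by
    have : 1 ≤ Fintype.card V := by omega
    exact_mod_cast this
  have hnk : (1 : ℝ) ≤ Fintype.card V / k := by
    rw [le_div_iff₀ hk0, one_mul]
    exact_mod_cast hkV
  have hlog0 : 0 < Real.log (1 / η) := by
    apply Real.log_pos
    rw [lt_div_iff₀ hη]
    linarith
  rcases le_or_gt η (1 / 64) with hs | hb
  · -- small `η`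
    refine gen hQ hd k hk hkV η η hη.le hη hs (by linarith) hno N (le_trans ?_ hN) L hL hval
    have e0 : 1 - η - 5 * η = 1 - 6 * η := by ring
    rw [e0]
    have hl0 : 0 < 1 - 6 * η := by linarith
    have hc1 : (1 / (1 - 6 * η)) ^ 3 ≤ 1.35 := by
      have h1 : 1 / (1 - 6 * η) ≤ 1.104 := by
        rw [div_le_iff₀ hl0]
        nlinarith
      have h0 : 0 ≤ 1 / (1 - 6 * η) := by positivity
      calc (1 / (1 - 6 * η)) ^ 3 ≤ (1.104 : ℝ) ^ 3 := pow_le_pow_left₀ h0 h1 3
        _ ≤ 1.35 := by norm_num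
    have hlog1 : Real.log (1 / (1 - 6 * η)) ≤ 7 * η := by
      have h1 : Real.log (1 / (1 - 6 * η)) ≤ 1 / (1 - 6 * η) - 1 :=
        Real.log_le_sub_one_of_pos (by positivity)
      have h2 : 1 / (1 - 6 * η) - 1 ≤ 7 * η := by
        rw [sub_le_iff_le_add, div_le_iff₀ hl0]
        nlinarith
      linarith
    have hlog2 : Real.log (1 / η) / 3 ≤ Real.log (1 / (16 * η)) := by
      have h1 : Real.log (1 / η) = -Real.log η := by rw [one_div, Real.log_inv]
      have h2 : Real.log (1 / (16 * η)) = -Real.log 16 - Real.log η := by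
        rw [one_div, Real.log_inv, Real.log_mul (by norm_num) hη.ne']
        ring
      have h3 : Real.log η ≤ -Real.log 64 := by
        have := Real.log_le_log hη hs
        rwa [one_div, Real.log_inv] at this
      have h4 : Real.log 16 = 4 * Real.log 2 := by
        rw [show (16 : ℝ) = 2 ^ 4 by norm_num, Real.log_pow]; norm_num
      have h5 : Real.log 64 = 6 * Real.log 2 := by
        rw [show (64 : ℝ) = 2 ^ 6 by norm_num, Real.log_pow]; norm_num
      rw [h1, h2, h4]
      rw [h5] at h3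
      linarith
    have hexp : 4 * Real.log (1 / (1 - 6 * η)) / Real.log (1 / (16 * η)) ≤
        300 * η / Real.log (1 / η) := by
      rw [div_le_div_iff₀ (by linarith) hlog0]
      have h1 : 4 * Real.log (1 / (1 - 6 * η)) * Real.log (1 / η) ≤
          (28 * η) * Real.log (1 / η) := mul_le_mul_of_nonneg_right (by linarith) hlog0.le
      have h2 : 300 * η * (Real.log (1 / η) / 3) ≤ 300 * η * Real.log (1 / (16 * η)) :=
        mul_le_mul_of_nonneg_left hlog2 (by positivity)
      nlinarith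
    have hp := Real.rpow_le_rpow_of_exponent_le hn1 hexp
    rw [div_self hη.ne']
    calc (69 + 46 * 1) * ((Fintype.card V : ℝ) / k) * (1 / (1 - 6 * η)) ^ 3 *
          (Fintype.card V : ℝ) ^ (4 * Real.log (1 / (1 - 6 * η)) / Real.log (1 / (16 * η)))
        ≤ (69 + 46 * 1) * ((Fintype.card V : ℝ) / k) * 1.35 *
          (Fintype.card V : ℝ) ^ (300 * η / Real.log (1 / η)) :=
          mul_le_mul (mul_le_mul_of_nonneg_left hc1 (by positivity)) hp (by positivity)
            (by positivity)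
      _ ≤ 300 * ((Fintype.card V : ℝ) / k) *
          (Fintype.card V : ℝ) ^ (300 * η / Real.log (1 / η)) := by
          apply mul_le_mul_of_nonneg_right _ (by positivity)
          nlinarith
  · -- large `η`: the level is at least `n`
    refine full_case k η hη1 hk hno N ?_ L hL hval
    have hlog : Real.log (1 / η) ≤ 300 * η := by
      have h1 : Real.log (1 / η) ≤ Real.log 64 := by
        apply Real.log_le_log (by positivity)
        rw [div_le_iff₀ hη]
        linarith
      have h5 : Real.log 64 = 6 * Real.log 2 := by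
        rw [show (64 : ℝ) = 2 ^ 6 by norm_num, Real.log_pow]; norm_num
      have h6 := Real.log_two_lt_d9
      linarith
    have hexp : 1 ≤ 300 * η / Real.log (1 / η) := by
      rw [le_div_iff₀ hlog0]
      linarith
    have h1 : (Fintype.card V : ℝ) ≤ (Fintype.card V : ℝ) ^ (300 * η / Real.log (1 / η)) := by
      calc (Fintype.card V : ℝ) = (Fintype.card V : ℝ) ^ (1 : ℝ) := (Real.rpow_one _).symm
        _ ≤ _ := Real.rpow_le_rpow_of_exponent_le hn1 hexp
    have h2 : (Fintype.card V : ℝ) ≤ N := by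
      refine le_trans ?_ hN
      calc (Fintype.card V : ℝ) ≤ 1 * (Fintype.card V : ℝ) ^ (300 * η / Real.log (1 / η)) := by
            rw [one_mul]; exact h1
        _ ≤ 300 * ((Fintype.card V : ℝ) / k) *
            (Fintype.card V : ℝ) ^ (300 * η / Real.log (1 / η)) :=
            mul_le_mul_of_nonneg_right (by linarith) (by positivity)
    exact_mod_cast h2

end

end Pool.Agent.Y601.SSE
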